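import Pool.Agent.N683.H2.Res
import Pool.Agent.N19.BR.Par

/-! Relations with an odd coefficient, and semistable curves. -/

set_option autoImplicit false

namespace Pool.Agent.N683.H2

open NumberField IsDedekindDomain
open Pool.Agent.R433.MD (Ext LL IsHyper map_restrict)
open Pool.Agent.N683.HR (Rk)
open Pool.Agent.N19.BR (Cyc Cl LocDvd artin core cyc_restrict loc_restrict loc_one IsRel
  hyperOver_of)
open Pool.Agent.N19.BR.Def Pool.Agent.N19.BR.FDef
open scoped Classical

/-- The list of the fields with 2-hyperelementary Galois groups. -/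
theorem list_two2 {K : Type} [Field K] [NumberField K] (E : WeierstrassCurve K)
    (hE : E.IsElliptic) (h0 : E.j ≠ 0) (h1 : E.j ≠ 1728) (L : Type) [Field L] [NumberField L]
    [Algebra K L] [IsGalois K L] {S : Set (HeightOneSpectrum (𝓞 K))} (hS : S.Finite) {n : ℕ}
    (hn : Odd n) (R : ℕ) : ∃ (N : ℕ) (Z : Fin N → Ext K) (e : Fin N → ℤ) (m : ℕ), Odd m ∧
      IsRel K Z e m ∧ ∀ i, TwoClass L S n (Z i) ∧
        (R : Cardinal) ≤ Module.rank ℤ (E.map (algebraMap K (Z i).F)).toAffine.Point := by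
  have hp : Nat.Prime 2 := Nat.prime_two
  have key : Pool.Agent.N19.BR.Good 2 K (fun Z => TwoClass L S n Z ∧
      Rk R (E.map (algebraMap K Z.F))) := by
    refine (core (Or.inr hp) K L hS hn.pos.ne' (fun _ => Nat.coprime_two_right.2 hn)).comp
      (Or.inr hp) (fun Z Y => Rk R ((E.map (algebraMap K Z.F)).map (algebraMap Z.F Y.F))) ?_ ?_
    · intro Z _
      refine good_hypE hyps2 Z.F (E.map (algebraMap K Z.F)) inferInstance ?_ ?_ R
      · rw [WeierstrassCurve.map_j]
        exact (map_ne_zero _).mpr h0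
      · rw [WeierstrassCurve.map_j]
        intro h
        apply h1
        apply (algebraMap K Z.F).injective
        rw [h, map_ofNat]
    · rintro Z Y ⟨h3, h4, -⟩ h5
      have h6 := loc_restrict Z Y h4 (loc_one _ Y.F)
      rw [mul_one] at h6
      have h7 := cyc_restrict Z Y h3
      refine ⟨⟨hyperOver_of hp h7, h6⟩, ?_⟩
      rw [map_restrict]
      exact h5
  obtain ⟨ι, hι, Z, e, m, hm, hr, hP⟩ := key
  let f : Fin (Fintype.card ι) ≃ ι := (Fintype.equivFin ι).symm
  refine ⟨Fintype.card ι, fun j => Z (f j), fun j => e (f j), m,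
    Nat.not_even_iff_odd.1 fun h => hm h.two_dvd, hr.reindex f, fun j => ?_⟩
  exact ⟨(hP (f j)).1, (hP (f j)).2.le⟩

/-- the base change of a semistable curve is semistable -/
theorem semistable_map {K : Type} [Field K] [NumberField K] {E : WeierstrassCurve K}
    (hs : Semistable E) (F : Type) [Field F] [NumberField F] [Algebra K F] :
    Semistable (E.map (algebraMap K F)) := by
  intro w
  have hp : (w.asIdeal.comap (algebraMap (𝓞 K) (𝓞 F))).IsPrime := inferInstance
  have hne : w.asIdeal.comap (algebraMap (𝓞 K) (𝓞 F)) ≠ ⊥ := by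
    exact Ideal.IsIntegral.comap_ne_bot (𝓞 K) w.ne_bot
  obtain ⟨W, ⟨C, hC⟩, hW⟩ := hs ⟨w.asIdeal.comap (algebraMap (𝓞 K) (𝓞 F)), hp, hne⟩
  refine ⟨W.map (algebraMap (𝓞 K) (𝓞 F)), ⟨C.map (algebraMap K F), ?_⟩, ?_⟩
  · rw [← hC, ← WeierstrassCurve.map_variableChange, WeierstrassCurve.map_map,
      WeierstrassCurve.map_map]
    congr 1
  · rw [WeierstrassCurve.map_Δ, WeierstrassCurve.map_c₄]
    exact hW

end Pool.Agent.N683.H2
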