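import Pool.Agent.N683.H2.Stm

/-!
# Project H2 (helper683): conics (by helper999)
-/

set_option autoImplicit false

namespace Pool.Agent.N683.H2

theorem conic : S_CONIC := by
  intro F _ _ i α β z hi hα hβ hz
  have hz0 : z ≠ 0 := by
    rintro rfl
    exact hz ⟨0, (mul_zero 0).symm⟩
  by_cases hs : IsSquare (α * β)
  · obtain ⟨s, hs⟩ := hs
    have hs0 : s ≠ 0 := by
      rintro rfl
      rw [mul_zero] at hs
      exact (mul_ne_zero hα hβ) hs
    have hi0 : i ≠ 0 := by
      rintro rfl
      rw [zero_pow two_ne_zero] at hi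
      exact one_ne_zero (neg_eq_zero.1 hi.symm)
    have hz1 : z + 1 ≠ 0 := by
      intro h
      apply hz
      refine ⟨i, ?_⟩
      linear_combination h - hi
    refine ⟨β, β * z, 0, 1, (z - 1) / ((i * s / β) * (z + 1)), 2 / (z + 1), hβ,
      mul_ne_zero hβ hz0, ?_, one_ne_zero, div_ne_zero two_ne_zero hz1, by ring, ?_⟩
    · rintro ⟨w, hw⟩
      apply hz
      refine ⟨w / β, ?_⟩
      field_simp
      linear_combination hw
    · have e1 : α * ((z - 1) / ((i * s / β) * (z + 1))) ^ 2 = -(β * ((z - 1) / (z + 1)) ^ 2) := by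
        have e2 : ((i * s / β) * (z + 1)) ^ 2 = -(α / β) * (z + 1) ^ 2 := by
          have e3 : (i * s / β) ^ 2 = -(α / β) := by
            field_simp
            linear_combination s ^ 2 * hi + hs
          rw [mul_pow, e3]
        rw [div_pow, e2]
        field_simp
      rw [e1]
      field_simp
      ring
  · have hab : α + β ≠ 0 := by
      intro h
      apply hs
      refine ⟨i * α, ?_⟩
      linear_combination α * h - α ^ 2 * hi
    refine ⟨β, α, 0, 1, (β - α) / (2 * α), (α + β) / (2 * α), hβ, hα, ?_, one_ne_zero,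
      div_ne_zero hab (mul_ne_zero two_ne_zero hα), by ring, ?_⟩
    · rw [mul_comm]
      exact hs
    · field_simp
      ring

theorem param : S_PARAM := by
  refine ⟨?_, ?_⟩
  · intro F _ α β c t₀ y₀ s h hT
    have e1 : α * (2 * c * y₀ * s - α * t₀ - c * t₀ * s ^ 2) ^ 2 + β * (α - c * s ^ 2) ^ 2 =
        c * (α * y₀ - 2 * α * t₀ * s + c * y₀ * s ^ 2) ^ 2 := by
      linear_combination (α - c * s ^ 2) ^ 2 * h
    rw [div_pow, div_pow]
    field_simp
    linear_combination e1
  · intro Ω _ _ _ α β c t₀ y₀ t₁ hα hβ hc hy h ht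
    -- a root of the quadratic polynomial
    obtain ⟨s, hs⟩ : ∃ s : Ω, c * (t₁ - t₀) * s ^ 2 + 2 * c * y₀ * s - α * (t₀ + t₁) = 0 := by
      by_cases h1 : t₁ = t₀
      · refine ⟨α * t₀ / (c * y₀), ?_⟩
        rw [h1]
        field_simp
        ring
      · have h2 : t₁ - t₀ ≠ 0 := sub_ne_zero.2 h1
        obtain ⟨w, hw⟩ := IsAlgClosed.exists_pow_nat_eq (c * (β + α * t₁ ^ 2)) (n := 2) two_pos
        refine ⟨(-(c * y₀) + w) / (c * (t₁ - t₀)), ?_⟩
        field_simp
        linear_combination hw + c * h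
    have hT : α - c * s ^ 2 ≠ 0 := by
      intro h0
      have h1 : c * y₀ * s = α * t₀ := by
        have h2 : 2 * (c * y₀ * s - α * t₀) = 0 := by
          linear_combination hs + (t₁ - t₀) * h0
        have h3 := (mul_eq_zero.1 h2).resolve_left two_ne_zero
        exact sub_eq_zero.1 h3
      have hs0 : s ≠ 0 := by
        intro h2
        apply hα
        rw [h2] at h0
        linear_combination h0
      have h4 : y₀ = s * t₀ := by
        have h5 : (c * s) * (y₀ - s * t₀) = 0 := by
          linear_combination h1 + t₀ * h0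
        exact sub_eq_zero.1 ((mul_eq_zero.1 h5).resolve_left (mul_ne_zero hc hs0))
      apply hβ
      rw [h4] at h
      linear_combination h - t₀ ^ 2 * h0
    have hT1 : 2 * c * y₀ * s - α * t₀ - c * t₀ * s ^ 2 = t₁ * (α - c * s ^ 2) := by
      linear_combination hs
    refine ⟨s, hT, hT1, ?_⟩
    rw [hT1]
    have e1 : (2 * c * y₀ - 2 * c * t₀ * s) * (α - c * s ^ 2) -
        t₁ * (α - c * s ^ 2) * (-2 * c * s) =
        (α - c * s ^ 2) * (2 * c * (t₁ - t₀) * s + 2 * c * y₀) := by ring
    rw [e1]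
    apply mul_ne_zero hT
    intro h0
    have h1 : 4 * c * (α * t₁ ^ 2 + β) = 0 := by
      have h2 : (2 * c * (t₁ - t₀) * s + 2 * c * y₀) ^ 2 = 4 * c * (α * t₁ ^ 2 + β) := by
        linear_combination 4 * c * (t₁ - t₀) * hs - 4 * c * h
      rw [← h2, h0]
      ring
    rcases mul_eq_zero.1 h1 with h3 | h3
    · rcases mul_eq_zero.1 h3 with h4 | h4
      · exact (by norm_num : (4 : Ω) ≠ 0) h4
      · exact hc h4
    · exact ht h3

end Pool.Agent.N683.H2
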