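import Pool.Agent.N683.H2.Stm

/-! Task CPT: compactness. -/

set_option autoImplicit false

namespace Pool.Agent.N683.H2

open IntermediateField Filter Topology
open Pool.Agent.R433.MD (IsHyper)

theorem IsHyper.of_ker {p : ℕ} {G G0 G1 : Type} [Group G] [Group G0] [Group G1] (U : Subgroup G)
    (φ1 : G →* G1) (φ0 : G →* G0) (hker : φ1.ker ≤ φ0.ker) (h : IsHyper p (U.map φ1)) :
    IsHyper p (U.map φ0) := by
  obtain ⟨C, hCH, hC, hcop, hn, hk⟩ := h
  obtain ⟨⟨g, hg⟩, hgen⟩ := hC.exists_generator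
  obtain ⟨u, huU, rfl⟩ := hCH hg
  have key : ∀ v, φ1 v ∈ C → φ0 v ∈ Subgroup.zpowers (φ0 u) := by
    intro v hv
    obtain ⟨m, hm⟩ := hgen ⟨φ1 v, hv⟩
    have hm' : φ1 u ^ m = φ1 v := congrArg Subtype.val hm
    have h1 : v * (u ^ m)⁻¹ ∈ φ1.ker := by
      rw [MonoidHom.mem_ker, map_mul, map_inv, map_zpow, hm', mul_inv_cancel]
    have h2 := MonoidHom.mem_ker.mp (hker h1)
    rw [map_mul, map_inv, map_zpow] at h2
    exact ⟨m, (mul_inv_eq_one.mp h2).symm⟩
  have hCz : C = Subgroup.zpowers (φ1 u) := by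
    apply le_antisymm
    · intro c hc
      obtain ⟨m, hm⟩ := hgen ⟨c, hc⟩
      exact ⟨m, congrArg Subtype.val hm⟩
    · rw [Subgroup.zpowers_le]
      exact hg
  refine ⟨Subgroup.zpowers (φ0 u), ?_, inferInstance, ?_, ?_, ?_⟩
  · rw [Subgroup.zpowers_le]
    exact ⟨u, huU, rfl⟩
  · rw [hCz, Nat.card_zpowers] at hcop
    rw [Nat.card_zpowers]
    refine Nat.Coprime.coprime_dvd_left ?_ hcop
    rw [orderOf_dvd_iff_pow_eq_one, ← map_pow]
    have h1 : u ^ orderOf (φ1 u) ∈ φ1.ker := by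
      rw [MonoidHom.mem_ker, map_pow, pow_orderOf_eq_one]
    exact MonoidHom.mem_ker.mp (hker h1)
  · rintro _ ⟨v, hv, rfl⟩ c hc
    obtain ⟨m, rfl⟩ := hc
    change φ0 v * φ0 u ^ m * (φ0 v)⁻¹ ∈ _
    rw [← map_zpow, ← map_inv, ← map_mul, ← map_mul]
    apply key
    rw [map_mul, map_mul, map_inv]
    refine hn _ ⟨v, hv, rfl⟩ _ ?_
    rw [map_zpow]
    exact C.zpow_mem hg m
  · rintro _ ⟨v, hv, rfl⟩
    obtain ⟨k, hkC⟩ := hk _ ⟨v, hv, rfl⟩
    refine ⟨k, ?_⟩
    rw [← map_pow]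
    apply key
    rw [map_pow]
    exact hkC

theorem ker_res_le {K Ω : Type} [Field K] [Field Ω] [Algebra K Ω]
    (L L' : IntermediateField K Ω) [Normal K L] [Normal K L'] (h : L ≤ L') :
    (AlgEquiv.restrictNormalHom L' : Gal(Ω/K) →* Gal(L'/K)).ker ≤
      (AlgEquiv.restrictNormalHom L : Gal(Ω/K) →* Gal(L/K)).ker := by
  rw [IntermediateField.restrictNormalHom_ker, IntermediateField.restrictNormalHom_ker]
  exact IntermediateField.fixingSubgroup_antitone h

theorem cpt : S_CPT := by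
  intro K Ω _ _ _ _ _ _ Q hmono hT2
  by_contra hcon
  push Not at hcon
  have : IsAlgClosure K Ω := ⟨inferInstance, inferInstance⟩
  have : IsGalois K Ω := IsAlgClosure.isGalois K Ω
  choose Uf hUf hQf using hcon
  let I := {L : IntermediateField K Ω // Normal K L ∧ FiniteDimensional K L}
  have hne : Nonempty I := ⟨⟨⊥, inferInstance, inferInstance⟩⟩
  have hdir : IsDirectedOrder I := by
    refine ⟨fun a b => ?_⟩
    have := a.2.1
    have := a.2.2
    have := b.2.1
    have := b.2.2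
    exact ⟨⟨a.1 ⊔ b.1, inferInstance, inferInstance⟩, le_sup_left (a := a.1), le_sup_right (b := b.1)⟩
  let V : I → Subgroup Gal(Ω/K) := fun L => Uf L.1 L.2.1 L.2.2
  let 𝒰 : Ultrafilter I := Ultrafilter.of atTop
  have h𝒰 : (𝒰 : Filter I) ≤ atTop := Ultrafilter.of_le atTop
  let res : (M : I) → Gal(Ω/K) →* Gal(M.1/K) := fun M =>
    have := M.2.1
    AlgEquiv.restrictNormalHom M.1
  have hfin : ∀ M : I, Finite Gal(M.1/K) := fun M =>
    have := M.2.2
    inferInstance
  have hex : ∀ M : I, ∃ H : Subgroup Gal(M.1/K), ∀ᶠ L in (𝒰 : Filter I), (V L).map (res M) = H := by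
    intro M
    have := hfin M
    obtain ⟨H, hH⟩ := Ultrafilter.eq_pure_of_finite (𝒰.map fun L => (V L).map (res M))
    refine ⟨H, ?_⟩
    have h1 : {H' | H' = H} ∈ 𝒰.map fun L => (V L).map (res M) := by
      rw [hH]
      exact Ultrafilter.mem_pure.2 rfl
    exact h1
  choose H hH using hex
  let U : Subgroup Gal(Ω/K) := ⨅ M : I, (H M).comap (res M)
  have hUmap : ∀ M : I, U.map (res M) = H M := by
    intro M
    apply le_antisymm
    · rw [Subgroup.map_le_iff_le_comap]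
      exact iInf_le _ M
    · intro h hh
      have h1 : ∀ᶠ L in (𝒰 : Filter I), ∃ u, u ∈ V L ∧ res M u = h := by
        filter_upwards [hH M] with L hL
        rw [← hL] at hh
        exact hh
      obtain ⟨g, hg⟩ := h1.choice
      obtain ⟨u, -, hu⟩ := isCompact_univ.ultrafilter_le_nhds (𝒰.map g) (by simp)
      have hnb : ∀ M' : I, ∀ᶠ L in (𝒰 : Filter I), res M' (g L) = res M' u := by
        intro M'
        have := M'.2.1
        have := M'.2.2
        have hc : Continuous (res M') := InfiniteGalois.restrictNormalHom_continuous M'.1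
        have : DiscreteTopology Gal(M'.1/K) := krullTopology_discreteTopology_of_finiteDimensional K M'.1
        have h2 : {v | res M' v = res M' u} ∈ 𝓝 u := by
          have h3 : IsOpen {v | res M' v = res M' u} :=
            (isOpen_discrete ({res M' u} : Set Gal(M'.1/K))).preimage hc
          exact h3.mem_nhds rfl
        exact hu h2
      have hu2 : u ∈ U := by
        rw [Subgroup.mem_iInf]
        intro M'
        rw [Subgroup.mem_comap]
        obtain ⟨L, ⟨hL1, hL2⟩, hL3⟩ := ((hnb M').and hg |>.and (hH M')).exists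
        rw [← hL1, ← hL3]
        exact ⟨_, hL2.1, rfl⟩
      obtain ⟨L, hL1, hL2⟩ := ((hnb M).and hg).exists
      exact ⟨u, hu2, by rw [← hL1, hL2.2]⟩
  have hev : ∀ M : I, ∃ L : I, M ≤ L ∧ (V L).map (res M) = U.map (res M) := by
    intro M
    have h0 : ∀ᶠ L in (𝒰 : Filter I), M ≤ L := h𝒰 (eventually_ge_atTop M)
    obtain ⟨L, hL1, hL2⟩ := (h0.and (hH M)).exists
    exact ⟨L, hL1, by rw [hL2, hUmap]⟩
  have hT : T2 U := by
    intro L hn hf
    obtain ⟨L', hL1, hL2⟩ := hev ⟨L, hn, hf⟩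
    change IsHyper 2 (U.map (res ⟨L, hn, hf⟩))
    rw [← hL2]
    have := L'.2.1
    exact IsHyper.of_ker (V L') (AlgEquiv.restrictNormalHom L'.1) _ (ker_res_le L L'.1 hL1)
      (hUf L'.1 L'.2.1 L'.2.2)
  obtain ⟨L, hn, hf, hQ⟩ := hT2 U hT
  obtain ⟨L', hL1, hL2⟩ := hev ⟨L, hn, hf⟩
  have := L'.2.1
  have := L'.2.2
  exact hQf L'.1 L'.2.1 L'.2.2 (hmono L L'.1 U (V L') hL1 hL2.le hQ)

end Pool.Agent.N683.H2
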