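import Pool.Agent.N683.H2.Stm

/-!
# Project H2 (helper683), task DISC (helper157): discriminants of cubics over fixed fields
-/

set_option autoImplicit false

namespace Pool.Agent.N683.H2

open IntermediateField Polynomial
open Pool.Agent.R433.MD (IsHyper)

namespace Disc

/-- a subgroup permuting the values of an injective family acts by permutations of the index set -/
theorem perm_hom {G X : Type} [Group G] (H : Subgroup G) (a : G → X → X)
    (ha1 : ∀ x, a 1 x = x) (ha2 : ∀ g h x, a (g * h) x = a g (a h x)) {n : ℕ}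
    (E : Fin n → X) (hE : Function.Injective E) (hp : ∀ h ∈ H, ∀ i, ∃ j, a h (E i) = E j) :
    ∃ f : H →* Equiv.Perm (Fin n), ∀ (h : H) (i : Fin n), a (h : G) (E i) = E (f h i) := by
  have hp' : ∀ (h : H) (i : Fin n), ∃ j, a (h : G) (E i) = E j := fun h i => hp h h.2 i
  choose j hj using hp'
  have hinj : ∀ h : H, Function.Injective (j h) := by
    intro h i i' hii
    have h1 : a (h : G) (E i) = a (h : G) (E i') := by rw [hj, hj, hii]
    have h2 : a ((h : G)⁻¹ * h) (E i) = a ((h : G)⁻¹ * h) (E i') := by rw [ha2, ha2, h1]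
    rw [inv_mul_cancel, ha1, ha1] at h2
    exact hE h2
  have hbij : ∀ h : H, Function.Bijective (j h) := fun h => Finite.injective_iff_bijective.1 (hinj h)
  refine ⟨{ toFun := fun h => Equiv.ofBijective (j h) (hbij h), map_one' := ?_, map_mul' := ?_ }, ?_⟩
  · ext i
    have : j 1 i = i := by
      apply hE
      rw [← hj]
      exact ha1 _
    simp only [Equiv.ofBijective_apply, Equiv.Perm.coe_one, id_eq, this]
  · intro g h
    ext i
    have : j (g * h) i = j g (j h i) := by
      apply hE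
      rw [← hj, ← hj, ← hj]
      exact ha2 _ _ _
    simp only [Equiv.ofBijective_apply, Equiv.Perm.coe_mul, Function.comp_apply, this]
  · intro h i
    exact hj h i

/-- the square root of the discriminant -/
def dl {F : Type} [CommRing F] (e : Fin 3 → F) : F := (e 0 - e 1) * (e 0 - e 2) * (e 1 - e 2)

theorem dl_perm {F : Type} [CommRing F] (e : Fin 3 → F) (s : Equiv.Perm (Fin 3)) :
    dl (fun i => e (s i)) = ((Equiv.Perm.sign s : ℤ) : F) * dl e := by
  have hdet : ∀ v : Fin 3 → F, (Matrix.vandermonde v).det = - dl v := by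
    intro v
    rw [Matrix.det_fin_three]
    simp only [Matrix.vandermonde_apply, Fin.val_zero, Fin.val_one, Fin.val_two, pow_zero, pow_one]
    unfold dl
    ring
  have h1 : (Matrix.vandermonde (fun i => e (s i))) = (Matrix.vandermonde e).submatrix s id := by
    ext i j
    rfl
  have h2 := Matrix.det_permute s (Matrix.vandermonde e)
  rw [← h1, hdet, hdet] at h2
  linear_combination -h2

/-- a cubic polynomial splits -/
theorem split3 {Ω : Type} [Field Ω] [IsAlgClosed Ω] (b c d : Ω) : ∃ e : Fin 3 → Ω,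
    ∀ x, x ^ 3 + b * x ^ 2 + c * x + d = (x - e 0) * (x - e 1) * (x - e 2) := by
  obtain ⟨e0, h0⟩ := IsAlgClosed.exists_root (X ^ 3 + C b * X ^ 2 + C c * X + C d : Polynomial Ω) (by
    have : (X ^ 3 + C b * X ^ 2 + C c * X + C d : Polynomial Ω).degree = 3 := by compute_degree!
    rw [this]
    decide)
  simp only [IsRoot.def, eval_add, eval_pow, eval_X, eval_mul, eval_C] at h0
  obtain ⟨e1, h1⟩ := IsAlgClosed.exists_root (X ^ 2 + C (b + e0) * X + C (c + (b + e0) * e0) : Polynomial Ω) (by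
    have : (X ^ 2 + C (b + e0) * X + C (c + (b + e0) * e0) : Polynomial Ω).degree = 2 := by compute_degree!
    rw [this]
    decide)
  simp only [IsRoot.def, eval_add, eval_pow, eval_X, eval_mul, eval_C] at h1
  refine ⟨![e0, e1, -(b + e0) - e1], fun x => ?_⟩
  simp only [Matrix.cons_val_zero, Matrix.cons_val_one, Matrix.cons_val_two, Matrix.head_cons,
    Matrix.tail_cons, Matrix.cons_val]
  linear_combination h0 + (x - e0) * h1

theorem dsc_eq {Ω : Type} [Field Ω] [CharZero Ω] (b c d : Ω) (e : Fin 3 → Ω)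
    (h : ∀ x, x ^ 3 + b * x ^ 2 + c * x + d = (x - e 0) * (x - e 1) * (x - e 2)) :
    dl e ^ 2 = dsc b c d := by
  have h0 := h 0
  have h1 := h 1
  have h2 := h (-1)
  have hd : d = - (e 0 * e 1 * e 2) := by linear_combination h0
  have hb : b = - (e 0 + e 1 + e 2) := by
    have : 2 * b = 2 * (- (e 0 + e 1 + e 2)) := by linear_combination h1 + h2 - 2 * h0
    exact mul_left_cancel₀ two_ne_zero this
  have hc : c = e 0 * e 1 + e 0 * e 2 + e 1 * e 2 := by
    have : 2 * c = 2 * (e 0 * e 1 + e 0 * e 2 + e 1 * e 2) := by linear_combination h1 - h2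
    exact mul_left_cancel₀ two_ne_zero this
  unfold dl dsc
  rw [hb, hc, hd]
  ring

section

variable {K Ω : Type} [Field K] [NumberField K] [Field Ω] [Algebra K Ω] [Algebra.IsAlgebraic K Ω]
    [IsAlgClosed Ω]

omit [NumberField K] [Algebra.IsAlgebraic K Ω] [IsAlgClosed Ω] in
theorem perm_roots (U : Subgroup Gal(Ω/K)) (b c d : Ω) (hb : b ∈ fixedField U)
    (hc : c ∈ fixedField U) (hd : d ∈ fixedField U) (e : Fin 3 → Ω)
    (h : ∀ x, x ^ 3 + b * x ^ 2 + c * x + d = (x - e 0) * (x - e 1) * (x - e 2)) (u : Gal(Ω/K))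
    (hu : u ∈ U) (i : Fin 3) : ∃ j, u (e i) = e j := by
  have h1 : ∀ x, x ∈ fixedField U → u x = x := by
    intro x hx
    rw [IntermediateField.mem_fixedField_iff] at hx
    exact hx u hu
  have h2 : (e i) ^ 3 + b * (e i) ^ 2 + c * (e i) + d = 0 := by
    rw [h]
    fin_cases i <;> simp
  have h3 : (u (e i)) ^ 3 + b * (u (e i)) ^ 2 + c * (u (e i)) + d = 0 := by
    have h4 := congrArg u h2
    simp only [map_add, map_mul, map_pow, map_zero] at h4
    rw [h1 b hb, h1 c hc, h1 d hd] at h4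
    exact h4
  rw [h] at h3
  rcases mul_eq_zero.1 h3 with h5 | h5
  · rcases mul_eq_zero.1 h5 with h6 | h6
    · exact ⟨0, sub_eq_zero.1 h6⟩
    · exact ⟨1, sub_eq_zero.1 h6⟩
  · exact ⟨2, sub_eq_zero.1 h5⟩

omit [NumberField K] [Algebra.IsAlgebraic K Ω] [IsAlgClosed Ω] in
theorem inj_of_dl (e : Fin 3 → Ω) (h : dl e ≠ 0) : Function.Injective e := by
  unfold dl at h
  have h1 : e 0 - e 1 ≠ 0 := fun h' => h (by rw [h']; ring)
  have h2 : e 0 - e 2 ≠ 0 := fun h' => h (by rw [h']; ring)
  have h3 : e 1 - e 2 ≠ 0 := fun h' => h (by rw [h']; ring)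
  rw [sub_ne_zero] at h1 h2 h3
  intro i j hij
  fin_cases i <;> fin_cases j <;> simp_all

theorem exists_L (e : Fin 3 → Ω) (e' : Fin 3 → Ω) : ∃ (L : IntermediateField K Ω) (_ : Normal K L),
    FiniteDimensional K L ∧ (∀ i, e i ∈ L) ∧ ∀ i, e' i ∈ L := by
  have hfd : FiniteDimensional K (adjoin K (Set.range e ∪ Set.range e')) := by
    apply IntermediateField.finiteDimensional_adjoin
    intro x _
    exact Algebra.IsIntegral.isIntegral x
  have hcl : IsAlgClosure K Ω := ⟨inferInstance, inferInstance⟩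
  have hn : Normal K Ω := IsAlgClosure.normal K Ω
  refine ⟨normalClosure K (adjoin K (Set.range e ∪ Set.range e')) Ω, inferInstance, inferInstance, ?_, ?_⟩
  · intro i
    exact le_normalClosure _ (subset_adjoin K _ (Or.inl ⟨i, rfl⟩))
  · intro i
    exact le_normalClosure _ (subset_adjoin K _ (Or.inr ⟨i, rfl⟩))

end

end Disc

open Disc in
theorem disc (hG2 : S_G2) : S_DISC := by
  intro K Ω _ _ _ _ _ _ U hU b c d b' c' d' hb hc hd hb' hc' hd' hD hD'
  have hchar : CharZero Ω := charZero_of_injective_algebraMap (algebraMap K Ω).injective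
  obtain ⟨e, he⟩ := split3 b c d
  obtain ⟨e', he'⟩ := split3 b' c' d'
  have hs := dsc_eq b c d e he
  have hs' := dsc_eq b' c' d' e' he'
  have hinj : Function.Injective e := inj_of_dl e (by
    intro h0
    apply hD
    rw [← hs, h0]
    ring)
  have hinj' : Function.Injective e' := inj_of_dl e' (by
    intro h0
    apply hD'
    rw [← hs', h0]
    ring)
  obtain ⟨L, hLn, hLf, heL, heL'⟩ := exists_L (K := K) e e'
  have hH := hU L
  have hcomm : ∀ (u : Gal(Ω/K)) (x : L),
      ((AlgEquiv.restrictNormalHom L u x : L) : Ω) = u (x : Ω) := by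
    intro u x
    exact AlgEquiv.restrictNormal_commutes u L x
  have hperm : ∀ (E : Fin 3 → L), (∀ u ∈ U, ∀ i, ∃ j, u (E i : Ω) = (E j : Ω)) →
      ∀ h ∈ U.map (AlgEquiv.restrictNormalHom L), ∀ i, ∃ j, h (E i) = E j := by
    rintro E hE _ ⟨u, hu, rfl⟩ i
    obtain ⟨j, hj⟩ := hE u hu i
    refine ⟨j, ?_⟩
    apply Subtype.ext
    rw [hcomm]
    exact hj
  have hp := hperm (fun i => ⟨e i, heL i⟩)
    (fun u hu i => perm_roots U b c d hb hc hd e he u hu i)
  have hp' := hperm (fun i => ⟨e' i, heL' i⟩)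
    (fun u hu i => perm_roots U b' c' d' hb' hc' hd' e' he' u hu i)
  obtain ⟨f, hf⟩ := perm_hom (G := Gal(L/K)) (X := L) (U.map (AlgEquiv.restrictNormalHom L))
    (fun g x => g x) (fun x => rfl) (fun g h x => rfl) (fun i => (⟨e i, heL i⟩ : L))
    (fun i j hij => hinj (congrArg Subtype.val hij)) hp
  obtain ⟨f', hf'⟩ := perm_hom (G := Gal(L/K)) (X := L) (U.map (AlgEquiv.restrictNormalHom L))
    (fun g x => g x) (fun x => rfl) (fun g h x => rfl) (fun i => (⟨e' i, heL' i⟩ : L))
    (fun i j hij => hinj' (congrArg Subtype.val hij)) hp'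
  have hmem : ∀ u ∈ U, AlgEquiv.restrictNormalHom L u ∈ U.map (AlgEquiv.restrictNormalHom L) :=
    fun u hu => Subgroup.mem_map_of_mem _ hu
  have hfu : ∀ (u : Gal(Ω/K)) (hu : u ∈ U) (i : Fin 3),
      u (e i) = e (f ⟨AlgEquiv.restrictNormalHom L u, hmem u hu⟩ i) := by
    intro u hu i
    have h1 := congrArg Subtype.val (hf ⟨AlgEquiv.restrictNormalHom L u, hmem u hu⟩ i)
    exact (hcomm u ⟨e i, heL i⟩).symm.trans h1
  have hfu' : ∀ (u : Gal(Ω/K)) (hu : u ∈ U) (i : Fin 3),
      u (e' i) = e' (f' ⟨AlgEquiv.restrictNormalHom L u, hmem u hu⟩ i) := by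
    intro u hu i
    have h1 := congrArg Subtype.val (hf' ⟨AlgEquiv.restrictNormalHom L u, hmem u hu⟩ i)
    exact (hcomm u ⟨e' i, heL' i⟩).symm.trans h1
  have hfin : Finite Gal(L/K) := inferInstance
  rcases hG2 Gal(L/K) (U.map (AlgEquiv.restrictNormalHom L)) hH f f' with ⟨i, hi⟩ | ⟨i, hi⟩ | hsg
  · left
    refine ⟨e i, ?_, ?_⟩
    · rw [IntermediateField.mem_fixedField_iff]
      intro u hu
      rw [hfu u hu, hi]
    · rw [he]
      fin_cases i <;> simp
  · right; left
    refine ⟨e' i, ?_, ?_⟩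
    · rw [IntermediateField.mem_fixedField_iff]
      intro u hu
      rw [hfu' u hu, hi]
    · rw [he']
      fin_cases i <;> simp
  · right; right
    refine ⟨dl e * dl e', ?_, ?_⟩
    · rw [IntermediateField.mem_fixedField_iff]
      intro u hu
      have h1 : u (dl e) = dl (fun i => e (f ⟨AlgEquiv.restrictNormalHom L u, hmem u hu⟩ i)) := by
        unfold dl
        simp only [map_mul, map_sub, hfu u hu]
      have h2 : u (dl e') = dl (fun i => e' (f' ⟨AlgEquiv.restrictNormalHom L u, hmem u hu⟩ i)) := by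
        unfold dl
        simp only [map_mul, map_sub, hfu' u hu]
      rw [dl_perm] at h1 h2
      rw [map_mul, h1, h2, hsg]
      have h3 : ∀ s : ℤˣ, ((s : ℤ) : Ω) * ((s : ℤ) : Ω) = 1 := by
        intro s
        rcases Int.units_eq_one_or s with rfl | rfl <;> simp
      have h4 := h3 (Equiv.Perm.sign (f' ⟨AlgEquiv.restrictNormalHom L u, hmem u hu⟩))
      linear_combination (dl e * dl e') * h4
    · rw [mul_pow, hs, hs']

end Pool.Agent.N683.H2
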