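import Pool.Agent.N683.H2.Stm

/-!
# H2/G12: two lemmas on 2-hyperelementary permutation groups (helper279)
-/

set_option autoImplicit false

namespace Pool.Agent.N683.H2

open Pool.Agent.R433.MD (IsHyper)

namespace G12

/-- a generator of the cyclic subgroup -/
theorem gen {G : Type} [Group G] [Finite G] {H : Subgroup G} (hH : IsHyper 2 H) :
    ∃ (c : H) (n : ℕ), n.Coprime 2 ∧ c ^ n = 1 ∧ (∀ h : H, ∃ j : ℤ, h * c * h⁻¹ = c ^ j) ∧
      ∀ h : H, ∃ (k : ℕ) (j : ℤ), h ^ 2 ^ k = c ^ j := by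
  obtain ⟨C, hCH, hcyc, hcop, hnorm, hpow⟩ := hH
  obtain ⟨g, hg⟩ := hcyc.exists_generator
  have hmem : ∀ x ∈ C, ∃ j : ℤ, (g : G) ^ j = x := by
    intro x hx
    obtain ⟨j, hj⟩ := Subgroup.mem_zpowers_iff.1 (hg ⟨x, hx⟩)
    refine ⟨j, ?_⟩
    have := congrArg Subtype.val hj
    simpa using this
  refine ⟨⟨g, hCH g.2⟩, Nat.card C, hcop, ?_, ?_, ?_⟩
  · apply Subtype.ext
    have h1 : g ^ Nat.card C = 1 := pow_card_eq_one'
    change (g : G) ^ Nat.card C = 1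
    rw [← Subgroup.coe_pow, h1]
    rfl
  · intro h
    obtain ⟨j, hj⟩ := hmem _ (hnorm h h.2 g g.2)
    refine ⟨j, ?_⟩
    apply Subtype.ext
    simp [← hj]
  · intro h
    obtain ⟨k, hk⟩ := hpow h h.2
    obtain ⟨j, hj⟩ := hmem _ hk
    refine ⟨k, j, ?_⟩
    apply Subtype.ext
    simp [← hj]

theorem pow3_of {P : Type} [Group P] [Finite P] {t : P} {n m : ℕ} (hn : n.Coprime 2)
    (hc : Nat.card P = 2 ^ m * 3) (h : t ^ n = 1) : t ^ 3 = 1 := by
  have h1 : orderOf t ∣ n := orderOf_dvd_of_pow_eq_one h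
  have h2 : orderOf t ∣ 2 ^ m * 3 := by rw [← hc]; exact orderOf_dvd_natCard t
  have h3 : (orderOf t).Coprime (2 ^ m) := (Nat.Coprime.coprime_dvd_left h1 hn).pow_right m
  exact orderOf_dvd_iff_pow_eq_one.1 (h3.dvd_of_dvd_mul_left h2)

theorem card3 : Nat.card (Equiv.Perm (Fin 3)) = 2 ^ 1 * 3 := by
  rw [Nat.card_eq_fintype_card, Fintype.card_perm, Fintype.card_fin]
  rfl

theorem card4 : Nat.card (Equiv.Perm (Fin 4)) = 2 ^ 3 * 3 := by
  rw [Nat.card_eq_fintype_card, Fintype.card_perm, Fintype.card_fin]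
  rfl

theorem pgroup {H P : Type} [Group H] [Group P] (f : H →* P) {c : H}
    (hpow : ∀ h : H, ∃ (k : ℕ) (j : ℤ), h ^ 2 ^ k = c ^ j) (hc : f c = 1) :
    IsPGroup 2 f.range := by
  rintro ⟨_, h, rfl⟩
  obtain ⟨k, j, hk⟩ := hpow h
  refine ⟨k, ?_⟩
  apply Subtype.ext
  change (f h) ^ 2 ^ k = 1
  rw [← map_pow, hk, map_zpow, hc, one_zpow]

theorem fix3 {H : Type} [Group H] (f : H →* Equiv.Perm (Fin 3)) {c : H}
    (hpow : ∀ h : H, ∃ (k : ℕ) (j : ℤ), h ^ 2 ^ k = c ^ j) (hc : f c = 1) :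
    ∃ i, ∀ h, f h i = i := by
  obtain ⟨i, hi⟩ := (pgroup f hpow hc).nonempty_fixed_point_of_prime_not_dvd_card (Fin 3)
    (by rw [Nat.card_eq_fintype_card, Fintype.card_fin]; decide)
  refine ⟨i, fun h => ?_⟩
  exact hi ⟨f h, h, rfl⟩

theorem sgn (x t : Equiv.Perm (Fin 3)) (ht : t ^ 3 = 1) (h1 : t ≠ 1) (j : ℤ)
    (h : x * t * x⁻¹ = t ^ j) : Equiv.Perm.sign x = if j % 3 = 1 then 1 else -1 := by
  have hj : t ^ j = t ^ (j % 3) := by
    have h3 : t ^ (3 : ℤ) = 1 := by exact_mod_cast ht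
    conv_lhs => rw [← Int.mul_ediv_add_emod j 3, zpow_add, zpow_mul, h3, one_zpow, one_mul]
  rw [hj] at h
  have h0 : 0 ≤ j % 3 := Int.emod_nonneg _ (by norm_num)
  have h3 : j % 3 < 3 := Int.emod_lt_of_pos _ (by norm_num)
  have hcases : j % 3 = 0 ∨ j % 3 = 1 ∨ j % 3 = 2 := by omega
  have key0 : ∀ x t : Equiv.Perm (Fin 3), t ^ 3 = 1 → t ≠ 1 → x * t * x⁻¹ ≠ 1 := by decide
  have key1 : ∀ x t : Equiv.Perm (Fin 3), t ^ 3 = 1 → t ≠ 1 → x * t * x⁻¹ = t →
      Equiv.Perm.sign x = 1 := by decide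
  have key2 : ∀ x t : Equiv.Perm (Fin 3), t ^ 3 = 1 → t ≠ 1 → x * t * x⁻¹ = t * t →
      Equiv.Perm.sign x = -1 := by decide
  have k0 := key0 x t ht h1
  have k1 := key1 x t ht h1
  have k2 := key2 x t ht h1
  rcases hcases with h4 | h4 | h4
  · rw [h4, zpow_zero] at h
    exact absurd h k0
  · rw [h4] at h ⊢
    rw [if_pos rfl]
    exact k1 (by rw [h, zpow_one])
  · rw [h4] at h ⊢
    rw [if_neg (by norm_num)]
    refine k2 ?_
    rw [h]
    exact zpow_two t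

/-- the fixed point free involutions -/
def KK : Type := {v : Equiv.Perm (Fin 4) // v * v = 1 ∧ ∀ i, v i ≠ i}

instance : Fintype KK := inferInstanceAs (Fintype {v : Equiv.Perm (Fin 4) // v * v = 1 ∧ ∀ i, v i ≠ i})

theorem card_KK : Fintype.card KK = 3 := by decide

instance : MulAction (Equiv.Perm (Fin 4)) KK where
  smul x v := ⟨x * v.1 * x⁻¹, by
    have h1 := v.2.1
    calc x * v.1 * x⁻¹ * (x * v.1 * x⁻¹) = x * (v.1 * v.1) * x⁻¹ := by group
      _ = 1 := by rw [h1]; group, by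
    intro i hi
    refine v.2.2 (x⁻¹ i) ?_
    have h2 : x (v.1 (x⁻¹ i)) = i := hi
    have h3 := congrArg x.symm h2
    rw [Equiv.symm_apply_apply] at h3
    exact h3⟩
  one_smul v := by
    apply Subtype.ext
    change 1 * v.1 * 1⁻¹ = v.1
    group
  mul_smul x y v := by
    apply Subtype.ext
    change (x * y) * v.1 * (x * y)⁻¹ = x * (y * v.1 * y⁻¹) * x⁻¹
    group

theorem uniq : ∀ t : Equiv.Perm (Fin 4), t ^ 3 = 1 → t ≠ 1 →
    ∃ i, t i = i ∧ ∀ j, t j = j → j = i := by decide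

theorem sig : ∀ v : Equiv.Perm (Fin 4), v * v = 1 → (∀ i, v i ≠ i) →
    ∃ σ : Equiv.Perm (Fin 4), σ 1 = v (σ 0) ∧ σ 3 = v (σ 2) := by decide

end G12

open G12

theorem g2 : S_G2 := by
  intro G _ _ H hH f f'
  obtain ⟨c, n, hn, hcn, hconj, hpow⟩ := gen hH
  have h3 : f c ^ 3 = 1 := pow3_of hn card3 (by rw [← map_pow, hcn, map_one])
  have h3' : f' c ^ 3 = 1 := pow3_of hn card3 (by rw [← map_pow, hcn, map_one])
  by_cases h1 : f c = 1
  · exact Or.inl (fix3 f hpow h1)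
  by_cases h1' : f' c = 1
  · exact Or.inr (Or.inl (fix3 f' hpow h1'))
  refine Or.inr (Or.inr fun h => ?_)
  obtain ⟨j, hj⟩ := hconj h
  rw [sgn (f h) (f c) h3 h1 j (by rw [← map_inv, ← map_mul, ← map_mul, hj, map_zpow]),
    sgn (f' h) (f' c) h3' h1' j (by rw [← map_inv, ← map_mul, ← map_mul, hj, map_zpow])]

theorem g1 : S_G1 := by
  intro G _ _ H hH f
  obtain ⟨c, n, hn, hcn, hconj, hpow⟩ := gen hH
  have h3 : f c ^ 3 = 1 := pow3_of hn card4 (by rw [← map_pow, hcn, map_one])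
  by_cases h1 : f c = 1
  · right
    obtain ⟨v, hv⟩ := (pgroup f hpow h1).nonempty_fixed_point_of_prime_not_dvd_card KK
      (by rw [Nat.card_eq_fintype_card, card_KK]; decide)
    have hcomm : ∀ h i, f h (v.1 i) = v.1 (f h i) := by
      intro h i
      have h2 : f h * v.1 * (f h)⁻¹ = v.1 := congrArg Subtype.val (hv ⟨f h, h, rfl⟩)
      have h4 : f h * v.1 = v.1 * f h := by
        calc f h * v.1 = f h * v.1 * (f h)⁻¹ * f h := by group
          _ = v.1 * f h := by rw [h2]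
      exact congrArg (fun g : Equiv.Perm (Fin 4) => g i) h4
    obtain ⟨σ, hσ1, hσ3⟩ := sig v.1 v.2.1 v.2.2
    have hvv : ∀ i, v.1 (v.1 i) = i := fun i =>
      congrArg (fun g : Equiv.Perm (Fin 4) => g i) v.2.1
    refine ⟨σ, fun h => ?_⟩
    obtain ⟨i, hi⟩ := σ.surjective (f h (σ 0))
    rw [hσ1, hcomm, ← hi]
    fin_cases i
    · left; rfl
    · left
      change ({σ 1, v.1 (σ 1)} : Set (Fin 4)) = {σ 0, v.1 (σ 0)}
      rw [hσ1, hvv, Set.pair_comm]
    · right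
      change ({σ 2, v.1 (σ 2)} : Set (Fin 4)) = {σ 2, σ 3}
      rw [hσ3]
    · right
      change ({σ 3, v.1 (σ 3)} : Set (Fin 4)) = {σ 2, σ 3}
      rw [hσ3, hvv, Set.pair_comm]
  · left
    obtain ⟨i, hi, hiu⟩ := uniq (f c) h3 h1
    refine ⟨i, fun h => hiu _ ?_⟩
    obtain ⟨j, hj⟩ := hconj h⁻¹
    have h2 : f c * f h = f h * (f c) ^ j := by
      have h4 : c * h = h * c ^ j := by
        rw [← hj]; group
      rw [← map_mul, h4, map_mul, map_zpow]
    have h5 : f c (f h i) = f h (((f c) ^ j) i) :=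
      congrArg (fun g : Equiv.Perm (Fin 4) => g i) h2
    rw [h5]
    congr 1
    have h6 : ∀ m : ℕ, ((f c) ^ m) i = i := by
      intro m
      induction m with
      | zero => rfl
      | succ m ih => rw [pow_succ, Equiv.Perm.mul_apply, hi, ih]
    rcases Int.eq_nat_or_neg j with ⟨m, rfl | rfl⟩
    · rw [zpow_natCast]; exact h6 m
    · rw [zpow_neg, zpow_natCast, Equiv.Perm.inv_eq_iff_eq]
      exact (h6 m).symm

end Pool.Agent.N683.H2
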