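import Pool.Agent.Y718.TorFree

/-!
# The norm of the abscissa of `n T` near the origin

For a point `T = (x, y)` of a short integral Weierstrass equation with `p < ‖x‖`
the abscissa of `n T` has norm `‖x‖ / ‖n‖ ^ 2` for every `n > 0`.
-/

set_option autoImplicit false

open WeierstrassCurve Pool.Agent.TH954

namespace Pool.Agent.N683.H2

/-- one step: if `‖l‖` is not too small -/
theorem log_step {L : Type} [NormedField L] [IsUltrametricDist L] [DecidableEq L]
    {W : WeierstrassCurve L} (hW : SI W) (h2 : (2 : L) ≠ 0) {P : ℝ} (hP : 1 < P)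
    {x y : L} (h : W.toAffine.Nonsingular x y) (hx : P < ‖x‖) {l : ℕ}
    (hl : P⁻¹ ≤ ‖(l : L)‖) :
    ∃ (x' y' : L) (h' : W.toAffine.Nonsingular x' y'),
      l • (WeierstrassCurve.Affine.Point.some x y h) =
        WeierstrassCurve.Affine.Point.some x' y' h' ∧ ‖x'‖ * ‖(l : L)‖ ^ 2 = ‖x‖ := by
  have hx1 : 1 < ‖x‖ := hP.trans hx
  have hx0 : 0 < ‖x‖ := by linarith
  have hB : Big ‖x‖ (Affine.Point.some x y h) := big_some.mpr le_rfl
  have hz := hW.norm_z h hx1
  have hD := Pool.Agent.Y718.zp_nsmul hW h2 hx1 hB l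
  have hBl := hW.big_nsmul h2 hx1 hB l
  have hP0 : 0 < P := by linarith
  have hl1 : 1 ≤ ‖(l : L)‖ * P := by
    have := mul_le_mul_of_nonneg_right hl hP0.le
    rwa [inv_mul_cancel₀ hP0.ne'] at this
  have hl0 : 0 < ‖(l : L)‖ := by
    rcases (norm_nonneg (l : L)).lt_or_eq with h0 | h0
    · exact h0
    · rw [← h0] at hl1; linarith
  have hlx : 1 < ‖(l : L)‖ * ‖x‖ := hl1.trans_lt (mul_lt_mul_of_pos_left hx hl0)
  have hzp : Pool.Agent.Y718.zp (Affine.Point.some x y h) = x / y := rfl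
  rw [hzp] at hD
  have hlt : ‖Pool.Agent.Y718.zp (l • Affine.Point.some x y h) - (l : L) * (x / y)‖ <
      ‖(l : L) * (x / y)‖ := by
    have h1 : ‖(l : L) * (x / y)‖ ^ 2 * ‖x‖ ^ 3 = (‖(l : L)‖ * ‖x‖) ^ 2 := by
      rw [norm_mul]
      calc (‖(l : L)‖ * ‖x / y‖) ^ 2 * ‖x‖ ^ 3
          = ‖(l : L)‖ ^ 2 * (‖x / y‖ ^ 2 * ‖x‖) * ‖x‖ ^ 2 := by ring
        _ = _ := by rw [hz]; ring
    have h3 : 1 < (‖(l : L)‖ * ‖x‖) ^ 2 := by nlinarith
    have h4 : ‖Pool.Agent.Y718.zp (l • Affine.Point.some x y h) - (l : L) * (x / y)‖ ^ 2 * ‖x‖ ^ 3 <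
        ‖(l : L) * (x / y)‖ ^ 2 * ‖x‖ ^ 3 := by
      rw [h1]; exact hD.trans_lt h3
    have h5 := lt_of_mul_lt_mul_right h4 (by positivity)
    exact lt_of_pow_lt_pow_left₀ 2 (norm_nonneg _) h5
  have heq : ‖Pool.Agent.Y718.zp (l • Affine.Point.some x y h)‖ = ‖(l : L) * (x / y)‖ := by
    have h6 : Pool.Agent.Y718.zp (l • Affine.Point.some x y h) =
        (l : L) * (x / y) +
          (Pool.Agent.Y718.zp (l • Affine.Point.some x y h) - (l : L) * (x / y)) := by ring
    rw [h6]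
    rw [IsUltrametricDist.norm_add_eq_max_of_norm_ne_norm hlt.ne', max_eq_left hlt.le]
  have hpos : 0 < ‖(l : L) * (x / y)‖ := (norm_nonneg _).trans_lt hlt
  generalize l • Affine.Point.some x y h = T at hBl heq
  match T with
  | .zero =>
    exfalso
    have : Pool.Agent.Y718.zp (Affine.Point.zero : W.toAffine.Point) = 0 := rfl
    rw [this, norm_zero] at heq
    linarith
  | .some x' y' h' =>
    refine ⟨x', y', h', rfl, ?_⟩
    have hb := big_some.mp hBl
    have hz' := hW.norm_z h' (hx1.trans_le hb)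
    have hzp' : Pool.Agent.Y718.zp (Affine.Point.some x' y' h') = x' / y' := rfl
    rw [hzp', norm_mul] at heq
    rw [heq] at hz'
    have hzz : 0 < ‖x / y‖ ^ 2 := by
      by_contra hc
      have : ‖x / y‖ ^ 2 = 0 := le_antisymm (not_lt.mp hc) (by positivity)
      rw [this] at hz
      simp at hz
    have : ‖x / y‖ ^ 2 * (‖x'‖ * ‖(l : L)‖ ^ 2) = ‖x / y‖ ^ 2 * ‖x‖ := by
      rw [hz, ← hz']; ring
    exact mul_left_cancel₀ hzz.ne' this

theorem log_norm {L : Type} [NormedField L] [IsUltrametricDist L] [DecidableEq L]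
    {W : WeierstrassCurve L} (hW : Pool.Agent.TH954.SI W) {p : ℕ} (hp : p.Prime) (hp2 : p ≠ 2)
    (hnp : ‖(p : L)‖ = (p : ℝ)⁻¹) (hnl : ∀ l : ℕ, l.Prime → l ≠ p → ‖(l : L)‖ = 1) {x y : L}
    (h : W.toAffine.Nonsingular x y) (hx : (p : ℝ) < ‖x‖) {n : ℕ} (hn : 0 < n) :
    ∃ (x' y' : L) (h' : W.toAffine.Nonsingular x' y'),
      n • (WeierstrassCurve.Affine.Point.some x y h) =
        WeierstrassCurve.Affine.Point.some x' y' h' ∧ ‖x'‖ * ‖(n : L)‖ ^ 2 = ‖x‖ := by
  have h2 : (2 : L) ≠ 0 := by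
    have := hnl 2 Nat.prime_two (Ne.symm hp2)
    intro h0
    rw [Nat.cast_ofNat, h0, norm_zero] at this
    exact zero_ne_one this
  have hp1 : (1 : ℝ) < p := by exact_mod_cast hp.one_lt
  have hle : ∀ m : ℕ, ‖(m : L)‖ ≤ 1 := fun m => IsUltrametricDist.norm_natCast_le_one L m
  induction n using Nat.strong_induction_on generalizing x y with
  | _ n ih =>
    by_cases h1 : n = 1
    · subst h1
      exact ⟨x, y, h, one_smul _ _, by simp⟩
    · obtain ⟨l, hl, hln⟩ := Nat.exists_prime_and_dvd h1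
      obtain ⟨k, rfl⟩ := hln
      have hk : 0 < k := Nat.pos_of_mul_pos_left hn |> fun _ => by
        rcases Nat.eq_zero_or_pos k with h0 | h0
        · subst h0; simp at hn
        · exact h0
      have hkl : k < l * k := by
        have := hl.two_le
        nlinarith
      have hll : (p : ℝ)⁻¹ ≤ ‖(l : L)‖ := by
        by_cases hlp : l = p
        · subst hlp; exact hnp.ge
        · rw [hnl l hl hlp]
          exact inv_le_one_of_one_le₀ hp1.le
      obtain ⟨x1, y1, n1, e1, f1⟩ := log_step hW h2 hp1 h hx hll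
      have hx1 : (p : ℝ) < ‖x1‖ := by
        refine hx.trans_le ?_
        rw [← f1]
        have : ‖(l : L)‖ ^ 2 ≤ 1 := pow_le_one₀ (norm_nonneg _) (hle l)
        nlinarith [norm_nonneg x1]
      obtain ⟨x2, y2, n2, e2, f2⟩ := ih k hkl n1 hx1 hk
      refine ⟨x2, y2, n2, ?_, ?_⟩
      · rw [mul_comm l k, mul_smul, e1, e2]
      · rw [← f1, ← f2, Nat.cast_mul, norm_mul]; ring

end Pool.Agent.N683.H2
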