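import Pool.Agent.N683.H2.Stm
import Pool.Agent.N683.H2.Log
import Pool.Agent.N530.LS.A2
import Pool.Agent.N683.HR.SQ

/-!
# Project H2, task IND (helper56): p-adic choice of the parameter
-/

set_option autoImplicit false

namespace Pool.Agent.N683.H2

open IntermediateField WeierstrassCurve Polynomial
open Pool.Agent.N683.HR (crv cub HasPts)
open Pool.Agent.TH954

/-- the statement of `log_norm` (task LOG) -/
def LogStm : Prop :=
  ∀ (L : Type) [NormedField L] [IsUltrametricDist L] [DecidableEq L] (W : WeierstrassCurve L),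
    SI W → ∀ p : ℕ, p.Prime → p ≠ 2 → ‖(p : L)‖ = (p : ℝ)⁻¹ →
    (∀ l : ℕ, l.Prime → l ≠ p → ‖(l : L)‖ = 1) → ∀ (x y : L) (h : W.toAffine.Nonsingular x y),
    (p : ℝ) < ‖x‖ → ∀ n : ℕ, 0 < n → ∃ (x' y' : L) (h' : W.toAffine.Nonsingular x' y'),
      n • (Affine.Point.some x y h) = Affine.Point.some x' y' h' ∧ ‖x'‖ * ‖(n : L)‖ ^ 2 = ‖x‖

theorem pt_core (hlog : LogStm) {K Ω C : Type} [Field K] [Field Ω] [Algebra K Ω] [DecidableEq Ω]
    [NormedField C] [IsUltrametricDist C] [DecidableEq C] [Algebra K C] (f : Ω →ₐ[K] C) {A B : K}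
    (hA : ‖algebraMap K C A‖ ≤ 1) (hB : ‖algebraMap K C B‖ ≤ 1) {p : ℕ} (hp : p.Prime)
    (hp2 : p ≠ 2) (hnp : ‖(p : C)‖ = (p : ℝ)⁻¹) (hnl : ∀ l : ℕ, l.Prime → l ≠ p → ‖(l : C)‖ = 1)
    (L : IntermediateField K Ω) (hL : ∀ a ∈ L, a ≠ 0 → ∃ j : ℤ, ‖f a‖ = (p : ℝ) ^ j)
    (hnat : ∀ m : ℕ, 0 < m → ∃ i : ℤ, ‖(m : C)‖ = (p : ℝ) ^ i)
    {v : ℤ} (hv : 2 ≤ v) (hv3 : ¬ (3 : ℤ) ∣ v) {x y : Ω} (hx : ‖f x‖ ^ 3 = (p : ℝ) ^ (2 * v))
    (h : ((crv A B).baseChange Ω).toAffine.Nonsingular x y) {m : ℕ} (hm : 0 < m) :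
    m • (Affine.Point.some x y h) ∉ (Affine.Point.map (W' := crv A B) L.val).range := by
  rintro ⟨Q, hQ⟩
  have hp1 : (1 : ℝ) < p := by exact_mod_cast hp.one_lt
  have hp0 : (0 : ℝ) < p := by linarith
  have hxp : (p : ℝ) < ‖f x‖ := by
    have h1 : (p : ℝ) ^ 3 < ‖f x‖ ^ 3 := by
      rw [hx]
      calc (p : ℝ) ^ 3 = (p : ℝ) ^ (3 : ℤ) := by norm_cast
        _ < (p : ℝ) ^ (2 * v) := zpow_lt_zpow_right₀ hp1 (by omega)
    exact lt_of_pow_lt_pow_left₀ 3 (norm_nonneg _) h1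
  have h' : ((crv A B).baseChange C).toAffine.Nonsingular (f x) (f y) :=
    (Affine.baseChange_nonsingular (crv A B).toAffine f.injective ..).mpr h
  have hmap : Affine.Point.map (W' := crv A B) f (Affine.Point.some x y h) =
      Affine.Point.some (f x) (f y) h' := rfl
  have hSI : SI ((crv A B).baseChange C) :=
    { h1 := by simp [crv, WeierstrassCurve.baseChange, WeierstrassCurve.map]
      h2 := by simp [crv, WeierstrassCurve.baseChange, WeierstrassCurve.map]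
      h3 := by simp [crv, WeierstrassCurve.baseChange, WeierstrassCurve.map]
      ha := hA
      hb := hB }
  obtain ⟨x', y', h'', he, hn⟩ := hlog C _ hSI p hp hp2 hnp hnl (f x) (f y) h' hxp m hm
  have h3 : Affine.Point.map (W' := crv A B) f (m • (Affine.Point.some x y h)) =
      Affine.Point.some x' y' h'' := by rw [map_nsmul, hmap, he]
  rw [← hQ] at h3
  match Q with
  | .zero =>
    have h4 : (0 : ((crv A B).baseChange C).toAffine.Point) = Affine.Point.some x' y' h'' := h3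
    exact Affine.Point.some_ne_zero h'' h4.symm
  | .some a b hab =>
    have h4 : ∃ hh, Affine.Point.some (f (a : Ω)) (f (b : Ω)) hh = Affine.Point.some x' y' h'' :=
      ⟨_, h3⟩
    obtain ⟨hh, h5⟩ := h4
    rw [Affine.Point.some.injEq] at h5
    rw [← h5.1] at hn
    have ha0 : (a : Ω) ≠ 0 := by
      intro h0
      rw [h0, map_zero, norm_zero, zero_mul] at hn
      linarith
    obtain ⟨j, hj⟩ := hL a a.2 ha0
    obtain ⟨i, hi⟩ := hnat m hm
    have h6 : (p : ℝ) ^ (3 * (j + 2 * i)) = (p : ℝ) ^ (2 * v) := by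
      rw [← hx, ← hn, hj, hi, mul_comm 3, zpow_mul, zpow_add₀ hp0.ne', mul_comm 2, zpow_mul]
      norm_cast
    have h7 := zpow_right_injective₀ hp0 hp1.ne' h6
    apply hv3
    omega

theorem line_norm {C : Type} [NormedField C] [IsUltrametricDist C] {a b X Y t n : C} (ha : ‖a‖ ≤ 1)
    (hb : ‖b‖ ≤ 1) (ht : ‖t‖ ≤ 1) (hn : 1 < ‖n‖) (hY : Y = t * X + n)
    (he : Y ^ 2 = X ^ 3 + a * X + b) : ‖X‖ ^ 3 = ‖n‖ ^ 2 := by
  have hbig : 1 < ‖X‖ → ‖X ^ 3 + a * X + b‖ = ‖X‖ ^ 3 := by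
    intro hX
    have h1 : ‖X‖ < ‖X‖ ^ 3 := by
      nlinarith [mul_pos (by linarith : (0:ℝ) < ‖X‖) (by nlinarith : (0:ℝ) < ‖X‖ ^ 2 - 1)]
    have h4 : ‖a * X + b‖ < ‖X ^ 3‖ := by
      rw [norm_pow]
      exact uadd_lt ((umul ha le_rfl).trans_lt h1) (hb.trans_lt (hX.trans h1))
    rw [add_assoc, uadd_eq h4, norm_pow]
  have htX : ‖t * X‖ ≤ ‖X‖ := umul ht le_rfl
  rcases lt_or_ge ‖X‖ ‖n‖ with h | h
  · have h1 : ‖Y‖ = ‖n‖ := by
      rw [hY, add_comm, uadd_eq (htX.trans_lt h)]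
    have h2 : ‖X ^ 3 + a * X + b‖ = ‖n‖ ^ 2 := by rw [← he, norm_pow, h1]
    rcases le_or_gt ‖X‖ 1 with h3 | h3
    · exfalso
      have h4 : ‖X ^ 3 + a * X + b‖ ≤ 1 := by
        refine uadd (uadd ?_ (umul ha h3)) hb
        rw [norm_pow]
        exact pow_le_one₀ (norm_nonneg _) h3
      rw [h2] at h4
      nlinarith
    · rw [← hbig h3, h2]
  · exfalso
    have h1 : ‖Y‖ ≤ ‖X‖ := by rw [hY]; exact uadd htX h
    have hX1 : 1 < ‖X‖ := hn.trans_le h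
    have h2 : ‖X‖ ^ 3 ≤ ‖X‖ ^ 2 := by
      rw [← hbig hX1, ← he, norm_pow]
      exact pow_le_pow_left₀ (norm_nonneg _) h1 2
    nlinarith [mul_pos (mul_pos (by linarith : (0:ℝ) < ‖X‖) (by linarith : (0:ℝ) < ‖X‖))
      (by linarith : (0:ℝ) < ‖X‖ - 1)]

open Filter Topology in
theorem approx {C : Type} [NormedField C] [IsUltrametricDist C] {T₁ T₂ N W : C[X]} {s₀ t₀ : C}
    (h2 : T₂.eval s₀ ≠ 0) (h1 : T₁.eval s₀ = t₀ * T₂.eval s₀)
    (hd : (derivative T₁).eval s₀ - t₀ * (derivative T₂).eval s₀ ≠ 0)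
    (hW : W.eval t₀ = 0) (hW' : (derivative W).eval t₀ ≠ 0) (hN : N.eval t₀ ≠ 0) :
    ∃ δ : ℝ, 0 < δ ∧ ∀ s : C, ‖s - s₀‖ < δ → s ≠ s₀ → T₂.eval s ≠ 0 ∧
      ‖T₁.eval s / T₂.eval s - t₀‖ ≤ 1 ∧ W.eval (T₁.eval s / T₂.eval s) ≠ 0 ∧
      ‖N.eval (T₁.eval s / T₂.eval s) / W.eval (T₁.eval s / T₂.eval s)‖ =
        ‖N.eval t₀‖ * ‖T₂.eval s₀‖ / (‖(derivative T₁).eval s₀ - t₀ * (derivative T₂).eval s₀‖ *
          ‖(derivative W).eval t₀‖) / ‖s - s₀‖ := by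
  -- local constancy of the norm
  have hloc : ∀ (g : C → C), ContinuousAt g s₀ → g s₀ ≠ 0 → ∀ᶠ s in 𝓝 s₀, ‖g s‖ = ‖g s₀‖ := by
    intro g hg hg0
    rw [Metric.continuousAt_iff] at hg
    obtain ⟨δ, hδ, h⟩ := hg ‖g s₀‖ (norm_pos_iff.2 hg0)
    rw [Metric.eventually_nhds_iff]
    refine ⟨δ, hδ, fun s hs => ?_⟩
    have h3 := h hs
    rw [dist_eq_norm] at h3
    have e : g s = g s₀ + (g s - g s₀) := by ring
    rw [e, uadd_eq h3]
  have hrT : (T₁ - Polynomial.C t₀ * T₂).IsRoot s₀ := by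
    simp [h1]
  obtain ⟨G, hG⟩ := dvd_iff_isRoot.mpr hrT
  obtain ⟨W₁, hW₁⟩ := dvd_iff_isRoot.mpr (show W.IsRoot t₀ from hW)
  have hGv : G.eval s₀ = (derivative T₁).eval s₀ - t₀ * (derivative T₂).eval s₀ := by
    have h3 : (derivative (T₁ - Polynomial.C t₀ * T₂)).eval s₀ = G.eval s₀ := by
      rw [hG, derivative_mul]
      simp
    rw [← h3]
    simp
  have hWv : W₁.eval t₀ = (derivative W).eval t₀ := by
    rw [hW₁, derivative_mul]
    simp
  have hcT : ∀ P : C[X], ContinuousAt (fun s => P.eval s) s₀ := fun P => P.continuous.continuousAt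
  have hct : ContinuousAt (fun s => T₁.eval s / T₂.eval s) s₀ := (hcT T₁).div (hcT T₂) h2
  have ht0 : T₁.eval s₀ / T₂.eval s₀ = t₀ := by rw [h1]; field_simp
  have hcP : ∀ P : C[X], ContinuousAt (fun s => P.eval (T₁.eval s / T₂.eval s)) s₀ := by
    intro P
    exact ContinuousAt.comp (g := fun t => P.eval t) P.continuous.continuousAt hct
  have e1 := hloc (fun s => T₂.eval s) (hcT T₂) h2
  have e2 := hloc (fun s => G.eval s) (hcT G) (by rw [hGv]; exact hd)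
  have e3 := hloc (fun s => W₁.eval (T₁.eval s / T₂.eval s)) (hcP W₁) (by
    simp only [ht0]; rw [hWv]; exact hW')
  have e4 := hloc (fun s => N.eval (T₁.eval s / T₂.eval s)) (hcP N) (by
    simp only [ht0]; exact hN)
  have e5 : ∀ᶠ s in 𝓝 s₀, ‖T₁.eval s / T₂.eval s - t₀‖ ≤ 1 := by
    rw [Metric.continuousAt_iff] at hct
    obtain ⟨δ, hδ, h⟩ := hct 1 one_pos
    rw [Metric.eventually_nhds_iff]
    refine ⟨δ, hδ, fun s hs => ?_⟩
    have h3 := h hs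
    rw [dist_eq_norm, ht0] at h3
    exact h3.le
  have hall := e1.and (e2.and (e3.and (e4.and e5)))
  rw [Metric.eventually_nhds_iff] at hall
  obtain ⟨δ, hδ, h⟩ := hall
  refine ⟨δ, hδ, fun s hs hne => ?_⟩
  obtain ⟨f1, f2, f3, f4, f5⟩ := h (by rw [dist_eq_norm]; exact hs)
  have hT2 : T₂.eval s ≠ 0 := by
    rw [← norm_pos_iff, f1, norm_pos_iff]; exact h2
  have hdiff : T₁.eval s / T₂.eval s - t₀ = (s - s₀) * G.eval s / T₂.eval s := by
    have h3 : (T₁ - Polynomial.C t₀ * T₂).eval s = (s - s₀) * G.eval s := by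
      rw [hG]; simp
    rw [eval_sub, eval_mul, eval_C] at h3
    rw [← h3]
    field_simp
  have hWs : W.eval (T₁.eval s / T₂.eval s) = (s - s₀) * G.eval s / T₂.eval s *
      W₁.eval (T₁.eval s / T₂.eval s) := by
    conv_lhs => rw [hW₁]
    rw [eval_mul, eval_sub, eval_X, eval_C, hdiff]
  have hWn : ‖W.eval (T₁.eval s / T₂.eval s)‖ = ‖s - s₀‖ *
      ‖(derivative T₁).eval s₀ - t₀ * (derivative T₂).eval s₀‖ / ‖T₂.eval s₀‖ *
        ‖(derivative W).eval t₀‖ := by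
    rw [hWs, norm_mul, norm_div, norm_mul, f1, f2, f3, hGv, ht0, hWv]
  have hs0 : 0 < ‖s - s₀‖ := norm_pos_iff.2 (sub_ne_zero.2 hne)
  have hp1 : 0 < ‖(derivative T₁).eval s₀ - t₀ * (derivative T₂).eval s₀‖ := norm_pos_iff.2 hd
  have hp2 : 0 < ‖T₂.eval s₀‖ := norm_pos_iff.2 h2
  have hp3 : 0 < ‖(derivative W).eval t₀‖ := norm_pos_iff.2 hW'
  refine ⟨hT2, f5, ?_, ?_⟩
  · rw [← norm_pos_iff, hWn]
    positivity
  · rw [norm_div, hWn, f4, ht0]
    field_simp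

/-- the embedding -/
theorem emb {Ω : Type} [Field Ω] [CharZero Ω] [Algebra.IsAlgebraic ℚ Ω] (S : Finset Ω) :
    ∃ (p : ℕ) (_ : Fact p.Prime) (M : Subfield Ω) (τ : M →+* ℚ_[p]) (ψ : Ω →+* PadicAlgCl p),
      3 < p ∧ (∀ x : M, ψ (x : Ω) = algebraMap ℚ_[p] (PadicAlgCl p) (τ x)) ∧ (∀ x ∈ S, x ∈ M) ∧
      ∀ x ∈ S, ‖ψ x‖ ≤ 1 := by
  classical
  let φ : Ω →+* ℂ := (IsAlgClosed.lift : Ω →ₐ[ℚ] ℂ).toRingHom
  obtain ⟨p, hp, hp3, σ, hσ⟩ := Pool.Agent.N530.LS.cassels_int (S.image φ) 3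
  let M : Subfield Ω := (Subfield.closure ((S.image φ : Finset ℂ) : Set ℂ)).comap φ
  let τ : M →+* ℚ_[p] := σ.comp ((φ.comp M.subtype).codRestrict
    (Subfield.closure ((S.image φ : Finset ℂ) : Set ℂ)) (fun x => x.2))
  let alg : Algebra M (PadicAlgCl p) := ((algebraMap ℚ_[p] (PadicAlgCl p)).comp τ).toAlgebra
  have : IsScalarTower ℚ M Ω := IsScalarTower.of_algebraMap_eq fun x => by simp
  have : Algebra.IsAlgebraic M Ω := Algebra.IsAlgebraic.tower_top (K := ℚ) M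
  let ψ : Ω →ₐ[M] PadicAlgCl p := IsAlgClosed.lift
  have hSM : ∀ x ∈ S, x ∈ M := by
    intro x hx
    exact Subfield.subset_closure (Finset.mem_coe.2 (Finset.mem_image_of_mem φ hx))
  have hψ : ∀ x : M, ψ (x : Ω) = algebraMap ℚ_[p] (PadicAlgCl p) (τ x) := fun x => ψ.commutes x
  refine ⟨p, hp, M, τ, ψ.toRingHom, hp3, hψ, hSM, ?_⟩
  intro x hx
  have h1 := hψ ⟨x, hSM x hx⟩
  have h2 : ψ.toRingHom x = algebraMap ℚ_[p] (PadicAlgCl p) (τ ⟨x, hSM x hx⟩) := h1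
  rw [h2, norm_algebraMap']
  exact hσ ⟨φ x, hSM x hx⟩ (Finset.mem_image_of_mem φ hx)

theorem logStm : LogStm := fun L _ _ _ W hW p hp hp2 hnp hnl x y h hx n hn =>
  log_norm hW hp hp2 hnp hnl h hx hn

/-- **Task IND.** -/
theorem ind : S_IND := by
  classical
  have hlog : LogStm := logStm
  intro K Ω _ _ _ _ _ _ hdec A B hAB L hfd T₁ T₂ N W s₀ t₀ hT2 hT1 hd hW hW' hN T hT
  have : CharZero Ω := charZero_of_injective_algebraMap (algebraMap K Ω).injective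
  have : IsScalarTower ℚ K Ω := IsScalarTower.of_algebraMap_eq fun x => by simp
  have : Algebra.IsAlgebraic ℚ Ω := Algebra.IsAlgebraic.trans ℚ K Ω
  have : NumberField L := NumberField.of_module_finite K L
  set b := Module.finBasis ℚ L with hb
  set D : Ω := (derivative T₁).eval s₀ - t₀ * (derivative T₂).eval s₀ with hDdef
  have hD0 : D ≠ 0 := by
    intro h0
    apply hd
    have : (derivative T₁).eval s₀ * T₂.eval s₀ - T₁.eval s₀ * (derivative T₂).eval s₀ =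
        T₂.eval s₀ * D := by rw [hDdef, hT1]; ring
    rw [this, h0, mul_zero]
  obtain ⟨p, hpF, M, τ, ψ, hp3, hψ, hSM, hS1⟩ := emb
    ((Finset.univ.image fun i => ((b i : L) : Ω)) ∪ {algebraMap K Ω A, algebraMap K Ω B, s₀, t₀,
      N.eval t₀, T₂.eval s₀, (derivative W).eval t₀, D} : Finset Ω)
  have hp := hpF.out
  have hp1 : (1 : ℝ) < p := by exact_mod_cast hp.one_lt
  have hp0 : (0 : ℝ) < p := by linarith
  have hLM : ∀ x ∈ L, x ∈ M := by
    intro x hx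
    have h1 : x = (((∑ i, b.repr ⟨x, hx⟩ i • b i : L)) : Ω) := by rw [b.sum_repr]
    rw [h1, IntermediateField.coe_sum]
    refine Subfield.sum_mem _ fun i _ => ?_
    have h2 : ((b.repr ⟨x, hx⟩ i • b i : L) : Ω) = ((b.repr ⟨x, hx⟩ i : ℚ) : Ω) * ((b i : L) : Ω) := by
      rw [Algebra.smul_def]
      simp
    rw [h2]
    refine Subfield.mul_mem _ (SubfieldClass.ratCast_mem _ _) (hSM _ ?_)
    exact Finset.mem_union_left _ (Finset.mem_image_of_mem _ (Finset.mem_univ i))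
  have hpow : ∀ x ∈ M, x ≠ 0 → ∃ j : ℤ, ‖ψ x‖ = (p : ℝ) ^ j := by
    intro x hx hx0
    have h1 := hψ ⟨x, hx⟩
    have h2 : τ ⟨x, hx⟩ ≠ 0 := by
      rw [Ne, map_eq_zero]
      intro h0
      exact hx0 (congrArg Subtype.val h0)
    rw [h1, norm_algebraMap', Padic.norm_eq_zpow_neg_valuation h2]
    exact ⟨_, rfl⟩
  have hnat : ∀ m : ℕ, ‖((m : ℕ) : PadicAlgCl p)‖ = ‖(m : ℚ_[p])‖ := by
    intro m
    rw [← norm_algebraMap' (𝕜' := PadicAlgCl p) (m : ℚ_[p]), map_natCast]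
  have hrat : ∀ q : ℚ, ψ (q : Ω) = algebraMap ℚ_[p] (PadicAlgCl p) (q : ℚ_[p]) := by
    intro q
    rw [map_ratCast, map_ratCast]
  have hs₀M : s₀ ∈ M := hSM _ (by simp)
  -- the constant
  obtain ⟨j1, hj1⟩ := hpow _ (hSM (N.eval t₀) (by simp)) hN
  obtain ⟨j2, hj2⟩ := hpow _ (hSM (T₂.eval s₀) (by simp)) hT2
  obtain ⟨j3, hj3⟩ := hpow _ (hSM ((derivative W).eval t₀) (by simp)) hW'
  obtain ⟨j4, hj4⟩ := hpow _ (hSM D (by simp)) hD0
  have hev : ∀ (P : Polynomial Ω) (a : Ω), (P.map ψ).eval (ψ a) = ψ (P.eval a) := by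
    intro P a
    rw [eval_map, eval₂_hom]
  have hne : ∀ a : Ω, a ≠ 0 → ψ a ≠ 0 := fun a ha => (map_ne_zero ψ).2 ha
  obtain ⟨δ, hδ, happ⟩ := approx (T₁ := T₁.map ψ) (T₂ := T₂.map ψ) (N := N.map ψ) (W := W.map ψ)
    (s₀ := ψ s₀) (t₀ := ψ t₀) (by rw [hev]; exact hne _ hT2)
    (by rw [hev, hev, hT1, map_mul])
    (by
      rw [derivative_map, derivative_map, hev, hev, ← map_mul, ← map_sub]
      exact hne _ hD0)
    (by rw [hev, hW, map_zero]) (by rw [derivative_map, hev]; exact hne _ hW')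
    (by rw [hev]; exact hne _ hN)
  -- the approximations
  choose w hw using fun k : ℕ => Pool.Agent.N683.HR.exists_rat_dist (p := p) (τ ⟨s₀, hs₀M⟩) k
  have hwψ : ∀ k, ‖ψ (w k : Ω) - ψ s₀‖ = (p : ℝ) ^ (-(k : ℤ)) := by
    intro k
    have h1 := hψ ⟨s₀, hs₀M⟩
    rw [hrat, h1, ← map_sub, norm_algebraMap', hw]
  set e : ℤ := j1 + j2 - j4 - j3 with he
  obtain ⟨N0, hN0⟩ : ∃ N0 : ℕ, (p : ℝ) ^ (-(N0 : ℤ)) < δ := by
    obtain ⟨n, hn⟩ := exists_pow_lt_of_lt_one hδ (inv_lt_one_of_one_lt₀ hp1)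
    refine ⟨n, ?_⟩
    rw [zpow_neg, zpow_natCast, ← inv_pow]
    exact hn
  obtain ⟨c, hc⟩ : ∃ c : ℕ, (e + c) % 3 = 1 := by
    have h3 : e % 3 = 0 ∨ e % 3 = 1 ∨ e % 3 = 2 := by omega
    rcases h3 with h | h | h
    · exact ⟨1, by push_cast; omega⟩
    · exact ⟨0, by push_cast; omega⟩
    · exact ⟨2, by push_cast; omega⟩
  obtain ⟨E, hE⟩ : ∃ E : ℕ, -e ≤ E := ⟨e.natAbs, by omega⟩
  set kk : ℕ → ℕ := fun j => c + 3 * (N0 + E + 2 + j) with hkk
  have hinj : Function.Injective fun j => w (kk j) := by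
    intro j j' hjj
    have h1 : w (kk j) = w (kk j') := hjj
    have h2 := hw (kk j)
    rw [h1, hw] at h2
    have h3 := zpow_right_injective₀ hp0 hp1.ne' h2
    simp only [hkk] at h3
    push_cast at h3
    omega
  obtain ⟨j, hj⟩ : ∃ j, w (kk j) ∉ T := by
    by_contra hcon
    push Not at hcon
    exact (Set.infinite_of_injective_forall_mem hinj hcon) hT
  set k := kk j with hk
  set s : ℚ := w k with hs
  have hsn := hwψ k
  have hslt : ‖ψ (s : Ω) - ψ s₀‖ < δ := by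
    rw [hsn]
    refine lt_of_le_of_lt ?_ hN0
    apply zpow_le_zpow_right₀ hp1.le
    rw [hk]
    simp only [hkk]
    push_cast
    omega
  have hsne : ψ (s : Ω) ≠ ψ s₀ := by
    rw [← sub_ne_zero, ← norm_pos_iff, hsn]
    positivity
  obtain ⟨a1, a2, a3, a4⟩ := happ (ψ (s : Ω)) hslt hsne
  rw [hev] at a1
  rw [hev, hev, ← map_div₀] at a2 a3 a4
  rw [hev] at a3 a4
  rw [hev, ← map_div₀, derivative_map, derivative_map, derivative_map, hev, hev, hev, hev, hev,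
    ← map_mul, ← map_sub, ← hDdef, hj1, hj2, hj3, hj4, hsn] at a4
  have b1 : T₂.eval (s : Ω) ≠ 0 := fun h => a1 (by rw [h, map_zero])
  have b3 : W.eval (T₁.eval (s : Ω) / T₂.eval (s : Ω)) ≠ 0 := fun h => a3 (by rw [h, map_zero])
  refine ⟨s, hj, b1, b3, ?_⟩
  intro x y hxy h m hm
  set t : Ω := T₁.eval (s : Ω) / T₂.eval (s : Ω) with ht
  set n : Ω := N.eval t / W.eval t with hn
  have hv : ‖ψ n‖ = (p : ℝ) ^ (e + k) := by
    rw [a4, he, zpow_neg, div_inv_eq_mul, ← zpow_add₀ hp0.ne', ← zpow_add₀ hp0.ne',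
      ← zpow_sub₀ hp0.ne', ← zpow_add₀ hp0.ne']
    congr 1
    ring
  have hv2 : 2 ≤ e + k := by
    rw [hk]
    simp only [hkk]
    push_cast
    omega
  have hv3 : ¬ (3 : ℤ) ∣ e + k := by
    rw [hk]
    simp only [hkk]
    push_cast
    omega
  have hψt : ‖ψ t‖ ≤ 1 := by
    have h1 : ‖ψ t₀‖ ≤ 1 := hS1 _ (by simp)
    have e1 : ψ t = (ψ t - ψ t₀) + ψ t₀ := by ring
    rw [e1]
    exact uadd a2 h1
  let algK : Algebra K (PadicAlgCl p) := (ψ.comp (algebraMap K Ω)).toAlgebra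
  let f : Ω →ₐ[K] PadicAlgCl p := { ψ with commutes' := fun _ => rfl }
  have hf : ∀ x, f x = ψ x := fun _ => rfl
  have hA1 : ‖algebraMap K (PadicAlgCl p) A‖ ≤ 1 := hS1 _ (by simp)
  have hB1 : ‖algebraMap K (PadicAlgCl p) B‖ ≤ 1 := hS1 _ (by simp)
  have hxn : ‖f x‖ ^ 3 = (p : ℝ) ^ (2 * (e + k)) := by
    have h1 : y ^ 2 = x ^ 3 + algebraMap K Ω A * x + algebraMap K Ω B := by
      have h2 := h.1
      rw [Affine.equation_iff] at h2
      simp [crv, WeierstrassCurve.baseChange, WeierstrassCurve.map] at h2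
      exact h2
    have h2 := line_norm (a := ψ (algebraMap K Ω A)) (b := ψ (algebraMap K Ω B)) (X := ψ x)
      (Y := ψ y) (t := ψ t) (n := ψ n) hA1 hB1 hψt (by
        rw [hv]
        exact one_lt_zpow₀ hp1 (by omega)) (by rw [hxy, map_add, map_mul])
        (by rw [← map_pow, h1]; simp only [map_add, map_mul, map_pow])
    rw [hf, h2, hv, mul_comm, zpow_mul]
    norm_cast
  exact pt_core hlog f hA1 hB1 hp (by omega)
    (by rw [hnat, Padic.norm_p])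
    (by
      intro l hl hlp
      rw [hnat]
      have hnd : ¬ p ∣ l := fun hd => hlp ((Nat.prime_dvd_prime_iff_eq hp hl).mp hd).symm
      have h7 : ¬ ‖((l : ℤ) : ℚ_[p])‖ < 1 := by
        rw [Padic.norm_intCast_lt_one_iff]
        exact_mod_cast hnd
      have h8 := Padic.norm_int_le_one (p := p) (l : ℤ)
      have : ((l : ℤ) : ℚ_[p]) = (l : ℚ_[p]) := by push_cast; rfl
      rw [this] at h7 h8
      exact le_antisymm h8 (not_lt.mp h7))
    L (fun a ha ha0 => hpow a (hLM a ha) ha0)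
    (by
      intro m hm
      have hm0 : (m : ℚ_[p]) ≠ 0 := by exact_mod_cast hm.ne'
      rw [hnat, Padic.norm_eq_zpow_neg_valuation hm0]
      exact ⟨_, rfl⟩) hv2 hv3 hxn h hm

end Pool.Agent.N683.H2
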