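import Pool.Agent.N683.H2.Stm

/-! The action on the abscissas of the 3-torsion. -/

set_option autoImplicit false

namespace Pool.Agent.N683.H2

open IntermediateField Polynomial
open Pool.Agent.R433.MD (IsHyper)

namespace Psi

section roots
variable {Ω : Type} [Field Ω] [CharZero Ω]

/-- the polynomial of the 3-torsion, divided by 3 -/
noncomputable def Q (a b : Ω) : Polynomial Ω :=
  Polynomial.X ^ 4 + (C (2 * a) * Polynomial.X ^ 2 + C (4 * b) * Polynomial.X + C (-(a ^ 2 / 3)))

theorem Q_monic (a b : Ω) : (Q a b).Monic := by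
  unfold Q
  apply monic_X_pow_add
  compute_degree
  norm_num

theorem Q_deg (a b : Ω) : (Q a b).natDegree = 4 := by
  unfold Q
  compute_degree!

theorem Q_eval (a b x : Ω) : (Q a b).eval x = x ^ 4 + 2 * a * x ^ 2 + 4 * b * x - a ^ 2 / 3 := by
  unfold Q
  simp only [eval_add, eval_pow, eval_X, eval_mul, eval_C]
  ring

theorem Q_der (a b x : Ω) : (derivative (Q a b)).eval x = 4 * (x ^ 3 + a * x + b) := by
  unfold Q
  simp only [derivative_add, derivative_X_pow, derivative_mul, derivative_C, derivative_X,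
    eval_add, eval_pow, eval_X, eval_mul, eval_C, eval_one, eval_zero, Nat.cast_ofNat]
  simp
  ring

theorem no_double {a b r : Ω} (hD : 4 * a ^ 3 + 27 * b ^ 2 ≠ 0)
    (h1 : r ^ 4 + 2 * a * r ^ 2 + 4 * b * r - a ^ 2 / 3 = 0) (h2 : r ^ 3 + a * r + b = 0) : False := by
  have h3 : (3 * r ^ 2 + a) ^ 2 = 0 := by
    linear_combination 12 * r * h2 - 3 * h1
  have h4 : 3 * r ^ 2 + a = 0 := pow_eq_zero_iff (n := 2) (by norm_num) |>.mp h3
  apply hD
  have h5 : 2 * a * r = -3 * b := by linear_combination 3 * h2 - r * h4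
  linear_combination (4 * a ^ 2) * h4 - 3 * (2 * a * r - 3 * b) * h5

theorem four_roots [IsAlgClosed Ω] {a b : Ω} (hD : 4 * a ^ 3 + 27 * b ^ 2 ≠ 0) :
    ∃ X : Fin 4 → Ω, Function.Injective X ∧
      ∀ x, x ^ 4 + 2 * a * x ^ 2 + 4 * b * x - a ^ 2 / 3 = ∏ i, (x - X i) := by
  classical
  have hQ0 : Q a b ≠ 0 := (Q_monic a b).ne_zero
  have hnd : (Q a b).roots.Nodup := by
    rw [Multiset.nodup_iff_count_le_one]
    intro r
    rw [count_roots]
    by_contra hc
    push Not at hc
    rw [one_lt_rootMultiplicity_iff_isRoot hQ0] at hc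
    obtain ⟨h1, h2⟩ := hc
    rw [IsRoot, Q_eval] at h1
    rw [IsRoot, Q_der] at h2
    exact no_double hD h1 ((mul_eq_zero.mp h2).resolve_left (by norm_num))
  have hcard : Multiset.card (Q a b).roots = 4 := by
    rw [← Q_deg a b]
    exact (IsAlgClosed.splits (Q a b)).natDegree_eq_card_roots.symm
  have hcf : (Q a b).roots.toFinset.card = 4 := by
    rw [Multiset.toFinset_card_of_nodup hnd, hcard]
  let e := (Finset.equivFinOfCardEq hcf).symm
  refine ⟨fun i => (e i : Ω), fun i j h => e.injective (Subtype.ext h), ?_⟩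
  intro x
  rw [← Q_eval]
  have h1 : Q a b = ((Q a b).roots.map fun r => Polynomial.X - C r).prod := by
    have := (IsAlgClosed.splits (Q a b)).eq_prod_roots
    rw [(Q_monic a b).leadingCoeff, map_one, one_mul] at this
    exact this
  have h2 : (Q a b).eval x = ((Q a b).roots.map fun r => x - r).prod := by
    conv_lhs => rw [h1]
    rw [eval_multiset_prod, Multiset.map_map]
    simp
  rw [h2]
  have h3 : ((Q a b).roots.map fun r => x - r).prod = ∏ r ∈ (Q a b).roots.toFinset, (x - r) := by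
    rw [Finset.prod, Multiset.toFinset_val, Multiset.Nodup.dedup hnd]
  rw [h3, ← Finset.prod_coe_sort]
  exact (Equiv.prod_comp e (fun r : (Q a b).roots.toFinset => x - (r : Ω))).symm

end roots

/-- Vieta -/
theorem vieta {Ω : Type} [Field Ω] [CharZero Ω] {a b : Ω} {Y : Fin 4 → Ω}
    (h : ∀ x, x ^ 4 + 2 * a * x ^ 2 + 4 * b * x - a ^ 2 / 3 = ∏ i, (x - Y i)) :
    Y 0 + Y 1 + Y 2 + Y 3 = 0 ∧
    Y 0 * Y 1 + Y 2 * Y 3 + (Y 0 + Y 1) * (Y 2 + Y 3) = 2 * a ∧
    Y 0 * Y 1 * (Y 2 + Y 3) + Y 2 * Y 3 * (Y 0 + Y 1) = -4 * b ∧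
    3 * (Y 0 * Y 1) * (Y 2 * Y 3) = -a ^ 2 := by
  have h0 := h 0
  have h1 := h 1
  have h2 := h (-1)
  have h3 := h 2
  rw [Fin.prod_univ_four] at h0 h1 h2 h3
  have c0 : Y 0 * Y 1 * (Y 2 * Y 3) = -(a ^ 2 / 3) := by linear_combination -h0
  have hs : (6 : Ω) * (Y 0 + Y 1 + Y 2 + Y 3) = 0 := by
    linear_combination 3 * h0 + h3 - 3 * h1 - h2
  have e1 : Y 0 + Y 1 + Y 2 + Y 3 = 0 := (mul_eq_zero.mp hs).resolve_left (by norm_num)
  have e2 : (2 : Ω) * (Y 0 * Y 1 + Y 2 * Y 3 + (Y 0 + Y 1) * (Y 2 + Y 3) - 2 * a) = 0 := by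
    linear_combination -h1 - h2 + 2 * h0
  have e2' := (mul_eq_zero.mp e2).resolve_left (by norm_num)
  refine ⟨e1, by linear_combination e2', ?_, by linear_combination 3 * c0⟩
  have e3 : (2 : Ω) * (Y 0 * Y 1 * (Y 2 + Y 3) + Y 2 * Y 3 * (Y 0 + Y 1) + 4 * b) = 0 := by
    linear_combination h1 - h2 - 2 * e1
  have e3' := (mul_eq_zero.mp e3).resolve_left (by norm_num)
  linear_combination e3'

end Psi

open Psi

theorem psi (h : S_G1) : S_PSI := by
  intro K Ω _ _ _ _ _ _ U hU A B hA hB hD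
  have : CharZero Ω := charZero_of_injective_algebraMap (algebraMap K Ω).injective
  set a := algebraMap K Ω A with ha
  set b := algebraMap K Ω B with hb
  have hb0 : b ≠ 0 := (_root_.map_ne_zero _).mpr hB
  have hD' : 4 * a ^ 3 + 27 * b ^ 2 ≠ 0 := by
    have h1 := (_root_.map_ne_zero (algebraMap K Ω)).mpr hD
    simpa only [map_add, map_mul, map_pow, map_ofNat] using h1
  obtain ⟨X, hinj, hfac⟩ := four_roots hD'
  have hroot : ∀ i, X i ^ 4 + 2 * a * X i ^ 2 + 4 * b * X i - a ^ 2 / 3 = 0 := by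
    intro i
    rw [hfac]
    exact Finset.prod_eq_zero (Finset.mem_univ i) (sub_self _)
  have hfd : FiniteDimensional K (adjoin K (Set.range X)) :=
    finiteDimensional_adjoin fun x _ => Algebra.IsIntegral.isIntegral x
  let L : IntermediateField K Ω := normalClosure K (adjoin K (Set.range X)) Ω
  have hac : IsAlgClosure K Ω := ⟨inferInstance, inferInstance⟩
  have hnor : Normal K Ω := IsAlgClosure.normal K Ω
  have hLfd : FiniteDimensional K L := normalClosure.is_finiteDimensional K _ Ω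
  have hLn : Normal K L := normalClosure.normal K _ Ω
  have hle : adjoin K (Set.range X) ≤ L := le_normalClosure _
  have hmem : ∀ i, X i ∈ L := fun i => hle (subset_adjoin K _ ⟨i, rfl⟩)
  let x : Fin 4 → L := fun i => ⟨X i, hmem i⟩
  have hxinj : Function.Injective x := fun i j hij => hinj (congrArg (fun w : L => (w : Ω)) hij)
  -- the permutations
  have hperm : ∀ g : Gal(L/K), ∀ i, ∃ j, g (x i) = x j := by
    intro g i
    have h1 : (x i) ^ 4 + 2 * (algebraMap K L A) * (x i) ^ 2 + 4 * (algebraMap K L B) * (x i) -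
        (algebraMap K L A) ^ 2 / 3 = 0 := Subtype.ext (hroot i)
    have h2 := congrArg g h1
    simp only [map_add, map_sub, map_mul, map_pow, map_div₀, map_ofNat, AlgEquiv.commutes,
      map_zero] at h2
    have h3 : ((g (x i) : L) : Ω) ^ 4 + 2 * a * ((g (x i) : L) : Ω) ^ 2 +
        4 * b * ((g (x i) : L) : Ω) - a ^ 2 / 3 = 0 := congrArg (fun w : L => (w : Ω)) h2
    rw [hfac, Finset.prod_eq_zero_iff] at h3
    obtain ⟨j, -, hj⟩ := h3
    exact ⟨j, Subtype.ext (sub_eq_zero.mp hj)⟩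
  choose t ht using hperm
  have ht1 : ∀ i, t 1 i = i := fun i => hxinj (by rw [← ht]; rfl)
  have htm : ∀ g g' i, t (g * g') i = t g (t g' i) := by
    intro g g' i
    apply hxinj
    rw [← ht, AlgEquiv.mul_apply, ht g' i, ht g]
  let F : Gal(L/K) →* Equiv.Perm (Fin 4) :=
    { toFun := fun g => ⟨t g, t g⁻¹, fun i => by rw [← htm, inv_mul_cancel, ht1],
        fun i => by rw [← htm, mul_inv_cancel, ht1]⟩
      map_one' := by ext i; simp [ht1]
      map_mul' := fun g g' => by ext i; simp [htm] }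
  have hF : ∀ g i, g (x i) = x (F g i) := fun g i => ht g i
  have hact : ∀ u : Gal(Ω/K), ∀ i, u (X i) = X (F (AlgEquiv.restrictNormalHom L u) i) := by
    intro u i
    have h1 := congrArg (fun w : L => (w : Ω)) (hF (AlgEquiv.restrictNormalHom L u) i)
    simp only [AlgEquiv.restrictNormalHom_apply] at h1
    exact h1
  have hfin : Finite Gal(L/K) := inferInstance
  have hH := hU L
  rcases h Gal(L/K) _ hH (F.comp (Subgroup.subtype _)) with ⟨i, hi⟩ | ⟨σ, hσ⟩
  · left
    refine ⟨X i, ?_, ?_⟩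
    · rw [mem_fixedField_iff]
      intro u hu
      rw [hact u i]
      exact congrArg X (hi ⟨_, u, hu, rfl⟩)
    · unfold Three
      linear_combination 3 * hroot i
  · right
    have hfac' : ∀ x, x ^ 4 + 2 * a * x ^ 2 + 4 * b * x - a ^ 2 / 3 = ∏ i, (x - (X ∘ σ) i) := by
      intro z
      rw [hfac]
      exact (Equiv.prod_comp σ (fun i => z - X i)).symm
    obtain ⟨v1, v2, v3, v4⟩ := vieta hfac'
    set Y := X ∘ σ with hY
    have hp : -(Y 0 + Y 1) ≠ 0 := by
      intro h0
      have h1 : Y 0 + Y 1 = 0 := by linear_combination -h0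
      have h2 : Y 2 + Y 3 = 0 := by linear_combination v1 - h1
      rw [h1, h2] at v3
      apply hb0
      have h4 : (4 : Ω) * b = 0 := by linear_combination v3
      exact (mul_eq_zero.mp h4).resolve_left (by norm_num)
    have hpair : Pair a b (-(Y 0 + Y 1)) (Y 0 * Y 1) (Y 2 * Y 3) := by
      refine ⟨?_, ?_, ?_⟩
      · linear_combination v2 - (Y 0 + Y 1) * v1
      · linear_combination -v3 + (Y 0 * Y 1) * v1
      · linear_combination v4
    have hsum : ∀ u ∈ U, (u (Y 0 + Y 1) = Y 0 + Y 1 ∧ u (Y 0 * Y 1) = Y 0 * Y 1) ∨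
        u (Y 0 + Y 1) = Y 2 + Y 3 := by
      intro u hu
      have e0 : u (Y 0) = X (F (AlgEquiv.restrictNormalHom L u) (σ 0)) := hact u (σ 0)
      have e1 : u (Y 1) = X (F (AlgEquiv.restrictNormalHom L u) (σ 1)) := hact u (σ 1)
      rcases hσ ⟨_, u, hu, rfl⟩ with h1 | h1
      · left
        rw [Set.pair_eq_pair_iff] at h1
        rcases h1 with ⟨h2, h3⟩ | ⟨h2, h3⟩
        · have h4 : F (AlgEquiv.restrictNormalHom L u) (σ 0) = σ 0 := h2
          have h5 : F (AlgEquiv.restrictNormalHom L u) (σ 1) = σ 1 := h3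
          rw [map_add, map_mul, e0, e1, h4, h5]
          exact ⟨rfl, rfl⟩
        · have h4 : F (AlgEquiv.restrictNormalHom L u) (σ 0) = σ 1 := h2
          have h5 : F (AlgEquiv.restrictNormalHom L u) (σ 1) = σ 0 := h3
          rw [map_add, map_mul, e0, e1, h4, h5]
          exact ⟨add_comm _ _, mul_comm _ _⟩
      · right
        rw [Set.pair_eq_pair_iff] at h1
        rcases h1 with ⟨h2, h3⟩ | ⟨h2, h3⟩
        · have h4 : F (AlgEquiv.restrictNormalHom L u) (σ 0) = σ 2 := h2
          have h5 : F (AlgEquiv.restrictNormalHom L u) (σ 1) = σ 3 := h3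
          rw [map_add, e0, e1, h4, h5]
          rfl
        · have h4 : F (AlgEquiv.restrictNormalHom L u) (σ 0) = σ 3 := h2
          have h5 : F (AlgEquiv.restrictNormalHom L u) (σ 1) = σ 2 := h3
          rw [map_add, e0, e1, h4, h5]
          exact add_comm _ _
    refine ⟨-(Y 0 + Y 1), Y 0 * Y 1, Y 2 * Y 3, hp, ?_, ?_, hpair⟩
    · intro u hu
      rcases hsum u hu with ⟨h1, -⟩ | h1
      · left; rw [map_neg, h1]
      · right
        rw [map_neg, h1]
        linear_combination -v1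
    · intro u hu hup
      rcases hsum u hu with ⟨h1, h2⟩ | h1
      · refine ⟨h2, ?_⟩
        have h3 := congrArg u hpair.2.1
        have h4 : u (4 * b) = 4 * b := by
          rw [map_mul, map_ofNat, hb, AlgEquiv.commutes]
        rw [map_mul, map_sub, hup, h2, h4, ← hpair.2.1] at h3
        have h5 := mul_left_cancel₀ hp h3
        linear_combination h5
      · exfalso
        rw [map_neg, h1] at hup
        apply hp
        have h3 : (2 : Ω) * (-(Y 0 + Y 1)) = 0 := by linear_combination -hup - v1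
        exact (mul_eq_zero.mp h3).resolve_left (by norm_num)

end Pool.Agent.N683.H2
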