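import Pool.Agent.N683.H2.Stm
import Pool.Agent.N683.HR.Rk
import Pool.Agent.N683.HR.TOR
import Pool.Agent.N683.HR.SQ

/-!
# Infinite rank over quadratically closed fields
-/

set_option autoImplicit false
set_option linter.unusedSectionVars false

namespace Pool.Agent.N683.H2

open IntermediateField WeierstrassCurve
open Pool.Agent.N683.HR (crv cub cubP cubP_eval cubP_deg bc_eq HasPts)

namespace QC

variable {K Ω : Type} [Field K] [NumberField K] [Field Ω] [Algebra K Ω] [DecidableEq Ω]

/-- A point is defined over every field which contains its coordinates. -/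
theorem coords (A B : K) (F : IntermediateField K Ω)
    (P : (((crv A B).baseChange F).toAffine).Point) :
    ∃ S : Finset Ω, (S : Set Ω) ⊆ F ∧ ∀ F₀ : IntermediateField K Ω, (S : Set Ω) ⊆ F₀ →
      Affine.Point.map (W' := crv A B) F.val P ∈
        (Affine.Point.map (W' := crv A B) F₀.val).range := by
  rcases P with _ | ⟨x, y, h⟩
  · refine ⟨∅, by simp, fun F₀ _ => ⟨0, ?_⟩⟩
    rfl
  · refine ⟨{(x : Ω), (y : Ω)}, ?_, fun F₀ hS => ?_⟩
    · intro z hz
      rw [Finset.coe_insert, Finset.coe_singleton, Set.mem_insert_iff, Set.mem_singleton_iff] at hz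
      rcases hz with rfl | rfl
      · exact x.2
      · exact y.2
    · have hx : (x : Ω) ∈ F₀ := hS (by simp)
      have hy : (y : Ω) ∈ F₀ := hS (by simp)
      have hns : ((crv A B).baseChange Ω).toAffine.Nonsingular (x : Ω) (y : Ω) :=
        (Affine.baseChange_nonsingular (crv A B) (f := F.val) F.val.injective ..).mpr h
      have hns' : ((crv A B).baseChange F₀).toAffine.Nonsingular ⟨x, hx⟩ ⟨y, hy⟩ := by
        exact (Affine.baseChange_nonsingular (crv A B) (f := F₀.val) F₀.val.injective ..).mp hns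
      exact ⟨Affine.Point.some _ _ hns', rfl⟩

theorem descend [Algebra.IsAlgebraic K Ω] {A B : K} {F : IntermediateField K Ω} {R : ℕ}
    (h : HasPts A B F R) :
    ∃ F₀ : IntermediateField K Ω, F₀ ≤ F ∧ FiniteDimensional K F₀ ∧ HasPts A B F₀ R := by
  classical
  obtain ⟨P, hP, hr⟩ := h
  have h1 : ∀ i, ∃ S : Finset Ω, (S : Set Ω) ⊆ F ∧ ∀ F₀ : IntermediateField K Ω,
      (S : Set Ω) ⊆ F₀ → P i ∈ (Affine.Point.map (W' := crv A B) F₀.val).range := by
    intro i
    obtain ⟨P', hP'⟩ := hr i
    rw [← hP']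
    exact coords A B F P'
  choose S hS1 hS2 using h1
  set T : Finset Ω := Finset.univ.biUnion S with hT
  refine ⟨adjoin K (T : Set Ω), ?_, ?_, P, hP, fun i => ?_⟩
  · rw [adjoin_le_iff]
    intro z hz
    rw [hT, Finset.mem_coe, Finset.mem_biUnion] at hz
    obtain ⟨i, -, hi⟩ := hz
    exact hS1 i hi
  · have : Finite (T : Set Ω) := Finset.finite_toSet T
    exact finiteDimensional_adjoin fun x _ => Algebra.IsIntegral.isIntegral x
  · refine hS2 i _ ?_
    intro z hz
    refine subset_adjoin K _ ?_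
    rw [hT, Finset.mem_coe, Finset.mem_biUnion]
    exact ⟨i, Finset.mem_univ i, hz⟩

end QC

/-- **Task QC.** -/
theorem qc : S_QC := by
  intro K Ω _ _ _ _ _ _ _ A B hD F hF R
  have : CharZero Ω := charZero_of_injective_algebraMap (algebraMap K Ω).injective
  induction R with
  | zero => exact ⟨Fin.elim0, linearIndependent_empty_type, fun i => i.elim0⟩
  | succ R ih =>
    obtain ⟨F₀, hF₀, hfd, hP⟩ := QC.descend ih
    have : NumberField F₀ := NumberField.of_module_finite K F₀
    obtain ⟨T, hT, hTt⟩ := Pool.Agent.N683.HR.tor K A B hD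
    obtain ⟨x, hxT, hx⟩ := Pool.Agent.N683.HR.sq K F₀ (cubP A B)
      (Pool.Agent.N683.HR.cubP_sep hD) (by rw [cubP_deg]; norm_num) T hT
    obtain ⟨r, hrF, hr⟩ := hF (algebraMap K Ω (cub A B x)) (F.algebraMap_mem _)
    refine Pool.Agent.N683.HR.HasPts.succ hD le_rfl hF₀ hP (x := algebraMap K Ω x) (r := r)
      (F₀.algebraMap_mem x) ?_ hrF ?_ ?_
    · rw [hr]
      simp only [cub, map_add, map_mul, map_pow]
    · intro hrF₀
      refine hx ⟨r, hrF₀⟩ (Subtype.ext ?_)
      rw [cubP_eval]
      exact hr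
    · have key : ∀ (W : WeierstrassCurve Ω), W = crv (algebraMap K Ω A) (algebraMap K Ω B) →
          ∀ (h : W.toAffine.Nonsingular (algebraMap K Ω x) r) (n : ℕ), 0 < n →
            n • (Affine.Point.some (algebraMap K Ω x) r h) ≠ 0 := by
        rintro W rfl h n hn
        exact hTt x hxT Ω r h n hn
      exact key _ (bc_eq A B)

end Pool.Agent.N683.H2
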