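import Pool.Agent.N683.H2.Stm

/-!
# Project H2: explicit sections
-/

set_option autoImplicit false

namespace Pool.Agent.N683.H2

namespace SecAux

open Polynomial
open Pool.Agent.N683.H2

/-- the homogenised discriminant -/
def HD {F : Type} [Field F] (a b t N W : F) : F :=
  W ^ 2 * t ^ 4 * (a * W - 2 * t * N) ^ 2 - 4 * W * (a * W - 2 * t * N) ^ 3 +
    4 * t ^ 6 * W ^ 2 * (b * W ^ 2 - N ^ 2) - 27 * (b * W ^ 2 - N ^ 2) ^ 2 -
    18 * t ^ 2 * W * (a * W - 2 * t * N) * (b * W ^ 2 - N ^ 2)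

lemma hom {F : Type} [Field F] (a b t N W : F) (hW : W ≠ 0) :
    W ^ 4 * DD a b t (N / W) = HD a b t N W := by
  unfold DD dsc HD
  field_simp
  ring

/-- the identity in the first case -/
lemma id1 {F : Type} [Field F] [CharZero F] (a X t : F) (hX : X ≠ 0) :
    HD a ((a ^ 2 - 6 * a * X ^ 2 - 3 * X ^ 4) / (12 * X)) t
      (-t * (-(a + X ^ 2) / (2 * X) * t ^ 2 + -(7 * a + 3 * X ^ 2) / 2)) (t ^ 2 + -3 * a / X) =
    (t ^ 6 + 3 * X * t ^ 4 + 9 * (2 * a + X ^ 2) * t ^ 2 + 9 * a ^ 2 / X) ^ 2 *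
      ((-(3 * X ^ 2 + a) ^ 2 * (X ^ 2 + 3 * a) / (6 * X ^ 3)) * t ^ 2 +
        -(3 * X ^ 2 + a) ^ 3 * (X ^ 2 + 3 * a) / (16 * X ^ 4)) := by
  unfold HD
  field_simp
  ring

lemma dis1 {F : Type} [Field F] [CharZero F] (a X : F) (hX : X ≠ 0) :
    4 * a ^ 3 + 27 * ((a ^ 2 - 6 * a * X ^ 2 - 3 * X ^ 4) / (12 * X)) ^ 2 =
      (3 * X ^ 2 + a) ^ 3 * (X ^ 2 + 3 * a) / (16 * X ^ 2) := by
  field_simp
  ring

/-- the identity in the second case -/
lemma id2 {F : Type} [Field F] [CharZero F] (p w t D : F) (hw : w ≠ 0) (hD : D ≠ 0)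
    (hD' : D = 3 * w ^ 2 - 6 * w - 1) :
    HD (3 * w * p ^ 2 / D) (-p * (3 * w * p ^ 2 / D) * (1 + 3 * w ^ 2) / (12 * w)) t
      (p * t ^ 2 + (3 * w * p ^ 2 / D) * (1 + 3 * w)) (2 * t) =
    (t ^ 4 + 3 * p * t ^ 2 + 9 * ((3 * w * p ^ 2 / D) * w)) ^ 2 *
      ((8 * p * (-p ^ 2 * (3 * w + 1) ^ 2 / D)) * t ^ 2 +
        -(3 * p ^ 4 * (1 + 3 * w) ^ 4) / D ^ 2) := by
  unfold HD
  field_simp
  rw [hD']
  ring

/-- the first case -/
lemma case1 {F Ω : Type} [Field F] [CharZero F] [Field Ω] [Algebra F Ω] [IsAlgClosed Ω] (a b X : F)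
    (ha : a ≠ 0) (hd : 4 * a ^ 3 + 27 * b ^ 2 ≠ 0) (h : Three a b X) :
    ∃ (N W G : F[X]) (α β : F), α ≠ 0 ∧ β ≠ 0 ∧ G ≠ 0 ∧
      (∀ t : F, W.eval t ≠ 0 →
        W.eval t ^ 4 * DD a b t (N.eval t / W.eval t) = G.eval t ^ 2 * (α * t ^ 2 + β)) ∧
      ∃ t₀ : Ω, aeval t₀ W = 0 ∧ aeval t₀ (derivative W) ≠ 0 ∧ aeval t₀ N ≠ 0 ∧
        algebraMap F Ω α * t₀ ^ 2 + algebraMap F Ω β ≠ 0 := by
  have hcΩ : CharZero Ω := charZero_of_injective_algebraMap (algebraMap F Ω).injective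
  unfold Three at h
  have hX : X ≠ 0 := by
    rintro rfl
    apply ha
    have : a ^ 2 = 0 := by linear_combination -h
    exact pow_eq_zero_iff (two_ne_zero) |>.1 this
  have hb : b = (a ^ 2 - 6 * a * X ^ 2 - 3 * X ^ 4) / (12 * X) := by
    field_simp
    linear_combination h
  rw [hb, dis1 a X hX] at hd
  have h1 : 3 * X ^ 2 + a ≠ 0 := by
    intro h0
    apply hd
    rw [h0]
    simp
  have h2 : X ^ 2 + 3 * a ≠ 0 := by
    intro h0
    apply hd
    rw [h0]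
    simp
  refine ⟨-Polynomial.X * (C (-(a + X ^ 2) / (2 * X)) * Polynomial.X ^ 2 +
      C (-(7 * a + 3 * X ^ 2) / 2)), Polynomial.X ^ 2 + C (-3 * a / X),
    Polynomial.X ^ 6 + C (3 * X) * Polynomial.X ^ 4 + C (9 * (2 * a + X ^ 2)) * Polynomial.X ^ 2 +
      C (9 * a ^ 2 / X), -(3 * X ^ 2 + a) ^ 2 * (X ^ 2 + 3 * a) / (6 * X ^ 3),
    -(3 * X ^ 2 + a) ^ 3 * (X ^ 2 + 3 * a) / (16 * X ^ 4), ?_, ?_, ?_, ?_, ?_⟩
  · exact div_ne_zero (mul_ne_zero (neg_ne_zero.2 (pow_ne_zero _ h1)) h2) (mul_ne_zero (by norm_num) (pow_ne_zero _ hX))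
  · exact div_ne_zero (mul_ne_zero (neg_ne_zero.2 (pow_ne_zero _ h1)) h2) (mul_ne_zero (by norm_num) (pow_ne_zero _ hX))
  · intro h0
    have h3 := congrArg (Polynomial.eval 0) h0
    simp at h3
    rcases h3 with h3 | h3
    · exact ha h3
    · exact hX h3
  · intro t ht
    rw [hom _ _ _ _ _ ht, hb]
    simp only [eval_add, eval_mul, eval_pow, eval_X, eval_C, eval_neg]
    exact id1 a X t hX
  · obtain ⟨t₀, ht⟩ := IsAlgClosed.exists_pow_nat_eq (algebraMap F Ω (3 * a / X)) (n := 2) (by norm_num)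
    have ht0 : t₀ ≠ 0 := by
      rintro rfl
      rw [zero_pow two_ne_zero] at ht
      have := (map_eq_zero (algebraMap F Ω)).1 ht.symm
      exact (div_ne_zero (mul_ne_zero (by norm_num) ha) hX) this
    refine ⟨t₀, ?_, ?_, ?_, ?_⟩
    · simp only [map_add, map_pow, aeval_X, aeval_C]
      rw [ht, ← map_add]
      rw [show 3 * a / X + -3 * a / X = 0 by ring, map_zero]
    · simp only [derivative_add, derivative_X_pow, derivative_C, map_add, map_mul, aeval_X,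
        map_pow, aeval_C, map_zero]
      simpa using ht0
    · simp only [map_mul, map_neg, map_add, map_pow, aeval_X, aeval_C]
      rw [ht, ← map_mul, ← map_add]
      refine mul_ne_zero (neg_ne_zero.2 ht0) ?_
      rw [Ne, map_eq_zero]
      have : -(a + X ^ 2) / (2 * X) * (3 * a / X) + -(7 * a + 3 * X ^ 2) / 2 =
          -((3 * X ^ 2 + a) * (X ^ 2 + 3 * a)) / (2 * X ^ 2) := by
        field_simp
        ring
      rw [this]
      exact div_ne_zero (neg_ne_zero.2 (mul_ne_zero h1 h2)) (mul_ne_zero (by norm_num) (pow_ne_zero _ hX))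
    · rw [ht, ← map_mul, ← map_add, Ne, map_eq_zero]
      have : -(3 * X ^ 2 + a) ^ 2 * (X ^ 2 + 3 * a) / (6 * X ^ 3) * (3 * a / X) +
          -(3 * X ^ 2 + a) ^ 3 * (X ^ 2 + 3 * a) / (16 * X ^ 4) =
          -(3 * ((3 * X ^ 2 + a) ^ 2 * (X ^ 2 + 3 * a) ^ 2)) / (16 * X ^ 4) := by
        field_simp
        ring
      rw [this]
      exact div_ne_zero (neg_ne_zero.2 (mul_ne_zero (by norm_num) (mul_ne_zero (pow_ne_zero _ h1)
        (pow_ne_zero _ h2)))) (mul_ne_zero (by norm_num) (pow_ne_zero _ hX))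

/-- the second case -/
lemma case2 {F Ω : Type} [Field F] [CharZero F] [Field Ω] [Algebra F Ω] [IsAlgClosed Ω]
    (a b p q q' : F) (ha : a ≠ 0) (hd : 4 * a ^ 3 + 27 * b ^ 2 ≠ 0) (hp : p ≠ 0)
    (h : Pair a b p q q') :
    ∃ (N W G : F[X]) (α β : F), α ≠ 0 ∧ β ≠ 0 ∧ G ≠ 0 ∧
      (∀ t : F, W.eval t ≠ 0 →
        W.eval t ^ 4 * DD a b t (N.eval t / W.eval t) = G.eval t ^ 2 * (α * t ^ 2 + β)) ∧
      ∃ t₀ : Ω, aeval t₀ W = 0 ∧ aeval t₀ (derivative W) ≠ 0 ∧ aeval t₀ N ≠ 0 ∧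
        algebraMap F Ω α * t₀ ^ 2 + algebraMap F Ω β ≠ 0 := by
  have hcΩ : CharZero Ω := charZero_of_injective_algebraMap (algebraMap F Ω).injective
  obtain ⟨h1, h2, h3⟩ := h
  have ha2 : a ^ 2 ≠ 0 := pow_ne_zero _ ha
  have hq : q ≠ 0 := by
    rintro rfl
    apply ha2
    linear_combination h3
  obtain ⟨w, hw⟩ : ∃ w : F, w = q / a := ⟨_, rfl⟩
  have hw0 : w ≠ 0 := by rw [hw]; exact div_ne_zero hq ha
  have hqw : q = a * w := by rw [hw]; field_simp
  obtain ⟨D, hD⟩ : ∃ D : F, D = 3 * w ^ 2 - 6 * w - 1 := ⟨_, rfl⟩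
  have haD : a * D = 3 * w * p ^ 2 := by
    have h4 : a * (a * D) = a * (3 * w * p ^ 2) := by
      have h5 : 3 * q ^ 2 - a ^ 2 - 6 * a * q = 3 * q * p ^ 2 := by
        linear_combination 3 * q * h1 - h3
      rw [hD]
      rw [hqw] at h5
      linear_combination h5
    exact mul_left_cancel₀ ha h4
  have hD0 : D ≠ 0 := by
    intro h0
    rw [h0, mul_zero] at haD
    exact (mul_ne_zero (mul_ne_zero (by norm_num) hw0) (pow_ne_zero _ hp)) haD.symm
  have haw : a = 3 * w * p ^ 2 / D := by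
    rw [eq_div_iff hD0, haD]
  have hq' : q' = -a / (3 * w) := by
    rw [eq_div_iff (mul_ne_zero (by norm_num) hw0)]
    have h4 : a * (q' * (3 * w)) = a * (-a) := by
      rw [hqw] at h3
      linear_combination h3
    exact mul_left_cancel₀ ha h4
  have hb : b = -p * (3 * w * p ^ 2 / D) * (1 + 3 * w ^ 2) / (12 * w) := by
    rw [← haw]
    have h4 : b = p * (q' - q) / 4 := by
      rw [h2]
      ring
    rw [h4, hq', hqw]
    field_simp
    ring
  have h3w : 1 + 3 * w ≠ 0 := by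
    intro h0
    have hw3 : w = -1 / 3 := by
      field_simp
      linear_combination h0
    apply hd
    rw [hb, haw, hD, hw3]
    field_simp
    ring
  refine ⟨C p * Polynomial.X ^ 2 + C ((3 * w * p ^ 2 / D) * (1 + 3 * w)), C 2 * Polynomial.X,
    Polynomial.X ^ 4 + C (3 * p) * Polynomial.X ^ 2 + C (9 * ((3 * w * p ^ 2 / D) * w)),
    8 * p * (-p ^ 2 * (3 * w + 1) ^ 2 / D), -(3 * p ^ 4 * (1 + 3 * w) ^ 4) / D ^ 2,
    ?_, ?_, ?_, ?_, ?_⟩
  · rw [add_comm] at h3w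
    exact mul_ne_zero (mul_ne_zero (by norm_num) hp) (div_ne_zero (mul_ne_zero
      (neg_ne_zero.2 (pow_ne_zero _ hp)) (pow_ne_zero _ h3w)) hD0)
  · exact div_ne_zero (neg_ne_zero.2 (mul_ne_zero (mul_ne_zero (by norm_num) (pow_ne_zero _ hp))
      (pow_ne_zero _ h3w))) (pow_ne_zero _ hD0)
  · intro h0
    have h4 := congrArg (Polynomial.eval 0) h0
    simp only [eval_add, eval_mul, eval_pow, eval_X, eval_C, eval_zero] at h4
    rw [← haw, ← hqw] at h4
    apply hq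
    have h5 : 9 * q = 0 := by linear_combination h4
    exact (mul_eq_zero.1 h5).resolve_left (by norm_num)
  · intro t ht
    rw [hom _ _ _ _ _ ht]
    simp only [eval_add, eval_mul, eval_pow, eval_X, eval_C]
    have h4 := id2 p w t D hw0 hD0 hD
    rw [← hb, ← haw] at h4
    rw [← haw]
    exact h4
  · refine ⟨0, ?_, ?_, ?_, ?_⟩
    · simp
    · simp
    · simp only [map_add, map_mul, map_pow, aeval_X, aeval_C]
      rw [← haw]
      have h5 : algebraMap F Ω (a * (1 + 3 * w)) ≠ 0 := by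
        rw [Ne, map_eq_zero]
        exact mul_ne_zero ha h3w
      rw [zero_pow two_ne_zero, mul_zero, zero_add]
      simpa using h5
    · rw [zero_pow two_ne_zero, mul_zero, zero_add, Ne, map_eq_zero]
      exact div_ne_zero (neg_ne_zero.2 (mul_ne_zero (mul_ne_zero (by norm_num) (pow_ne_zero _ hp))
        (pow_ne_zero _ h3w))) (pow_ne_zero _ hD0)

end SecAux

open SecAux in
theorem sec : S_SEC := by
  intro F Ω _ _ _ _ _ a b ha hb hd h
  rcases h with ⟨X, hX⟩ | ⟨p, q, q', hp, h⟩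
  · exact case1 a b X ha hd hX
  · exact case2 a b p q q' ha hd hp h

end Pool.Agent.N683.H2
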