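import Pool.Agent.N683.H2.Stm3

/-!
# Conics and pythagorean quadratic extensions (helper407)
-/

set_option autoImplicit false

namespace Pool.Agent.N683.H2

open IntermediateField

/-- **Task CONIC2.** -/
theorem conic2 : S_CONIC2 := by
  intro F _ _ α β hα hβ
  by_cases h : ∃ t : F, α * t ^ 2 + β ≠ 0 ∧ ¬ IsSquare (β * (α * t ^ 2 + β))
  · obtain ⟨t, h1, h2⟩ := h
    exact Or.inl ⟨β, α * t ^ 2 + β, 0, 1, t, 1, hβ, h1, h2, one_ne_zero, one_ne_zero, by ring, by ring⟩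
  right
  push Not at h
  obtain ⟨u, hu⟩ : ∃ u, u = α / β := ⟨_, rfl⟩
  have hu0 : u ≠ 0 := by rw [hu]; exact div_ne_zero hα hβ
  have hsq : ∀ t : F, ∃ w : F, w ^ 2 = 1 + u * t ^ 2 := by
    intro t
    by_cases h0 : α * t ^ 2 + β = 0
    · refine ⟨0, ?_⟩
      have : 1 + u * t ^ 2 = (α * t ^ 2 + β) / β := by
        rw [hu]
        field_simp
        ring
      rw [this, h0]
      simp
    · obtain ⟨z, hz⟩ := h t h0
      refine ⟨z / β, ?_⟩
      rw [div_pow, sq z, ← hz, hu]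
      field_simp
      ring
  by_cases hu1 : u = -1
  · have hz : ∀ z : F, z ≠ -1 → ∃ w : F, w ^ 2 = z := by
      intro z hz
      have hz' : z + 1 ≠ 0 := fun h0 => hz (eq_neg_of_add_eq_zero_left h0)
      obtain ⟨w, hw⟩ := hsq ((z - 1) / (z + 1))
      refine ⟨w * (z + 1) / 2, ?_⟩
      rw [div_pow, mul_pow, hw, hu1]
      field_simp
      ring
    intro t
    by_cases h1 : 1 + t ^ 2 = -1
    · obtain ⟨a, ha⟩ := hz 2 (by
        intro h2
        have : (3 : F) = 0 := by linear_combination h2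
        exact three_ne_zero this)
      obtain ⟨b, hb⟩ := hz (-2) (by
        intro h2
        have : (1 : F) = 0 := by linear_combination -h2
        exact one_ne_zero this)
      refine ⟨b / a, ?_⟩
      rw [div_pow, ha, hb, h1]
      field_simp
    · exact hz _ h1
  · obtain ⟨p, hp⟩ := hsq 1
    obtain ⟨s, hs⟩ := hsq (1 / u)
    have hp0 : p ≠ 0 := by
      rintro rfl
      apply hu1
      linear_combination -hp
    have hu1' : 1 + u ≠ 0 := by
      intro h0
      apply hu1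
      linear_combination h0
    have hs1 : u * s ^ 2 = p ^ 2 := by
      rw [hs, hp]
      field_simp
      ring
    have hs0 : s ≠ 0 := by
      rintro rfl
      rw [zero_pow two_ne_zero, mul_zero] at hs1
      exact hp0 (pow_eq_zero_iff two_ne_zero |>.1 hs1.symm)
    intro t
    obtain ⟨w, hw⟩ := hsq (t * s / p)
    refine ⟨w, ?_⟩
    rw [hw]
    congr 1
    rw [div_pow, mul_pow, mul_comm (t ^ 2), ← mul_div_assoc, ← mul_assoc, hs1]
    field_simp

/-- **Task DIL** (Diller, Dress). -/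
theorem dil : S_DIL := by
  intro K Ω _ _ _ _ F F' p hFF' hpF' hpF hp2 hdec hpy t ht
  have key : ∀ a ∈ F, ∀ b ∈ F, a + b * p = 0 → b = 0 := by
    intro a ha b hb h
    by_contra hb0
    apply hpF
    have : p = -a / b := by
      field_simp
      linear_combination h
    rw [this]
    exact F.div_mem (F.neg_mem ha) hb
  obtain ⟨w, hw, hw2⟩ := hpy t (hFF' ht)
  obtain ⟨a, ha, b, hb, rfl⟩ := hdec w hw
  have h2F : (2 : Ω) ∈ F := by
    have := F.add_mem F.one_mem F.one_mem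
    rwa [one_add_one_eq_two] at this
  have h1 : 2 * a * b = 0 := by
    refine key (a ^ 2 + b ^ 2 * p ^ 2 - (1 + t ^ 2)) ?_ (2 * a * b) (F.mul_mem (F.mul_mem h2F ha) hb) ?_
    · exact F.sub_mem (F.add_mem (pow_mem ha 2) (F.mul_mem (pow_mem hb 2) hp2))
        (F.add_mem F.one_mem (pow_mem ht 2))
    · linear_combination hw2
  have h2 : (2 : Ω) ≠ 0 := two_ne_zero
  by_cases hb0 : b = 0
  · exact ⟨a, ha, by rw [← hw2, hb0]; ring⟩
  have ha0 : a = 0 := by
    rcases mul_eq_zero.1 h1 with h3 | h3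
    · rcases mul_eq_zero.1 h3 with h4 | h4
      · exact absurd h4 h2
      · exact h4
    · exact absurd h3 hb0
  exfalso
  rw [ha0, zero_add] at hw2
  -- `D = x² + y²`
  obtain ⟨x, hx⟩ : ∃ x, x = 1 / b := ⟨_, rfl⟩
  obtain ⟨y, hy⟩ : ∃ y, y = t / b := ⟨_, rfl⟩
  have hxF : x ∈ F := by rw [hx]; exact F.div_mem F.one_mem hb
  have hyF : y ∈ F := by rw [hy]; exact F.div_mem ht hb
  have hx0 : x ≠ 0 := by rw [hx]; exact one_div_ne_zero hb0
  have hD : p ^ 2 = x ^ 2 + y ^ 2 := by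
    rw [hx, hy]
    field_simp
    linear_combination hw2
  obtain ⟨s, hs, hs2⟩ := hpy ((p + y) / x) (F'.div_mem (F'.add_mem hpF' (hFF' hyF)) (hFF' hxF))
  obtain ⟨w2, hw2F, hw22⟩ := hpy 1 F'.one_mem
  have hw20 : w2 ^ 2 ≠ 0 := by
    rw [hw22]
    norm_num
  have hw20' : w2 ≠ 0 := fun h => hw20 (by rw [h]; ring)
  obtain ⟨c, hc, d, hd, hg⟩ := hdec (x * s / w2) (F'.div_mem (F'.mul_mem (hFF' hxF) hs) hw2F)
  have hz : (c + d * p) ^ 2 = p ^ 2 + y * p := by
    rw [← hg, div_pow, mul_pow, hs2, hw22]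
    field_simp
    linear_combination -hD
  have hcd : 2 * c * d - y = 0 := by
    refine key (c ^ 2 + d ^ 2 * p ^ 2 - p ^ 2) ?_ (2 * c * d - y)
      (F.sub_mem (F.mul_mem (F.mul_mem h2F hc) hd) hyF) ?_
    · exact F.sub_mem (F.add_mem (pow_mem hc 2) (F.mul_mem (pow_mem hd 2) hp2)) hp2
    · linear_combination hz
  have hD2 : c ^ 2 + d ^ 2 * p ^ 2 = p ^ 2 := by
    linear_combination hz - p * hcd
  have hfin : p ^ 2 = ((c ^ 2 - d ^ 2 * p ^ 2) / x) ^ 2 := by
    rw [div_pow, eq_div_iff (pow_ne_zero 2 hx0)]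
    have e1 : x ^ 2 = p ^ 2 - y ^ 2 := by linear_combination -hD
    have e2 : y = 2 * c * d := by linear_combination -hcd
    rw [e1, e2]
    linear_combination (-(c ^ 2 + d ^ 2 * p ^ 2) - p ^ 2) * hD2
  have hmem : (c ^ 2 - d ^ 2 * p ^ 2) / x ∈ F :=
    F.div_mem (F.sub_mem (pow_mem hc 2) (F.mul_mem (pow_mem hd 2) hp2)) hxF
  rcases sq_eq_sq_iff_eq_or_eq_neg.1 hfin with h3 | h3
  · exact hpF (h3 ▸ hmem)
  · exact hpF (h3 ▸ F.neg_mem hmem)

end Pool.Agent.N683.H2
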