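import Pool.Agent.N683.H2.Stm3
import Pool.Agent.N683.H2.Ind

/-!
# Project H2, task IND2 (helper776): p-adic choice of the parameter for a sum of two points
-/

set_option autoImplicit false

namespace Pool.Agent.N683.H2

open IntermediateField WeierstrassCurve Polynomial
open Pool.Agent.N683.HR (crv cub HasPts)
open Pool.Agent.TH954

theorem ind2_roots {Ω : Type} [Field Ω] [IsAlgClosed Ω] (b c d : Ω) : ∃ e₁ e₂ e₃ : Ω,
    b = -(e₁ + e₂ + e₃) ∧ c = e₁ * e₂ + e₁ * e₃ + e₂ * e₃ ∧ d = -(e₁ * e₂ * e₃) := by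
  obtain ⟨e₁, h1⟩ := IsAlgClosed.exists_root
    (X ^ 3 + C b * X ^ 2 + C c * X + C d : Polynomial Ω) (by
      have : (X ^ 3 + C b * X ^ 2 + C c * X + C d : Polynomial Ω).degree = 3 := by compute_degree!
      rw [this]
      norm_num)
  obtain ⟨e₂, h2⟩ := IsAlgClosed.exists_root
    (X ^ 2 + C (b + e₁) * X + C (c + b * e₁ + e₁ ^ 2) : Polynomial Ω) (by
      have : (X ^ 2 + C (b + e₁) * X + C (c + b * e₁ + e₁ ^ 2) : Polynomial Ω).degree = 2 := by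
        compute_degree!
      rw [this]
      norm_num)
  simp only [IsRoot.def, eval_add, eval_mul, eval_pow, eval_X, eval_C] at h1 h2
  refine ⟨e₁, e₂, -b - e₁ - e₂, by ring, ?_, ?_⟩
  · linear_combination h2
  · linear_combination h1 - e₁ * h2

theorem ind2_dsc {Ω : Type} [Field Ω] {b c d e₁ e₂ e₃ : Ω} (hb : b = -(e₁ + e₂ + e₃))
    (hc : c = e₁ * e₂ + e₁ * e₃ + e₂ * e₃) (hd : d = -(e₁ * e₂ * e₃)) (h : dsc b c d ≠ 0) :
    e₁ ≠ e₂ ∧ e₁ ≠ e₃ ∧ e₂ ≠ e₃ := by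
  have h1 : dsc b c d = ((e₁ - e₂) * (e₁ - e₃) * (e₂ - e₃)) ^ 2 := by
    rw [hb, hc, hd, dsc]; ring
  rw [h1] at h
  refine ⟨?_, ?_, ?_⟩ <;> (rintro rfl; apply h; ring)

theorem ind2_cub {C : Type} [Field C] {b c z₁ z₂ d : C} (h1 : z₁ ^ 3 + b * z₁ ^ 2 + c * z₁ + d = 0)
    (h2 : z₂ ^ 3 + b * z₂ ^ 2 + c * z₂ + d = 0) (hne : z₁ ≠ z₂) {x : C}
    (hx : x ^ 3 + b * x ^ 2 + c * x + d = 0) : x = z₁ ∨ x = z₂ ∨ x = -b - z₁ - z₂ := by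
  have h3 : z₁ ^ 2 + z₁ * z₂ + z₂ ^ 2 + b * (z₁ + z₂) + c = 0 := by
    have h4 : (z₁ - z₂) * (z₁ ^ 2 + z₁ * z₂ + z₂ ^ 2 + b * (z₁ + z₂) + c) = 0 := by
      linear_combination h1 - h2
    exact (mul_eq_zero.1 h4).resolve_left (sub_ne_zero.2 hne)
  have h5 : (x - z₁) * ((x - z₂) * (x - (-b - z₁ - z₂))) = 0 := by
    linear_combination hx - h1 - (x - z₁) * h3
  rcases mul_eq_zero.1 h5 with h | h
  · exact Or.inl (sub_eq_zero.1 h)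
  · rcases mul_eq_zero.1 h with h | h
    · exact Or.inr (Or.inl (sub_eq_zero.1 h))
    · exact Or.inr (Or.inr (sub_eq_zero.1 h))

/-- one root by Hensel's lemma -/
theorem ind2_hensel {p : ℕ} [Fact p.Prime] {b c d b₀ c₀ d₀ e₁ e₂ e₃ : ℚ_[p]}
    (hb₀ : b₀ = -(e₁ + e₂ + e₃)) (hc₀ : c₀ = e₁ * e₂ + e₁ * e₃ + e₂ * e₃)
    (hd₀ : d₀ = -(e₁ * e₂ * e₃)) (he₁ : ‖e₁‖ ≤ 1) (hb : ‖b‖ ≤ 1) (hc : ‖c‖ ≤ 1) (hd : ‖d‖ ≤ 1)
    (hbb : ‖b - b₀‖ < 1) (hcc : ‖c - c₀‖ < 1) (hdd : ‖d - d₀‖ < 1)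
    (h12 : ‖e₁ - e₂‖ = 1) (h13 : ‖e₁ - e₃‖ = 1) :
    ∃ z : ℚ_[p], z ^ 3 + b * z ^ 2 + c * z + d = 0 ∧ ‖z - e₁‖ < 1 := by
  obtain ⟨b', hb'⟩ : ∃ b' : ℤ_[p], (b' : ℚ_[p]) = b := ⟨⟨b, hb⟩, rfl⟩
  obtain ⟨c', hc'⟩ : ∃ c' : ℤ_[p], (c' : ℚ_[p]) = c := ⟨⟨c, hc⟩, rfl⟩
  obtain ⟨d', hd'⟩ : ∃ d' : ℤ_[p], (d' : ℚ_[p]) = d := ⟨⟨d, hd⟩, rfl⟩
  obtain ⟨e', he'⟩ : ∃ e' : ℤ_[p], (e' : ℚ_[p]) = e₁ := ⟨⟨e₁, he₁⟩, rfl⟩
  obtain ⟨F, hF⟩ : ∃ F : Polynomial ℤ_[p], F = X ^ 3 + C b' * X ^ 2 + C c' * X + C d' := ⟨_, rfl⟩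
  have hev : ∀ z : ℤ_[p], ((F.eval z : ℤ_[p]) : ℚ_[p]) =
      (z : ℚ_[p]) ^ 3 + b * (z : ℚ_[p]) ^ 2 + c * z + d := by
    intro z
    rw [hF]
    simp only [eval_add, eval_mul, eval_pow, eval_X, eval_C]
    push_cast
    rw [hb', hc', hd']
  have hev' : ∀ z : ℤ_[p], ((F.derivative.eval z : ℤ_[p]) : ℚ_[p]) =
      3 * (z : ℚ_[p]) ^ 2 + b * (2 * (z : ℚ_[p])) + c := by
    intro z
    have h1 : F.derivative.eval z = z ^ 2 + z ^ 2 + z ^ 2 + b' * (z + z) + c' := by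
      rw [hF]
      simp
      ring
    rw [h1]
    push_cast
    rw [hb', hc']
    ring
  have hsm : ∀ {x y : ℚ_[p]}, ‖x‖ < 1 → ‖y‖ < 1 → ‖x + y‖ < 1 := fun hx hy =>
    lt_of_le_of_lt (IsUltrametricDist.norm_add_le_max _ _) (max_lt hx hy)
  have hmu : ∀ {x y : ℚ_[p]}, ‖x‖ < 1 → ‖y‖ ≤ 1 → ‖x * y‖ < 1 := fun hx hy => by
    rw [norm_mul]
    exact lt_of_le_of_lt (mul_le_of_le_one_right (norm_nonneg _) hy) hx
  have h2 : ‖(2 : ℚ_[p])‖ ≤ 1 := by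
    have := Padic.norm_int_le_one (p := p) 2
    simpa using this
  have hv1 : ‖F.eval e'‖ < 1 := by
    rw [PadicInt.norm_def, hev, he']
    have e2 : e₁ ^ 3 + b * e₁ ^ 2 + c * e₁ + d = (b - b₀) * e₁ ^ 2 + (c - c₀) * e₁ + (d - d₀) := by
      rw [hb₀, hc₀, hd₀]; ring
    rw [e2]
    refine hsm (hsm (hmu hbb ?_) (hmu hcc he₁)) hdd
    rw [norm_pow]
    exact pow_le_one₀ (norm_nonneg _) he₁
  have hv2 : ‖F.derivative.eval e'‖ = 1 := by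
    rw [PadicInt.norm_def, hev', he']
    have e2 : 3 * e₁ ^ 2 + b * (2 * e₁) + c =
        (e₁ - e₂) * (e₁ - e₃) + ((b - b₀) * (2 * e₁) + (c - c₀)) := by
      rw [hb₀, hc₀]; ring
    rw [e2]
    have h3 : ‖(b - b₀) * (2 * e₁) + (c - c₀)‖ < 1 := by
      refine hsm (hmu hbb ?_) hcc
      rw [norm_mul]
      exact mul_le_one₀ h2 (norm_nonneg _) he₁
    have h4 : ‖(e₁ - e₂) * (e₁ - e₃)‖ = 1 := by rw [norm_mul, h12, h13, one_mul]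
    have h5 := IsUltrametricDist.norm_add_eq_max_of_norm_ne_norm
      (x := (e₁ - e₂) * (e₁ - e₃)) (y := (b - b₀) * (2 * e₁) + (c - c₀)) (by
        rw [h4]; exact h3.ne')
    rw [h5, h4]
    exact max_eq_left h3.le
  obtain ⟨z, hz1, hz2, -⟩ := hensels_lemma (p := p) (F := F) (a := e') (by
    rw [Polynomial.coe_aeval_eq_eval]
    show ‖F.eval e'‖ < ‖F.derivative.eval e'‖ ^ 2
    rw [hv2]
    simpa using hv1)
  rw [Polynomial.coe_aeval_eq_eval] at hz1 hz2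
  refine ⟨(z : ℚ_[p]), ?_, ?_⟩
  · rw [← hev, hz1]
    rfl
  · have h7 : ‖z - e'‖ < 1 := by
      rw [← hv2]; exact hz2
    rw [PadicInt.norm_def] at h7
    rw [← he']
    push_cast at h7
    exact h7

open Filter Topology in
theorem ind2_approx {C : Type} [NormedField C] {T₁ T₂ N W : C[X]} {s₀ t₀ : C}
    (h2 : T₂.eval s₀ ≠ 0) (h1 : T₁.eval s₀ = t₀ * T₂.eval s₀) (hW : W.eval t₀ ≠ 0) :
    ∃ δ : ℝ, 0 < δ ∧ ∀ s : C, ‖s - s₀‖ < δ →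
      ‖T₁.eval s / T₂.eval s - t₀‖ < 1 ∧
      ‖N.eval (T₁.eval s / T₂.eval s) / W.eval (T₁.eval s / T₂.eval s) -
        N.eval t₀ / W.eval t₀‖ < 1 := by
  have hcT : ∀ P : C[X], ContinuousAt (fun s => P.eval s) s₀ := fun P => P.continuous.continuousAt
  have hct : ContinuousAt (fun s => T₁.eval s / T₂.eval s) s₀ := (hcT T₁).div (hcT T₂) h2
  have ht0 : T₁.eval s₀ / T₂.eval s₀ = t₀ := by rw [h1]; field_simp
  have hcP : ∀ P : C[X], ContinuousAt (fun s => P.eval (T₁.eval s / T₂.eval s)) s₀ := by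
    intro P
    exact ContinuousAt.comp (g := fun t => P.eval t) P.continuous.continuousAt hct
  have hcn : ContinuousAt (fun s => N.eval (T₁.eval s / T₂.eval s) /
      W.eval (T₁.eval s / T₂.eval s)) s₀ := (hcP N).div (hcP W) (by
        simp only [ht0]; exact hW)
  rw [Metric.continuousAt_iff] at hct hcn
  obtain ⟨δ1, hδ1, h3⟩ := hct 1 one_pos
  obtain ⟨δ2, hδ2, h4⟩ := hcn 1 one_pos
  refine ⟨min δ1 δ2, lt_min hδ1 hδ2, fun s hs => ⟨?_, ?_⟩⟩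
  · have h5 := h3 (x := s) (by rw [dist_eq_norm]; exact hs.trans_le (min_le_left _ _))
    rwa [dist_eq_norm, ht0] at h5
  · have h5 := h4 (x := s) (by rw [dist_eq_norm]; exact hs.trans_le (min_le_right _ _))
    rwa [dist_eq_norm, ht0] at h5

/-- The point `P'` becomes a point over `ℚ_p`: roots of the cubic. -/
theorem ind2_root {p : ℕ} [Fact p.Prime] {A B t n t₀ n₀ e₁ e₂ e₃ : ℚ_[p]} (hA : ‖A‖ ≤ 1)
    (hB : ‖B‖ ≤ 1) (ht₀ : ‖t₀‖ ≤ 1) (hn₀ : ‖n₀‖ ≤ 1) (ht : ‖t - t₀‖ < 1) (hn : ‖n - n₀‖ < 1)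
    (he₁ : ‖e₁‖ ≤ 1) (he₂ : ‖e₂‖ ≤ 1) (h12 : ‖e₁ - e₂‖ = 1) (h13 : ‖e₁ - e₃‖ = 1)
    (h23 : ‖e₂ - e₃‖ = 1) (hb : -t₀ ^ 2 = -(e₁ + e₂ + e₃))
    (hc : A - 2 * t₀ * n₀ = e₁ * e₂ + e₁ * e₃ + e₂ * e₃) (hd : B - n₀ ^ 2 = -(e₁ * e₂ * e₃))
    {C : Type} [Field C] (f : ℚ_[p] →+* C) {x y : C} (hy : y = f t * x + f n)
    (he : y ^ 2 = x ^ 3 + f A * x + f B) : x ∈ f.fieldRange := by
  have hsm : ∀ {x y : ℚ_[p]}, ‖x‖ < 1 → ‖y‖ < 1 → ‖x + y‖ < 1 := fun hx hy =>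
    lt_of_le_of_lt (IsUltrametricDist.norm_add_le_max _ _) (max_lt hx hy)
  have hsl : ∀ {x y : ℚ_[p]}, ‖x‖ ≤ 1 → ‖y‖ ≤ 1 → ‖x + y‖ ≤ 1 := fun hx hy =>
    (IsUltrametricDist.norm_add_le_max _ _).trans (max_le hx hy)
  have hmu : ∀ {x y : ℚ_[p]}, ‖x‖ < 1 → ‖y‖ ≤ 1 → ‖x * y‖ < 1 := fun hx hy => by
    rw [norm_mul]
    exact lt_of_le_of_lt (mul_le_of_le_one_right (norm_nonneg _) hy) hx
  have hml : ∀ {x y : ℚ_[p]}, ‖x‖ ≤ 1 → ‖y‖ ≤ 1 → ‖x * y‖ ≤ 1 := fun hx hy => by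
    rw [norm_mul]
    exact mul_le_one₀ hx (norm_nonneg _) hy
  have hng : ∀ {x : ℚ_[p]}, ‖x‖ ≤ 1 → ‖-x‖ ≤ 1 := fun hx => by rwa [norm_neg]
  have h2 : ‖(2 : ℚ_[p])‖ ≤ 1 := by
    have := Padic.norm_int_le_one (p := p) 2
    simpa using this
  have ht1 : ‖t‖ ≤ 1 := by
    have := hsl ht.le ht₀
    rwa [sub_add_cancel] at this
  have hn1 : ‖n‖ ≤ 1 := by
    have := hsl hn.le hn₀
    rwa [sub_add_cancel] at this
  have k1 : ‖-t ^ 2‖ ≤ 1 := by rw [pow_two]; exact hng (hml ht1 ht1)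
  have k2 : ‖A - 2 * t * n‖ ≤ 1 := by
    rw [sub_eq_add_neg]; exact hsl hA (hng (hml (hml h2 ht1) hn1))
  have k3 : ‖B - n ^ 2‖ ≤ 1 := by
    rw [sub_eq_add_neg, pow_two]; exact hsl hB (hng (hml hn1 hn1))
  have m1 : ‖-t ^ 2 - -t₀ ^ 2‖ < 1 := by
    have e : -t ^ 2 - -t₀ ^ 2 = (t - t₀) * (-(t + t₀)) := by ring
    rw [e]; exact hmu ht (hng (hsl ht1 ht₀))
  have m2 : ‖(A - 2 * t * n) - (A - 2 * t₀ * n₀)‖ < 1 := by
    have e : (A - 2 * t * n) - (A - 2 * t₀ * n₀) =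
        (t - t₀) * (-(2 * n)) + (n - n₀) * (-(2 * t₀)) := by ring
    rw [e]; exact hsm (hmu ht (hng (hml h2 hn1))) (hmu hn (hng (hml h2 ht₀)))
  have m3 : ‖(B - n ^ 2) - (B - n₀ ^ 2)‖ < 1 := by
    have e : (B - n ^ 2) - (B - n₀ ^ 2) = (n - n₀) * (-(n + n₀)) := by ring
    rw [e]; exact hmu hn (hng (hsl hn1 hn₀))
  obtain ⟨z₁, hz1, hz1'⟩ := ind2_hensel hb hc hd he₁ k1 k2 k3 m1 m2 m3 h12 h13
  obtain ⟨z₂, hz2, hz2'⟩ := ind2_hensel (e₁ := e₂) (e₂ := e₁) (e₃ := e₃)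
    (by rw [hb]; ring) (by rw [hc]; ring) (by rw [hd]; ring) he₂ k1 k2 k3 m1 m2 m3
    (by rw [← neg_sub, norm_neg]; exact h12) h23
  have hne : z₁ ≠ z₂ := by
    rintro rfl
    have h3 : ‖e₁ - e₂‖ < 1 := by
      have e : e₁ - e₂ = (z₁ - e₂) + (-(z₁ - e₁)) := by ring
      rw [e]
      exact hsm hz2' (by rw [norm_neg]; exact hz1')
    linarith
  have hz1f : (f z₁) ^ 3 + f (-t ^ 2) * (f z₁) ^ 2 + f (A - 2 * t * n) * f z₁ + f (B - n ^ 2) =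
      0 := by
    rw [← map_pow, ← map_pow, ← map_mul, ← map_mul, ← map_add, ← map_add, ← map_add, hz1, map_zero]
  have hz2f : (f z₂) ^ 3 + f (-t ^ 2) * (f z₂) ^ 2 + f (A - 2 * t * n) * f z₂ + f (B - n ^ 2) =
      0 := by
    rw [← map_pow, ← map_pow, ← map_mul, ← map_mul, ← map_add, ← map_add, ← map_add, hz2, map_zero]
  have hxf : x ^ 3 + f (-t ^ 2) * x ^ 2 + f (A - 2 * t * n) * x + f (B - n ^ 2) = 0 := by
    simp only [map_neg, map_sub, map_pow, map_mul, map_ofNat]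
    rw [hy] at he
    linear_combination -he
  rcases ind2_cub hz1f hz2f (fun h => hne (f.injective h)) hxf with h | h | h
  · exact ⟨z₁, h.symm⟩
  · exact ⟨z₂, h.symm⟩
  · refine ⟨- -t ^ 2 - z₁ - z₂, ?_⟩
    rw [h, map_sub, map_sub, map_neg]

theorem ind2_eval {Ω : Type} [Field Ω] (M : Subfield Ω) (P : Polynomial Ω)
    (h : ∀ i, P.coeff i ∈ M) {a : Ω} (ha : a ∈ M) : P.eval a ∈ M := by
  rw [eval_eq_sum_range]
  exact Subfield.sum_mem _ fun i _ => Subfield.mul_mem _ (h i) (Subfield.pow_mem _ ha i)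

/-- **Task IND2.** -/
theorem ind2 : S_IND2 := by
  classical
  have hlog : LogStm := logStm
  intro K Ω _ _ _ _ _ _ hdec A B hAB L hfd T₁ T₂ N W T₁' T₂' N' W' s₀ t₀ t₀' hT2 hT1 hd hW hW' hN
    hT2' hT1' hWp hDD T hT
  have : CharZero Ω := charZero_of_injective_algebraMap (algebraMap K Ω).injective
  have : IsScalarTower ℚ K Ω := IsScalarTower.of_algebraMap_eq fun x => by simp
  have : Algebra.IsAlgebraic ℚ Ω := Algebra.IsAlgebraic.trans ℚ K Ω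
  have : NumberField L := NumberField.of_module_finite K L
  set b := Module.finBasis ℚ L with hb
  set D : Ω := (derivative T₁).eval s₀ - t₀ * (derivative T₂).eval s₀ with hDdef
  have hD0 : D ≠ 0 := by
    intro h0
    apply hd
    have : (derivative T₁).eval s₀ * T₂.eval s₀ - T₁.eval s₀ * (derivative T₂).eval s₀ =
        T₂.eval s₀ * D := by rw [hDdef, hT1]; ring
    rw [this, h0, mul_zero]
  obtain ⟨n₀', hn₀'⟩ : ∃ n₀' : Ω, n₀' = N'.eval t₀' / W'.eval t₀' := ⟨_, rfl⟩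
  rw [← hn₀'] at hDD
  obtain ⟨e₁, e₂, e₃, hr1, hr2, hr3⟩ := ind2_roots (-t₀' ^ 2)
    (algebraMap K Ω A - 2 * t₀' * n₀') (algebraMap K Ω B - n₀' ^ 2)
  obtain ⟨hne12, hne13, hne23⟩ := ind2_dsc hr1 hr2 hr3 hDD
  obtain ⟨S₀, hS₀⟩ : ∃ S₀ : Finset Ω, S₀ = {algebraMap K Ω A, algebraMap K Ω B, s₀, t₀,
      N.eval t₀, T₂.eval s₀, (derivative W).eval t₀, D, t₀', n₀', e₁, e₂, e₃, (e₁ - e₂)⁻¹,
      (e₁ - e₃)⁻¹, (e₂ - e₃)⁻¹} := ⟨_, rfl⟩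
  obtain ⟨S₁, hS₁⟩ : ∃ S₁ : Finset Ω, S₁ = T₁'.coeffs ∪ T₂'.coeffs ∪ N'.coeffs ∪ W'.coeffs :=
    ⟨_, rfl⟩
  obtain ⟨p, hpF, M, τ, ψ, hp3, hψ, hSM', hS1'⟩ := emb
    ((Finset.univ.image fun i => ((b i : L) : Ω)) ∪ (S₀ ∪ S₁) : Finset Ω)
  have hSM : ∀ x ∈ S₀, x ∈ M := fun x hx => hSM' x (by
    rw [Finset.mem_union, Finset.mem_union]; exact Or.inr (Or.inl hx))
  have hS1 : ∀ x ∈ S₀, ‖ψ x‖ ≤ 1 := fun x hx => hS1' x (by
    rw [Finset.mem_union, Finset.mem_union]; exact Or.inr (Or.inl hx))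
  have hSc : ∀ x ∈ S₁, x ∈ M := fun x hx => hSM' x (by
    rw [Finset.mem_union, Finset.mem_union]; exact Or.inr (Or.inr hx))
  have hp := hpF.out
  have hp1 : (1 : ℝ) < p := by exact_mod_cast hp.one_lt
  have hp0 : (0 : ℝ) < p := by linarith
  have hLM : ∀ x ∈ L, x ∈ M := by
    intro x hx
    have h1 : x = (((∑ i, b.repr ⟨x, hx⟩ i • b i : L)) : Ω) := by rw [b.sum_repr]
    rw [h1, IntermediateField.coe_sum]
    refine Subfield.sum_mem _ fun i _ => ?_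
    have h2 : ((b.repr ⟨x, hx⟩ i • b i : L) : Ω) = ((b.repr ⟨x, hx⟩ i : ℚ) : Ω) * ((b i : L) : Ω) := by
      rw [Algebra.smul_def]
      simp
    rw [h2]
    refine Subfield.mul_mem _ (SubfieldClass.ratCast_mem _ _) (hSM' _ ?_)
    exact Finset.mem_union_left _ (Finset.mem_image_of_mem _ (Finset.mem_univ i))
  have hcM : ∀ P : Polynomial Ω, P.coeffs ⊆ S₁ → ∀ i, P.coeff i ∈ M := by
    intro P hP i
    by_cases h0 : P.coeff i = 0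
    · rw [h0]; exact Subfield.zero_mem _
    · exact hSc _ (hP (coeff_mem_coeffs h0))
  have hcT1 := hcM T₁' (by rw [hS₁]; intro x hx; simp only [Finset.mem_union]; tauto)
  have hcT2 := hcM T₂' (by rw [hS₁]; intro x hx; simp only [Finset.mem_union]; tauto)
  have hcN := hcM N' (by rw [hS₁]; intro x hx; simp only [Finset.mem_union]; tauto)
  have hcW := hcM W' (by rw [hS₁]; intro x hx; simp only [Finset.mem_union]; tauto)
  have hpowQ : ∀ x : ℚ_[p], x ≠ 0 → ∃ j : ℤ, ‖algebraMap ℚ_[p] (PadicAlgCl p) x‖ = (p : ℝ) ^ j := by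
    intro x hx
    rw [norm_algebraMap', Padic.norm_eq_zpow_neg_valuation hx]
    exact ⟨_, rfl⟩
  have hpow : ∀ x ∈ M, x ≠ 0 → ∃ j : ℤ, ‖ψ x‖ = (p : ℝ) ^ j := by
    intro x hx hx0
    have h1 := hψ ⟨x, hx⟩
    have h2 : τ ⟨x, hx⟩ ≠ 0 := by
      rw [Ne, map_eq_zero]
      intro h0
      exact hx0 (congrArg Subtype.val h0)
    rw [h1]
    exact hpowQ _ h2
  have hnat : ∀ m : ℕ, ‖((m : ℕ) : PadicAlgCl p)‖ = ‖(m : ℚ_[p])‖ := by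
    intro m
    rw [← norm_algebraMap' (𝕜' := PadicAlgCl p) (m : ℚ_[p]), map_natCast]
  have hrat : ∀ q : ℚ, ψ (q : Ω) = algebraMap ℚ_[p] (PadicAlgCl p) (q : ℚ_[p]) := by
    intro q
    rw [map_ratCast, map_ratCast]
  have hs₀M : s₀ ∈ M := hSM _ (by rw [hS₀]; simp)
  -- the constant
  obtain ⟨j1, hj1⟩ := hpow _ (hSM (N.eval t₀) (by rw [hS₀]; simp)) hN
  obtain ⟨j2, hj2⟩ := hpow _ (hSM (T₂.eval s₀) (by rw [hS₀]; simp)) hT2
  obtain ⟨j3, hj3⟩ := hpow _ (hSM ((derivative W).eval t₀) (by rw [hS₀]; simp)) hW'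
  obtain ⟨j4, hj4⟩ := hpow _ (hSM D (by rw [hS₀]; simp)) hD0
  have hev : ∀ (P : Polynomial Ω) (a : Ω), (P.map ψ).eval (ψ a) = ψ (P.eval a) := by
    intro P a
    rw [eval_map, eval₂_hom]
  have hne : ∀ a : Ω, a ≠ 0 → ψ a ≠ 0 := fun a ha => (map_ne_zero ψ).2 ha
  obtain ⟨δ, hδ, happ⟩ := approx (T₁ := T₁.map ψ) (T₂ := T₂.map ψ) (N := N.map ψ) (W := W.map ψ)
    (s₀ := ψ s₀) (t₀ := ψ t₀) (by rw [hev]; exact hne _ hT2)
    (by rw [hev, hev, hT1, map_mul])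
    (by
      rw [derivative_map, derivative_map, hev, hev, ← map_mul, ← map_sub]
      exact hne _ hD0)
    (by rw [hev, hW, map_zero]) (by rw [derivative_map, hev]; exact hne _ hW')
    (by rw [hev]; exact hne _ hN)
  obtain ⟨δ', hδ', happ'⟩ := ind2_approx (T₁ := T₁'.map ψ) (T₂ := T₂'.map ψ) (N := N'.map ψ)
    (W := W'.map ψ) (s₀ := ψ s₀) (t₀ := ψ t₀') (by rw [hev]; exact hne _ hT2')
    (by rw [hev, hev, hT1', map_mul]) (by rw [hev]; exact hne _ hWp)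
  -- the approximations
  choose w hw using fun k : ℕ => Pool.Agent.N683.HR.exists_rat_dist (p := p) (τ ⟨s₀, hs₀M⟩) k
  have hwψ : ∀ k, ‖ψ (w k : Ω) - ψ s₀‖ = (p : ℝ) ^ (-(k : ℤ)) := by
    intro k
    have h1 := hψ ⟨s₀, hs₀M⟩
    rw [hrat, h1, ← map_sub, norm_algebraMap', hw]
  set e : ℤ := j1 + j2 - j4 - j3 with he
  obtain ⟨N0, hN0⟩ : ∃ N0 : ℕ, (p : ℝ) ^ (-(N0 : ℤ)) < min δ δ' := by
    obtain ⟨n, hn⟩ := exists_pow_lt_of_lt_one (lt_min hδ hδ') (inv_lt_one_of_one_lt₀ hp1)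
    refine ⟨n, ?_⟩
    rw [zpow_neg, zpow_natCast, ← inv_pow]
    exact hn
  obtain ⟨c, hc⟩ : ∃ c : ℕ, (e + c) % 3 = 1 := by
    have h3 : e % 3 = 0 ∨ e % 3 = 1 ∨ e % 3 = 2 := by omega
    rcases h3 with h | h | h
    · exact ⟨1, by push_cast; omega⟩
    · exact ⟨0, by push_cast; omega⟩
    · exact ⟨2, by push_cast; omega⟩
  obtain ⟨E, hE⟩ : ∃ E : ℕ, -e ≤ E := ⟨e.natAbs, by omega⟩
  set kk : ℕ → ℕ := fun j => c + 3 * (N0 + E + 2 + j) with hkk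
  have hinj : Function.Injective fun j => w (kk j) := by
    intro j j' hjj
    have h1 : w (kk j) = w (kk j') := hjj
    have h2 := hw (kk j)
    rw [h1, hw] at h2
    have h3 := zpow_right_injective₀ hp0 hp1.ne' h2
    simp only [hkk] at h3
    push_cast at h3
    omega
  obtain ⟨j, hj⟩ : ∃ j, w (kk j) ∉ T := by
    by_contra hcon
    push Not at hcon
    exact (Set.infinite_of_injective_forall_mem hinj hcon) hT
  set k := kk j with hk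
  set s : ℚ := w k with hs
  have hsn := hwψ k
  have hslt0 : ‖ψ (s : Ω) - ψ s₀‖ < min δ δ' := by
    rw [hsn]
    refine lt_of_le_of_lt ?_ hN0
    apply zpow_le_zpow_right₀ hp1.le
    rw [hk]
    simp only [hkk]
    push_cast
    omega
  have hslt : ‖ψ (s : Ω) - ψ s₀‖ < δ := hslt0.trans_le (min_le_left _ _)
  have hslt' : ‖ψ (s : Ω) - ψ s₀‖ < δ' := hslt0.trans_le (min_le_right _ _)
  have hsne : ψ (s : Ω) ≠ ψ s₀ := by
    rw [← sub_ne_zero, ← norm_pos_iff, hsn]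
    positivity
  obtain ⟨a1, a2, a3, a4⟩ := happ (ψ (s : Ω)) hslt hsne
  rw [hev] at a1
  rw [hev, hev, ← map_div₀] at a2 a3 a4
  rw [hev] at a3 a4
  rw [hev, ← map_div₀, derivative_map, derivative_map, derivative_map, hev, hev, hev, hev, hev,
    ← map_mul, ← map_sub, ← hDdef, hj1, hj2, hj3, hj4, hsn] at a4
  have b1 : T₂.eval (s : Ω) ≠ 0 := fun h => a1 (by rw [h, map_zero])
  have b3 : W.eval (T₁.eval (s : Ω) / T₂.eval (s : Ω)) ≠ 0 := fun h => a3 (by rw [h, map_zero])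
  obtain ⟨c1, c2⟩ := happ' (ψ (s : Ω)) hslt'
  rw [hev, hev, ← map_div₀] at c1 c2
  rw [hev, hev, hev, hev, ← map_div₀, ← map_div₀, ← map_sub, ← hn₀'] at c2
  rw [← map_sub] at c1
  refine ⟨s, hj, b1, b3, ?_⟩
  intro x y x' y' hxy hxy' h h' m hm
  set t : Ω := T₁.eval (s : Ω) / T₂.eval (s : Ω) with ht
  set n : Ω := N.eval t / W.eval t with hn
  set t' : Ω := T₁'.eval (s : Ω) / T₂'.eval (s : Ω) with ht'
  set n' : Ω := N'.eval t' / W'.eval t' with hn'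
  have hsM : (s : Ω) ∈ M := SubfieldClass.ratCast_mem _ _
  have ht'M : t' ∈ M := Subfield.div_mem _ (ind2_eval M _ hcT1 hsM) (ind2_eval M _ hcT2 hsM)
  have hn'M : n' ∈ M := Subfield.div_mem _ (ind2_eval M _ hcN ht'M) (ind2_eval M _ hcW ht'M)
  have hv : ‖ψ n‖ = (p : ℝ) ^ (e + k) := by
    rw [a4, he, zpow_neg, div_inv_eq_mul, ← zpow_add₀ hp0.ne', ← zpow_add₀ hp0.ne',
      ← zpow_sub₀ hp0.ne', ← zpow_add₀ hp0.ne']
    congr 1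
    ring
  have hv2 : 2 ≤ e + k := by
    rw [hk]
    simp only [hkk]
    push_cast
    omega
  have hv3 : ¬ (3 : ℤ) ∣ e + k := by
    rw [hk]
    simp only [hkk]
    push_cast
    omega
  have hψt : ‖ψ t‖ ≤ 1 := by
    have h1 : ‖ψ t₀‖ ≤ 1 := hS1 _ (by rw [hS₀]; simp)
    have e1 : ψ t = (ψ t - ψ t₀) + ψ t₀ := by ring
    rw [e1]
    exact uadd a2 h1
  let algK : Algebra K (PadicAlgCl p) := (ψ.comp (algebraMap K Ω)).toAlgebra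
  let f : Ω →ₐ[K] PadicAlgCl p := { ψ with commutes' := fun _ => rfl }
  have hf : ∀ x, f x = ψ x := fun _ => rfl
  have hA1 : ‖algebraMap K (PadicAlgCl p) A‖ ≤ 1 := hS1 _ (by rw [hS₀]; simp)
  have hB1 : ‖algebraMap K (PadicAlgCl p) B‖ ≤ 1 := hS1 _ (by rw [hS₀]; simp)
  have heq : ∀ {x y : Ω}, ((crv A B).baseChange Ω).toAffine.Nonsingular x y →
      y ^ 2 = x ^ 3 + algebraMap K Ω A * x + algebraMap K Ω B := by
    intro x y h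
    have h2 := h.1
    rw [Affine.equation_iff] at h2
    simp [crv, WeierstrassCurve.baseChange, WeierstrassCurve.map] at h2
    exact h2
  have hxn : ‖f x‖ ^ 3 = (p : ℝ) ^ (2 * (e + k)) := by
    have h1 := heq h
    have h2 := line_norm (a := ψ (algebraMap K Ω A)) (b := ψ (algebraMap K Ω B)) (X := ψ x)
      (Y := ψ y) (t := ψ t) (n := ψ n) hA1 hB1 hψt (by
        rw [hv]
        exact one_lt_zpow₀ hp1 (by omega)) (by rw [hxy, map_add, map_mul])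
        (by rw [← map_pow, h1]; simp only [map_add, map_mul, map_pow])
    rw [hf, h2, hv, mul_comm, zpow_mul]
    norm_cast
  -- the field of the points with coordinates in `ℚ_p`
  have hMr : ∀ x ∈ M, ψ x ∈ (algebraMap ℚ_[p] (PadicAlgCl p)).fieldRange := fun x hx =>
    ⟨τ ⟨x, hx⟩, (hψ ⟨x, hx⟩).symm⟩
  have hKM : ∀ a : K, algebraMap K Ω a ∈ M := fun a => hLM _ (L.algebraMap_mem a)
  let F : IntermediateField K (PadicAlgCl p) :=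
    (algebraMap ℚ_[p] (PadicAlgCl p)).fieldRange.toIntermediateField (fun a => hMr _ (hKM a))
  have hFm : ∀ z : PadicAlgCl p, z ∈ F ↔ z ∈ (algebraMap ℚ_[p] (PadicAlgCl p)).fieldRange :=
    fun _ => Iff.rfl
  have hFp : ∀ z ∈ F, z ≠ 0 → ∃ j : ℤ, ‖(AlgHom.id K (PadicAlgCl p)) z‖ = (p : ℝ) ^ j := by
    rintro z ⟨z', rfl⟩ hz
    have : z' ≠ 0 := by rintro rfl; exact hz (map_zero _)
    exact hpowQ z' this
  -- the point `P'`
  have hτn : ∀ {x : Ω} (hx : x ∈ M), ‖τ ⟨x, hx⟩‖ = ‖ψ x‖ := by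
    intro x hx
    have h1 := hψ ⟨x, hx⟩
    rw [show ψ x = _ from h1, norm_algebraMap']
  have hAM : algebraMap K Ω A ∈ M := hKM A
  have hBM : algebraMap K Ω B ∈ M := hKM B
  have ht0M : t₀' ∈ M := hSM _ (by rw [hS₀]; simp)
  have hn0M : n₀' ∈ M := hSM _ (by rw [hS₀]; simp)
  have he1M : e₁ ∈ M := hSM _ (by rw [hS₀]; simp)
  have he2M : e₂ ∈ M := hSM _ (by rw [hS₀]; simp)
  have he3M : e₃ ∈ M := hSM _ (by rw [hS₀]; simp)
  have hunit : ∀ {a b : Ω} (ha : a ∈ M) (hb : b ∈ M), ‖ψ a‖ ≤ 1 → ‖ψ b‖ ≤ 1 → a ≠ b →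
      ‖ψ (a - b)⁻¹‖ ≤ 1 → ‖τ ⟨a, ha⟩ - τ ⟨b, hb⟩‖ = 1 := by
    intro a b ha hb h1 h2 h3 h4
    have e1 : τ ⟨a, ha⟩ - τ ⟨b, hb⟩ = τ ⟨a - b, Subfield.sub_mem _ ha hb⟩ := by
      rw [← map_sub]; rfl
    rw [e1, hτn]
    have h5 : ‖ψ (a - b)‖ ≤ 1 := by
      rw [map_sub, sub_eq_add_neg]
      exact uadd h1 (by rwa [norm_neg])
    have h6 : ‖ψ (a - b)‖ * ‖ψ (a - b)⁻¹‖ = 1 := by
      rw [← norm_mul, ← map_mul, mul_inv_cancel₀ (sub_ne_zero.2 h3), map_one, norm_one]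
    have h7 := mul_le_of_le_one_right (norm_nonneg (ψ (a - b))) h4
    rw [h6] at h7
    exact le_antisymm h5 h7
  have hx'F : ψ x' ∈ (algebraMap ℚ_[p] (PadicAlgCl p)).fieldRange := by
    have q1 : ‖ψ e₁‖ ≤ 1 := hS1 _ (by rw [hS₀]; simp)
    have q2 : ‖ψ e₂‖ ≤ 1 := hS1 _ (by rw [hS₀]; simp)
    have q3 : ‖ψ e₃‖ ≤ 1 := hS1 _ (by rw [hS₀]; simp)
    refine ind2_root (p := p) (A := τ ⟨_, hAM⟩) (B := τ ⟨_, hBM⟩) (t := τ ⟨_, ht'M⟩)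
      (n := τ ⟨_, hn'M⟩) (t₀ := τ ⟨_, ht0M⟩) (n₀ := τ ⟨_, hn0M⟩) (e₁ := τ ⟨_, he1M⟩)
      (e₂ := τ ⟨_, he2M⟩) (e₃ := τ ⟨_, he3M⟩) (y := ψ y') ?_ ?_ ?_ ?_ ?_ ?_ ?_ ?_ ?_ ?_ ?_ ?_ ?_ ?_ _ ?_ ?_
    · rw [hτn]; exact hA1
    · rw [hτn]; exact hB1
    · rw [hτn]; exact hS1 _ (by rw [hS₀]; simp)
    · rw [hτn]; exact hS1 _ (by rw [hS₀]; simp)
    · rw [← map_sub]
      exact (hτn (Subfield.sub_mem _ ht'M ht0M)).trans_lt c1
    · rw [← map_sub]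
      exact (hτn (Subfield.sub_mem _ hn'M hn0M)).trans_lt c2
    · rw [hτn]; exact q1
    · rw [hτn]; exact q2
    · exact hunit he1M he2M q1 q2 hne12 (hS1 _ (by rw [hS₀]; simp))
    · exact hunit he1M he3M q1 q3 hne13 (hS1 _ (by rw [hS₀]; simp))
    · exact hunit he2M he3M q2 q3 hne23 (hS1 _ (by rw [hS₀]; simp))
    · have : (-(⟨t₀', ht0M⟩ : M) ^ 2) = -((⟨e₁, he1M⟩ : M) + ⟨e₂, he2M⟩ + ⟨e₃, he3M⟩) :=
        Subtype.ext hr1
      have h5 := congrArg τ this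
      simpa only [map_neg, map_pow, map_add] using h5
    · have : ((⟨_, hAM⟩ : M) - 2 * ⟨t₀', ht0M⟩ * ⟨n₀', hn0M⟩) = (⟨e₁, he1M⟩ : M) * ⟨e₂, he2M⟩ +
          ⟨e₁, he1M⟩ * ⟨e₃, he3M⟩ + ⟨e₂, he2M⟩ * ⟨e₃, he3M⟩ := Subtype.ext hr2
      have h5 := congrArg τ this
      simpa only [map_sub, map_mul, map_add, map_ofNat] using h5
    · have : ((⟨_, hBM⟩ : M) - ⟨n₀', hn0M⟩ ^ 2) = -((⟨e₁, he1M⟩ : M) * ⟨e₂, he2M⟩ *
          ⟨e₃, he3M⟩) := Subtype.ext hr3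
      have h5 := congrArg τ this
      simpa only [map_neg, map_pow, map_sub, map_mul] using h5
    · rw [← hψ, ← hψ, hxy', map_add, map_mul]
    · rw [← hψ, ← hψ, ← map_pow, heq h', map_add, map_add, map_mul, map_pow]
  have hy'F : ψ y' ∈ F := by
    rw [hxy', map_add, map_mul]
    exact F.add_mem (F.mul_mem (hMr _ ht'M) hx'F) (hMr _ hn'M)
  -- conclusion
  rintro ⟨Q, hQ⟩
  have hPf : ((crv A B).baseChange (PadicAlgCl p)).toAffine.Nonsingular (f x) (f y) :=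
    (Affine.baseChange_nonsingular (crv A B).toAffine f.injective ..).mpr h
  have hPf' : ((crv A B).baseChange (PadicAlgCl p)).toAffine.Nonsingular (f x') (f y') :=
    (Affine.baseChange_nonsingular (crv A B).toAffine f.injective ..).mpr h'
  have hcore := pt_core hlog (Ω := PadicAlgCl p) (AlgHom.id K (PadicAlgCl p)) hA1 hB1 hp (by omega)
    (by rw [hnat, Padic.norm_p])
    (by
      intro l hl hlp
      rw [hnat]
      have hnd : ¬ p ∣ l := fun hd => hlp ((Nat.prime_dvd_prime_iff_eq hp hl).mp hd).symm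
      have h7 : ¬ ‖((l : ℤ) : ℚ_[p])‖ < 1 := by
        rw [Padic.norm_intCast_lt_one_iff]
        exact_mod_cast hnd
      have h8 := Padic.norm_int_le_one (p := p) (l : ℤ)
      have : ((l : ℤ) : ℚ_[p]) = (l : ℚ_[p]) := by push_cast; rfl
      rw [this] at h7 h8
      exact le_antisymm h8 (not_lt.mp h7))
    F hFp
    (by
      intro m hm
      have hm0 : (m : ℚ_[p]) ≠ 0 := by exact_mod_cast hm.ne'
      rw [hnat, Padic.norm_eq_zpow_neg_valuation hm0]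
      exact ⟨_, rfl⟩) hv2 hv3 (x := f x) (y := f y) hxn hPf hm
  apply hcore
  -- the point `Q`
  let g : L →ₐ[K] F := (f.comp L.val).codRestrict F.toSubalgebra (fun a => hMr _ (hLM _ a.2))
  have hg : F.val.comp g = f.comp L.val := by
    ext a
    rfl
  have hP'F : ((crv A B).baseChange F).toAffine.Nonsingular (⟨f x', hx'F⟩ : F) (⟨f y', hy'F⟩ : F) :=
    (Affine.baseChange_nonsingular (crv A B).toAffine F.val.injective ..).mp hPf'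
  have hmapP' : Affine.Point.map (W' := crv A B) F.val (Affine.Point.some _ _ hP'F) =
      Affine.Point.some (f x') (f y') hPf' := rfl
  have hmapQ : Affine.Point.map (W' := crv A B) F.val (Affine.Point.map (W' := crv A B) g Q) =
      m • (Affine.Point.some (f x) (f y) hPf + Affine.Point.some (f x') (f y') hPf') := by
    rw [Affine.Point.map_map, hg, ← Affine.Point.map_map, hQ, map_nsmul, map_add]
    rfl
  refine ⟨Affine.Point.map (W' := crv A B) g Q - m • Affine.Point.some _ _ hP'F, ?_⟩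
  rw [map_sub, map_nsmul, hmapQ, hmapP', nsmul_add, add_sub_cancel_right]

end Pool.Agent.N683.H2
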