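import Pool.Agent.N683.H2.Stm3
import Pool.Agent.N683.H2.QC

/-!
# Infinite rank over pythagorean fields (helper407)
-/

set_option autoImplicit false

namespace Pool.Agent.N683.H2

open IntermediateField WeierstrassCurve Polynomial
open Pool.Agent.N683.HR (crv cub cubP cubP_eval cubP_deg cubP_sep bc_eq HasPts comp_sep comp_deg)

namespace Pyth

/-- nonnegative rational numbers are sums of squares -/
theorem rat_sumSq {K : Type} [Field K] [CharZero K] {x : ℚ} (hx : 0 ≤ x) : IsSumSq ((x : ℚ) : K) := by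
  have h1 : IsSumSq (((x.num.toNat * x.den : ℕ)) : K) := IsSumSq.natCast _
  have h2 := h1.mul (IsSumSq.mul_self (((x.den : ℕ) : K)⁻¹))
  have hd : ((x.den : ℕ) : K) ≠ 0 := by exact_mod_cast x.den_ne_zero
  have hn : ((x.num.toNat : ℕ) : K) = ((x.num : ℤ) : K) := by
    have h3 : ((x.num.toNat : ℕ) : ℤ) = x.num := Int.toNat_of_nonneg (Rat.num_nonneg.2 hx)
    have h4 : (((x.num.toNat : ℕ) : ℤ) : K) = ((x.num : ℤ) : K) := by rw [h3]
    rwa [Int.cast_natCast] at h4
  have h5 : ((x : ℚ) : K) = (((x.num.toNat * x.den : ℕ)) : K) * ((((x.den : ℕ) : K)⁻¹) * (((x.den : ℕ) : K)⁻¹)) := by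
    rw [Rat.cast_def]
    push_cast
    rw [hn]
    field_simp
  rw [h5]
  exact h2

/-- every element of a number field becomes a sum of squares after adding a large natural number -/
theorem large {K : Type} [Field K] [NumberField K] (k : K) :
    ∃ N₀ : ℕ, ∀ N : ℕ, N₀ ≤ N → IsSumSq ((N : K) + k) := by
  classical
  obtain ⟨n, b⟩ : ∃ n : ℕ, Nonempty (Module.Basis (Fin n) ℚ K) :=
    ⟨_, ⟨Module.finBasis ℚ K⟩⟩
  obtain ⟨b⟩ := b
  have h2 : (2 : K) ≠ 0 := two_ne_zero
  obtain ⟨u, hu⟩ : ∃ u : Fin n → K, u = fun i => (b i + 1) / 2 * ((b i + 1) / 2) := ⟨_, rfl⟩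
  obtain ⟨v, hv⟩ : ∃ v : Fin n → K, v = fun i => (b i - 1) / 2 * ((b i - 1) / 2) := ⟨_, rfl⟩
  have hus : ∀ i, IsSumSq (u i) := fun i => by rw [hu]; exact IsSumSq.mul_self _
  have hvs : ∀ i, IsSumSq (v i) := fun i => by rw [hv]; exact IsSumSq.mul_self _
  have huv : ∀ i, b i = u i - v i := by
    intro i
    rw [hu, hv]
    simp only
    field_simp
    ring
  obtain ⟨q, hq⟩ : ∃ q : K, q = 1 + ∑ i, (u i + v i) := ⟨_, rfl⟩
  have hqs : IsSumSq q := by
    rw [hq]
    exact IsSumSq.one.add (IsSumSq.sum fun i _ => (hus i).add (hvs i))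
  -- first step
  have step : ∀ k : K, ∃ N₀ : ℕ, ∀ N : ℕ, N₀ ≤ N → IsSumSq ((N : K) * q + k) := by
    intro k
    obtain ⟨r, hr⟩ : ∃ r : Fin n → ℚ, r = fun i => b.repr k i := ⟨_, rfl⟩
    have hk : k = ∑ i, ((r i : ℚ) : K) * (u i - v i) := by
      conv_lhs => rw [← b.sum_repr k]
      refine Finset.sum_congr rfl fun i _ => ?_
      rw [Rat.smul_def, hr, huv i]
    obtain ⟨N₀, hN₀⟩ : ∃ N₀ : ℕ, ∀ i, |r i| ≤ N₀ := by
      obtain ⟨C, hC⟩ : ∃ C : ℚ, ∀ i, |r i| ≤ C := by
        refine ⟨∑ i, |r i|, fun i => Finset.single_le_sum (f := fun i => |r i|) (fun _ _ => abs_nonneg _) (Finset.mem_univ i)⟩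
      obtain ⟨N₀, hN₀⟩ := exists_nat_ge C
      exact ⟨N₀, fun i => (hC i).trans hN₀⟩
    refine ⟨N₀, fun N hN => ?_⟩
    have hNr : ∀ i, |r i| ≤ (N : ℚ) := fun i => (hN₀ i).trans (by exact_mod_cast hN)
    have h3 : (N : K) * q + k = (N : K) + ∑ i, ((((N : ℚ) + r i : ℚ) : K) * u i + (((N : ℚ) - r i : ℚ) : K) * v i) := by
      rw [hq, hk, mul_add, mul_one, add_assoc, Finset.mul_sum, ← Finset.sum_add_distrib]
      congr 1
      refine Finset.sum_congr rfl fun i _ => ?_
      push_cast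
      ring
    rw [h3]
    refine (IsSumSq.natCast N).add (IsSumSq.sum fun i _ => ?_)
    have h4 := abs_le.1 (hNr i)
    exact ((rat_sumSq (by linarith [h4.1])).mul (hus i)).add ((rat_sumSq (by linarith [h4.2])).mul (hvs i))
  by_cases hq0 : q = 0
  · obtain ⟨N₀, hN₀⟩ := step k
    refine ⟨N₀, fun N hN => ?_⟩
    have h3 := hN₀ N hN
    rw [hq0, mul_zero, zero_add] at h3
    exact (IsSumSq.natCast N).add h3
  · obtain ⟨N₀, hN₀⟩ := step (k * q)
    refine ⟨N₀, fun N hN => ?_⟩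
    have h3 := ((hN₀ N hN).mul hqs).mul (IsSumSq.mul_self q⁻¹)
    have h4 : ((N : K) * q + k * q) * q * (q⁻¹ * q⁻¹) = (N : K) + k := by
      field_simp
    rwa [h4] at h3

/-- in a pythagorean field sums of squares are squares -/
theorem sumSq_sq {K Ω : Type} [Field K] [Field Ω] [Algebra K Ω] (F : IntermediateField K Ω)
    (hF : ∀ t ∈ F, ∃ w ∈ F, w ^ 2 = 1 + t ^ 2) {x : K} (hx : IsSumSq x) :
    ∃ r ∈ F, r ^ 2 = algebraMap K Ω x := by
  induction hx with
  | zero => exact ⟨0, F.zero_mem, by simp⟩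
  | sq_add a hs ih =>
    obtain ⟨r, hr, h1⟩ := ih
    by_cases ha : algebraMap K Ω a = 0
    · exact ⟨r, hr, by rw [h1, map_add, map_mul, ha]; ring⟩
    · obtain ⟨w, hw, h2⟩ := hF (r / algebraMap K Ω a) (F.div_mem hr (F.algebraMap_mem a))
      refine ⟨algebraMap K Ω a * w, F.mul_mem (F.algebraMap_mem a) hw, ?_⟩
      rw [mul_pow, h2, map_add, map_mul, ← h1]
      field_simp

end Pyth

/-- **Task PYTH.** -/
theorem pyth : S_PYTH := by
  intro K Ω _ _ _ _ _ _ _ A B hD F hF R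
  have : CharZero Ω := charZero_of_injective_algebraMap (algebraMap K Ω).injective
  -- the choice of `N`
  obtain ⟨N₁, hN₁⟩ := Pyth.large A
  obtain ⟨N₂, hN₂⟩ := Pyth.large B
  obtain ⟨M, hM⟩ : ∃ M, M = N₁ + N₂ + 1 := ⟨_, rfl⟩
  have hfin : {n : ℕ | cub A B (n : K) = 0}.Finite := by
    have h1 : {x : K | cub A B x = 0}.Finite := by
      have h2 : cubP A B ≠ 0 := by
        intro h0
        have := cubP_deg (A := A) (B := B)
        rw [h0] at this
        simp at this
      refine (Multiset.finite_toSet (cubP A B).roots).subset fun x hx => ?_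
      show x ∈ (cubP A B).roots
      rw [mem_roots h2, IsRoot.def, cubP_eval]
      exact hx
    exact h1.preimage Nat.cast_injective.injOn
  have hev : ∀ᶠ n : ℕ in Filter.atTop, cub A B (n : K) ≠ 0 := by
    rw [← Nat.cofinite_eq_atTop]
    exact hfin.eventually_cofinite_notMem
  obtain ⟨N, hN0, hNM⟩ := (hev.and (Filter.eventually_ge_atTop (2 * M + 1))).exists
  -- the coefficients are sums of squares
  have hc1 : IsSumSq (3 * (N : K) ^ 2 + A) := by
    have h1 := hN₁ (3 * N ^ 2) (by nlinarith)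
    push_cast at h1
    exact h1
  have hc0 : IsSumSq (cub A B (N : K)) := by
    have h2 : M ≤ N ^ 2 := by nlinarith
    have h3 : M ≤ N ^ 2 - M := by
      apply Nat.le_sub_of_add_le
      nlinarith
    have h4 := ((IsSumSq.natCast (R := K) N).mul (hN₁ (N ^ 2 - M) (by omega))).add (hN₂ (N * M) (by nlinarith))
    have h5 : ((N ^ 2 - M : ℕ) : K) = (N : K) ^ 2 - (M : K) := by
      rw [Nat.cast_sub h2]
      push_cast
      rfl
    have h6 : (N : K) * (((N ^ 2 - M : ℕ) : K) + A) + (((N * M : ℕ) : K) + B) = cub A B (N : K) := by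
      rw [h5]
      unfold cub
      push_cast
      ring
    rwa [h6] at h4
  have hG : ∀ w : K, IsSumSq (cub A B ((N : K) + w ^ 2)) := by
    intro w
    have h1 : cub A B ((N : K) + w ^ 2) = w ^ 3 * w ^ 3 + (((3 * N : ℕ) : K) * (w ^ 2 * w ^ 2) +
        ((3 * (N : K) ^ 2 + A) * (w * w) + cub A B (N : K))) := by
      unfold cub
      push_cast
      ring
    rw [h1]
    exact (IsSumSq.mul_self _).add (((IsSumSq.natCast _).mul (IsSumSq.mul_self _)).add
      ((hc1.mul (IsSumSq.mul_self _)).add hc0))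
  have hsq : ∀ c : K, {w : K | w ^ 2 = c}.Finite := by
    intro c
    by_cases hc : ∃ w₀ : K, w₀ ^ 2 = c
    · obtain ⟨w₀, rfl⟩ := hc
      refine (Set.toFinite ({w₀, -w₀} : Set K)).subset fun w hw => ?_
      exact sq_eq_sq_iff_eq_or_eq_neg.1 hw
    · refine Set.finite_empty.subset fun w hw => ?_
      exact hc ⟨w, hw⟩
  induction R with
  | zero => exact ⟨Fin.elim0, linearIndependent_empty_type, fun i => i.elim0⟩
  | succ R ih =>
    obtain ⟨F₀, hF₀, hfd, hP⟩ := QC.descend ih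
    have : NumberField F₀ := NumberField.of_module_finite K F₀
    obtain ⟨T, hT, hTt⟩ := Pool.Agent.N683.HR.tor K A B hD
    have hT' : {w : K | (N : K) + w ^ 2 ∈ T}.Finite := by
      refine (hT.biUnion (fun x _ => hsq (x - N))).subset fun w hw => ?_
      rw [Set.mem_iUnion₂]
      refine ⟨_, hw, ?_⟩
      show w ^ 2 = (N : K) + w ^ 2 - N
      ring
    obtain ⟨w, hwT, hw⟩ := Pool.Agent.N683.HR.sq K F₀ ((cubP A B).comp (C 1 * X ^ 2 + C (N : K)))
      (comp_sep hD one_ne_zero hN0) (comp_deg one_ne_zero) _ hT'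
    have hev : ((cubP A B).comp (C 1 * X ^ 2 + C (N : K))).eval w = cub A B ((N : K) + w ^ 2) := by
      rw [eval_comp]
      simp only [eval_add, eval_mul, eval_C, eval_pow, eval_X, one_mul]
      rw [cubP_eval, add_comm]
    obtain ⟨r, hrF, hr⟩ := Pyth.sumSq_sq F hF (hG w)
    obtain ⟨x, hx⟩ : ∃ x : K, x = (N : K) + w ^ 2 := ⟨_, rfl⟩
    have hxT : x ∉ T := by rw [hx]; exact hwT
    rw [← hx] at hr hev
    refine Pool.Agent.N683.HR.HasPts.succ hD le_rfl hF₀ hP (x := algebraMap K Ω x) (r := r)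
      (F₀.algebraMap_mem x) ?_ hrF ?_ ?_
    · rw [hr]
      simp only [cub, map_add, map_mul, map_pow]
    · intro hrF₀
      refine hw ⟨r, hrF₀⟩ (Subtype.ext ?_)
      rw [hev]
      exact hr
    · have key : ∀ (W : WeierstrassCurve Ω), W = crv (algebraMap K Ω A) (algebraMap K Ω B) →
          ∀ (h : W.toAffine.Nonsingular (algebraMap K Ω x) r) (n : ℕ), 0 < n →
            n • (Affine.Point.some (algebraMap K Ω x) r h) ≠ 0 := by
        rintro W rfl h n hn
        exact hTt x hxT Ω r h n hn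
      exact key _ (bc_eq A B)

end Pool.Agent.N683.H2
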