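import Pool.Agent.N683.H2.Fin5
import Pool.Agent.N683.H2.G12
import Pool.Agent.N683.H2.Disc
import Pool.Agent.N683.H2.Psi
import Pool.Agent.N683.H2.Sec
import Pool.Agent.N683.H2.Conic
import Pool.Agent.N683.H2.Conic2
import Pool.Agent.N683.H2.Ind
import Pool.Agent.N683.H2.Ind2
import Pool.Agent.N683.H2.Pyth
import Pool.Agent.N683.H2.Cpt

/-! All parts, without twists. -/

set_option autoImplicit false

namespace Pool.Agent.N683.H2

theorem hyps2 : Hyps2 where
  disc := disc g2
  psi := psi g1
  sec := sec
  conic := conic2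
  param := param
  ind := ind
  ind2 := ind2
  dil := dil
  pyth := pyth
  cpt := cpt

end Pool.Agent.N683.H2
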