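import Pool.Agent.N683.HR.Trip
import Pool.Agent.R433.MD.Hyper

/-!
# Project H2 (helper683): statements

Points on elliptic curves and their quadratic twists over the fixed fields of groups all of whose finite
images are 2-hyperelementary.
-/

set_option autoImplicit false

namespace Pool.Agent.N683.H2

open IntermediateField WeierstrassCurve Polynomial
open Pool.Agent.N683.HR (crv cub HasPts)
open Pool.Agent.R433.MD (IsHyper)

/-- The discriminant of `x³ + b x² + c x + d`. -/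
def dsc {F : Type} [CommRing F] (b c d : F) : F :=
  b ^ 2 * c ^ 2 - 4 * c ^ 3 - 4 * b ^ 3 * d - 27 * d ^ 2 + 18 * b * c * d

/-- The discriminant of `x³ + A x + B - (t x + n)²`. -/
def DD {F : Type} [CommRing F] (A B t n : F) : F := dsc (-t ^ 2) (A - 2 * t * n) (B - n ^ 2)

/-- All finite images of `U` are 2-hyperelementary. -/
def T2 {K Ω : Type} [Field K] [Field Ω] [Algebra K Ω] (U : Subgroup Gal(Ω/K)) : Prop :=
  ∀ (L : IntermediateField K Ω) [Normal K L] [FiniteDimensional K L],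
    IsHyper 2 (U.map (AlgEquiv.restrictNormalHom L))

/-- `X` is the abscissa of a 3-torsion point of `y² = x³ + a x + b`. -/
def Three {F : Type} [Field F] (a b X : F) : Prop :=
  3 * X ^ 4 + 6 * a * X ^ 2 + 12 * b * X - a ^ 2 = 0

/-- `x² + p x + q` and `x² - p x + q'` are the factors of the polynomial of the 3-torsion. -/
def Pair {F : Type} [Field F] (a b p q q' : F) : Prop :=
  q + q' - p ^ 2 = 2 * a ∧ p * (q' - q) = 4 * b ∧ 3 * q * q' = -a ^ 2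

/-- **Task G2** (group theory). For a 2-hyperelementary group acting on two sets with three elements
without fixed points the two sign characters are equal. -/
def S_G2 : Prop :=
  ∀ (G : Type) [Group G] [Finite G] (H : Subgroup G), IsHyper 2 H →
    ∀ f f' : H →* Equiv.Perm (Fin 3), (∃ i, ∀ h, f h i = i) ∨ (∃ i, ∀ h, f' h i = i) ∨
      ∀ h, Equiv.Perm.sign (f h) = Equiv.Perm.sign (f' h)

/-- **Task G1** (group theory). A 2-hyperelementary group acting on four points fixes a point or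
preserves a partition `{σ 0, σ 1}, {σ 2, σ 3}`. -/
def S_G1 : Prop :=
  ∀ (G : Type) [Group G] [Finite G] (H : Subgroup G), IsHyper 2 H →
    ∀ f : H →* Equiv.Perm (Fin 4), (∃ i, ∀ h, f h i = i) ∨
      ∃ σ : Equiv.Perm (Fin 4), ∀ h,
        ({f h (σ 0), f h (σ 1)} : Set (Fin 4)) = {σ 0, σ 1} ∨
        ({f h (σ 0), f h (σ 1)} : Set (Fin 4)) = {σ 2, σ 3}

/-- **Task DISC** (from G2). Two separable cubic polynomials over the fixed field of a group `U` with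
`T2 U`: one of them has a root in the field or the product of the discriminants is a square. -/
def S_DISC : Prop :=
  ∀ (K Ω : Type) [Field K] [NumberField K] [Field Ω] [Algebra K Ω] [Algebra.IsAlgebraic K Ω]
    [IsAlgClosed Ω] (U : Subgroup Gal(Ω/K)), T2 U →
    ∀ b c d b' c' d' : Ω, b ∈ fixedField U → c ∈ fixedField U → d ∈ fixedField U →
      b' ∈ fixedField U → c' ∈ fixedField U → d' ∈ fixedField U →
      dsc b c d ≠ 0 → dsc b' c' d' ≠ 0 →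
      (∃ x ∈ fixedField U, x ^ 3 + b * x ^ 2 + c * x + d = 0) ∨
      (∃ x ∈ fixedField U, x ^ 3 + b' * x ^ 2 + c' * x + d' = 0) ∨
      ∃ w ∈ fixedField U, w ^ 2 = dsc b c d * dsc b' c' d'

/-- **Task PSI** (from G1). The action on the abscissas of the 3-torsion. -/
def S_PSI : Prop :=
  ∀ (K Ω : Type) [Field K] [NumberField K] [Field Ω] [Algebra K Ω] [Algebra.IsAlgebraic K Ω]
    [IsAlgClosed Ω] (U : Subgroup Gal(Ω/K)), T2 U →
    ∀ A B : K, A ≠ 0 → B ≠ 0 → 4 * A ^ 3 + 27 * B ^ 2 ≠ 0 →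
      (∃ X ∈ fixedField U, Three (algebraMap K Ω A) (algebraMap K Ω B) X) ∨
      ∃ p q q' : Ω, p ≠ 0 ∧ (∀ u ∈ U, u p = p ∨ u p = -p) ∧
        (∀ u ∈ U, u p = p → u q = q ∧ u q' = q') ∧
        Pair (algebraMap K Ω A) (algebraMap K Ω B) p q q'

/-- **Task SEC.** Curves in the plane of the pairs `(t, n)` on which the discriminant of
`x³ + a x + b - (t x + n)²` is `α t² + β` up to squares. -/
def S_SEC : Prop :=
  ∀ (F Ω : Type) [Field F] [CharZero F] [Field Ω] [Algebra F Ω] [IsAlgClosed Ω] (a b : F),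
    a ≠ 0 → b ≠ 0 → 4 * a ^ 3 + 27 * b ^ 2 ≠ 0 →
    ((∃ X : F, Three a b X) ∨ ∃ p q q' : F, p ≠ 0 ∧ Pair a b p q q') →
    ∃ (N W G : F[X]) (α β : F), α ≠ 0 ∧ β ≠ 0 ∧ G ≠ 0 ∧
      (∀ t : F, W.eval t ≠ 0 →
        W.eval t ^ 4 * DD a b t (N.eval t / W.eval t) = G.eval t ^ 2 * (α * t ^ 2 + β)) ∧
      ∃ t₀ : Ω, aeval t₀ W = 0 ∧ aeval t₀ (derivative W) ≠ 0 ∧ aeval t₀ N ≠ 0 ∧
        algebraMap F Ω α * t₀ ^ 2 + algebraMap F Ω β ≠ 0

/-- **Task CONIC.** -/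
def S_CONIC : Prop :=
  ∀ (F : Type) [Field F] [CharZero F] (i α β z : F), i ^ 2 = -1 → α ≠ 0 → β ≠ 0 → ¬ IsSquare z →
    ∃ c c' t y t' y' : F, c ≠ 0 ∧ c' ≠ 0 ∧ ¬ IsSquare (c * c') ∧ y ≠ 0 ∧ y' ≠ 0 ∧
      α * t ^ 2 + β = c * y ^ 2 ∧ α * t' ^ 2 + β = c' * y' ^ 2

/-- **Task PARAM.** The parametrisation of the conic `α t² + β = c y²`, and the parameter of a point
with the coordinate `t₁`. -/
def S_PARAM : Prop :=
  (∀ (F : Type) [Field F] (α β c t₀ y₀ s : F), α * t₀ ^ 2 + β = c * y₀ ^ 2 → α - c * s ^ 2 ≠ 0 →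
    α * ((2 * c * y₀ * s - α * t₀ - c * t₀ * s ^ 2) / (α - c * s ^ 2)) ^ 2 + β =
      c * ((α * y₀ - 2 * α * t₀ * s + c * y₀ * s ^ 2) / (α - c * s ^ 2)) ^ 2) ∧
  ∀ (Ω : Type) [Field Ω] [CharZero Ω] [IsAlgClosed Ω] (α β c t₀ y₀ t₁ : Ω), α ≠ 0 → β ≠ 0 → c ≠ 0 →
    y₀ ≠ 0 → α * t₀ ^ 2 + β = c * y₀ ^ 2 → α * t₁ ^ 2 + β ≠ 0 →
    ∃ s : Ω, α - c * s ^ 2 ≠ 0 ∧
      2 * c * y₀ * s - α * t₀ - c * t₀ * s ^ 2 = t₁ * (α - c * s ^ 2) ∧
      (2 * c * y₀ - 2 * c * t₀ * s) * (α - c * s ^ 2) -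
        (2 * c * y₀ * s - α * t₀ - c * t₀ * s ^ 2) * (-2 * c * s) ≠ 0

/-- **Task IND.** A point on the line `y = t(s) x + n(s)`, where `n(s)` has a simple pole at `s₀`, such
that no multiple of it is defined over a given finite extension. -/
def S_IND : Prop :=
  ∀ (K Ω : Type) [Field K] [NumberField K] [Field Ω] [Algebra K Ω] [Algebra.IsAlgebraic K Ω]
    [IsAlgClosed Ω] [DecidableEq Ω] (A B : K), 4 * A ^ 3 + 27 * B ^ 2 ≠ 0 →
    ∀ (L : IntermediateField K Ω) [FiniteDimensional K L] (T₁ T₂ N W : Polynomial Ω) (s₀ t₀ : Ω),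
      T₂.eval s₀ ≠ 0 → T₁.eval s₀ = t₀ * T₂.eval s₀ →
      (derivative T₁).eval s₀ * T₂.eval s₀ - T₁.eval s₀ * (derivative T₂).eval s₀ ≠ 0 →
      W.eval t₀ = 0 → (derivative W).eval t₀ ≠ 0 → N.eval t₀ ≠ 0 →
      ∀ T : Set ℚ, T.Finite → ∃ s : ℚ, s ∉ T ∧ T₂.eval (s : Ω) ≠ 0 ∧
        W.eval (T₁.eval (s : Ω) / T₂.eval (s : Ω)) ≠ 0 ∧
        ∀ (x y : Ω), y = T₁.eval (s : Ω) / T₂.eval (s : Ω) * x +
            N.eval (T₁.eval (s : Ω) / T₂.eval (s : Ω)) / W.eval (T₁.eval (s : Ω) / T₂.eval (s : Ω)) →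
          ∀ (h : ((crv A B).baseChange Ω).toAffine.Nonsingular x y) (m : ℕ), 0 < m →
            m • (Affine.Point.some x y h) ∉ (Affine.Point.map (W' := crv A B) L.val).range

/-- **Task QC.** Quadratically closed fields. -/
def S_QC : Prop :=
  ∀ (K Ω : Type) [Field K] [NumberField K] [Field Ω] [Algebra K Ω] [Algebra.IsAlgebraic K Ω]
    [IsAlgClosed Ω] [DecidableEq Ω] (A B : K), 4 * A ^ 3 + 27 * B ^ 2 ≠ 0 →
    ∀ F : IntermediateField K Ω, (∀ z ∈ F, ∃ w ∈ F, w ^ 2 = z) → ∀ R : ℕ, HasPts A B F R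

/-- `U` acts on `R` independent points as on `e`, up to the sign. -/
def TwPts {K Ω : Type} [Field K] [Field Ω] [Algebra K Ω] [DecidableEq Ω] (A B : K)
    (L : IntermediateField K Ω) (U : Subgroup Gal(Ω/K)) (R : ℕ) (e : Ω) : Prop :=
  ∃ P : Fin R → (((crv A B).baseChange Ω).toAffine).Point, LinearIndependent ℤ P ∧
    (∀ i, P i ∈ (Affine.Point.map (W' := crv A B) L.val).range) ∧
    ∀ u ∈ U, (u e = e ∧ ∀ i, Affine.Point.map (W' := crv A B) (u : Ω →ₐ[K] Ω) (P i) = P i) ∨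
      (u e = -e ∧ ∀ i, Affine.Point.map (W' := crv A B) (u : Ω →ₐ[K] Ω) (P i) = -P i)

/-- **Task TW.** From the subgroup of the `u` with `u e₁ = e₁` to the group. -/
def S_TW : Prop :=
  ∀ (K Ω : Type) [Field K] [NumberField K] [Field Ω] [Algebra K Ω] [Algebra.IsAlgebraic K Ω]
    [IsAlgClosed Ω] [DecidableEq Ω] (A B : K) (U U' : Subgroup Gal(Ω/K)) (e₁ e : Ω) (R : ℕ),
    e₁ ≠ 0 → (∀ u ∈ U, u e₁ = e₁ ∨ u e₁ = -e₁) → e ≠ 0 → (∀ u ∈ U, u e = e ∨ u e = -e) →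
    (∀ u, u ∈ U' ↔ u ∈ U ∧ u e₁ = e₁) → TwPts A B ⊤ U' (2 * R) e →
    ∃ e' : Ω, (e' = e ∨ e' = e * e₁) ∧ TwPts A B ⊤ U R e'

/-- **Task CPT** (compactness). -/
def S_CPT : Prop :=
  ∀ (K Ω : Type) [Field K] [NumberField K] [Field Ω] [Algebra K Ω] [Algebra.IsAlgebraic K Ω]
    [IsAlgClosed Ω] (Q : IntermediateField K Ω → Subgroup Gal(Ω/K) → Prop),
    (∀ (L L' : IntermediateField K Ω) [Normal K L] [FiniteDimensional K L] [Normal K L']
      [FiniteDimensional K L'] (U U' : Subgroup Gal(Ω/K)), L ≤ L' →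
      U'.map (AlgEquiv.restrictNormalHom L) ≤ U.map (AlgEquiv.restrictNormalHom L) →
      Q L U → Q L' U') →
    (∀ U : Subgroup Gal(Ω/K), T2 U →
      ∃ (L : IntermediateField K Ω) (_ : Normal K L), FiniteDimensional K L ∧ Q L U) →
    ∃ (L : IntermediateField K Ω) (_ : Normal K L), FiniteDimensional K L ∧
      ∀ U : Subgroup Gal(Ω/K), IsHyper 2 (U.map (AlgEquiv.restrictNormalHom L)) → Q L U

end Pool.Agent.N683.H2
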