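import Pool.Agent.N683.HR.Rk
import Pool.Agent.N683.H2.Stm

/-! Infinite rank over fixed fields which contain `i` and a factor of the 3-torsion. -/

set_option autoImplicit false

namespace Pool.Agent.N683.H2

open IntermediateField WeierstrassCurve Polynomial
open Pool.Agent.N683.HR (crv cub HasPts bc_eq)
open Pool.Agent.R433.MD (IsHyper)

/-- extending an independent family -/
theorem ind_cons {M : Type} [AddCommGroup M] (S : AddSubgroup M) {R : ℕ} (P : Fin R → M) (Q : M)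
    (hP : LinearIndependent ℤ P) (hS : ∀ i, P i ∈ S) (hQ : ∀ m : ℕ, 0 < m → m • Q ∉ S) :
    LinearIndependent ℤ (Fin.cons Q P : Fin (R + 1) → M) := by
  refine LinearIndependent.finCons' Q P hP ?_
  rintro c y hy hcy
  have hy' : y ∈ S := by
    refine Submodule.span_induction (p := fun y _ => y ∈ S) ?_ ?_ ?_ ?_ hy
    · rintro _ ⟨i, rfl⟩
      exact hS i
    · exact S.zero_mem
    · intro a b _ _ ha hb
      exact S.add_mem ha hb
    · intro n a _ ha
      exact S.zsmul_mem ha n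
  by_contra hc
  have h1 : c • Q ∈ S := by
    have h2 : c • Q = -y := by
      rw [← add_eq_zero_iff_eq_neg]
      exact hcy
    rw [h2]
    exact S.neg_mem hy'
  have h3 : c.natAbs • Q ∈ S := by
    rcases Int.natAbs_eq c with h | h
    · rw [h] at h1
      rwa [natCast_zsmul] at h1
    · rw [h, neg_smul, natCast_zsmul] at h1
      exact (S.neg_mem_iff).mp h1
  exact hQ _ (Int.natAbs_pos.mpr hc) h3

section
variable {K Ω : Type} [Field K] [NumberField K] [Field Ω] [Algebra K Ω] [DecidableEq Ω]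

theorem disc_ne (A B : K) (hD : 4 * A ^ 3 + 27 * B ^ 2 ≠ 0) [CharZero Ω] :
    ((crv A B).baseChange Ω).Δ ≠ 0 := by
  have h1 := (map_ne_zero (algebraMap K Ω)).mpr hD
  simp only [map_add, map_mul, map_pow, map_ofNat] at h1
  rw [bc_eq]
  intro h0
  apply h1
  simp only [WeierstrassCurve.Δ, WeierstrassCurve.b₂, WeierstrassCurve.b₄, WeierstrassCurve.b₆,
    WeierstrassCurve.b₈, crv] at h0
  have h2 : (-16 : Ω) * (4 * (algebraMap K Ω A) ^ 3 + 27 * (algebraMap K Ω B) ^ 2) = 0 := by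
    linear_combination h0
  exact (mul_eq_zero.mp h2).resolve_left (by norm_num)

theorem nons {A B : K} (hD : 4 * A ^ 3 + 27 * B ^ 2 ≠ 0) [CharZero Ω] {x y : Ω}
    (h : y ^ 2 = x ^ 3 + algebraMap K Ω A * x + algebraMap K Ω B) :
    ((crv A B).baseChange Ω).toAffine.Nonsingular x y := by
  refine (Affine.equation_iff_nonsingular_of_Δ_ne_zero (disc_ne A B hD)).mp ?_
  rw [bc_eq, Affine.equation_iff]
  simp only [crv]
  linear_combination h

/-- finitely many points are defined over a finite extension -/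
theorem pts_fin [Algebra.IsAlgebraic K Ω] (A B : K) {R : ℕ}
    (P : Fin R → (((crv A B).baseChange Ω).toAffine).Point) :
    ∃ L : IntermediateField K Ω, FiniteDimensional K L ∧
      ∀ i, P i ∈ (Affine.Point.map (W' := crv A B) L.val).range := by
  classical
  let S : Fin R → Set Ω := fun i =>
    match P i with
    | .zero => ∅
    | .some x y _ => {x, y}
  have hS : (⋃ i, S i).Finite := by
    refine Set.finite_iUnion fun i => ?_
    simp only [S]
    split
    · exact Set.finite_empty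
    · exact (Set.finite_singleton _).insert _
  have _ : Finite ↥(⋃ i, S i) := hS
  refine ⟨adjoin K (⋃ i, S i),
    finiteDimensional_adjoin fun x _ => Algebra.IsIntegral.isIntegral x, fun i => ?_⟩
  have hsub : S i ⊆ adjoin K (⋃ i, S i) := fun z hz =>
    subset_adjoin K _ (Set.mem_iUnion.mpr ⟨i, hz⟩)
  generalize hL : adjoin K (⋃ i, S i) = L at hsub
  simp only [S] at hsub
  rcases hPi : P i with _ | ⟨x, y, h⟩
  · exact ⟨0, rfl⟩
  · rw [hPi] at hsub
    have hx : x ∈ L := hsub (by simp)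
    have hy : y ∈ L := hsub (by simp)
    have hns' : ((crv A B).baseChange L).toAffine.Nonsingular ⟨x, hx⟩ ⟨y, hy⟩ := by
      exact (Affine.baseChange_nonsingular (crv A B) (f := L.val) L.val.injective ..).mp h
    exact ⟨Affine.Point.some _ _ hns', rfl⟩

end

/-- zero sets of polynomials in the rational numbers -/
theorem rat_fin {Ω : Type} [Field Ω] [CharZero Ω] {P : Polynomial Ω} (hP : P ≠ 0) :
    {s : ℚ | P.eval (s : Ω) = 0}.Finite := by
  have h1 : {z : Ω | P.IsRoot z}.Finite := finite_setOfPred_isRoot hP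
  exact h1.preimage (Rat.cast_injective.injOn)

section
variable {K Ω : Type} [Field K] [NumberField K] [Field Ω] [Algebra K Ω] [Algebra.IsAlgebraic K Ω]
  [IsAlgClosed Ω]

/-- the discriminants, in the fixed field -/
theorem disc_int (h : S_DISC) {U : Subgroup Gal(Ω/K)} (hU : T2 U)
    (b c d b' c' d' : ↥(fixedField U)) (h0 : dsc b c d ≠ 0) (h1 : dsc b' c' d' ≠ 0) :
    (∃ x : ↥(fixedField U), x ^ 3 + b * x ^ 2 + c * x + d = 0) ∨
      (∃ x : ↥(fixedField U), x ^ 3 + b' * x ^ 2 + c' * x + d' = 0) ∨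
      ∃ w : ↥(fixedField U), w ^ 2 = dsc b c d * dsc b' c' d' := by
  have e : ∀ b c d : ↥(fixedField U), dsc (b : Ω) c d = ((dsc b c d : ↥(fixedField U)) : Ω) :=
    fun b c d => rfl
  have hne : ∀ z : ↥(fixedField U), z ≠ 0 → (z : Ω) ≠ 0 := fun z hz h => hz (Subtype.ext h)
  rcases h K Ω U hU b c d b' c' d' b.2 c.2 d.2 b'.2 c'.2 d'.2 (by rw [e]; exact hne _ h0)
    (by rw [e]; exact hne _ h1) with ⟨x, hx, h2⟩ | ⟨x, hx, h2⟩ | ⟨w, hw, h2⟩
  · exact Or.inl ⟨⟨x, hx⟩, Subtype.ext h2⟩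
  · exact Or.inr (Or.inl ⟨⟨x, hx⟩, Subtype.ext h2⟩)
  · exact Or.inr (Or.inr ⟨⟨w, hw⟩, Subtype.ext h2⟩)

end

section fam
variable {F : Type} [Field F]

/-- the first coordinate of the parametrisation of `α t² + β = c y²` -/
def tt (α c t₀ y₀ s : F) : F := (2 * c * y₀ * s - α * t₀ - c * t₀ * s ^ 2) / (α - c * s ^ 2)

/-- the second coordinate -/
def yy (α c t₀ y₀ s : F) : F := (α * y₀ - 2 * α * t₀ * s + c * y₀ * s ^ 2) / (α - c * s ^ 2)

/-- points in one family -/
def Fam (a b : F) (N W G : Polynomial F) (α c t₀ y₀ : F) : Prop :=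
  ∀ s : ℚ, α - c * (s : F) ^ 2 ≠ 0 → W.eval (tt α c t₀ y₀ s) ≠ 0 → G.eval (tt α c t₀ y₀ s) ≠ 0 →
    yy α c t₀ y₀ (s : F) ≠ 0 →
    ∃ x : F, x ^ 3 + a * x + b =
      (tt α c t₀ y₀ s * x + N.eval (tt α c t₀ y₀ s) / W.eval (tt α c t₀ y₀ s)) ^ 2

end fam

section
variable {K Ω : Type} [Field K] [NumberField K] [Field Ω] [Algebra K Ω] [Algebra.IsAlgebraic K Ω]
  [IsAlgClosed Ω]

/-- one of the two families has points -/
theorem dich (h : S_DISC) (hpar : S_PARAM) {U : Subgroup Gal(Ω/K)} (hU : T2 U)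
    {a b α β c t₀ y₀ c' t₀' y₀' : ↥(fixedField U)} {N W G : Polynomial ↥(fixedField U)}
    (hc : c ≠ 0) (hc' : c' ≠ 0) (hcc : ¬ IsSquare (c * c'))
    (hid : ∀ t : ↥(fixedField U), W.eval t ≠ 0 →
        W.eval t ^ 4 * DD a b t (N.eval t / W.eval t) = G.eval t ^ 2 * (α * t ^ 2 + β))
    (h1 : α * t₀ ^ 2 + β = c * y₀ ^ 2) (h2 : α * t₀' ^ 2 + β = c' * y₀' ^ 2) :
    Fam a b N W G α c t₀ y₀ ∨ Fam a b N W G α c' t₀' y₀' := by
  by_contra hcon
  rw [not_or] at hcon
  obtain ⟨hc1, hc2⟩ := hcon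
  rw [Fam] at hc1 hc2
  push Not at hc1 hc2
  obtain ⟨s, hs, hW, hG, hy, hno⟩ := hc1
  obtain ⟨s', hs', hW', hG', hy', hno'⟩ := hc2
  have e1 := hpar.1 _ α β c t₀ y₀ (s : ↥(fixedField U)) h1 hs
  have e2 := hpar.1 _ α β c' t₀' y₀' (s' : ↥(fixedField U)) h2 hs'
  have f1 := hid _ hW
  have f2 := hid _ hW'
  change α * (tt α c t₀ y₀ (s : ↥(fixedField U))) ^ 2 + β =
    c * (yy α c t₀ y₀ (s : ↥(fixedField U))) ^ 2 at e1
  change α * (tt α c' t₀' y₀' (s' : ↥(fixedField U))) ^ 2 + β =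
    c' * (yy α c' t₀' y₀' (s' : ↥(fixedField U))) ^ 2 at e2
  rw [e1] at f1
  rw [e2] at f2
  set t := tt α c t₀ y₀ (s : ↥(fixedField U)) with ht
  set t' := tt α c' t₀' y₀' (s' : ↥(fixedField U)) with ht'
  set y := yy α c t₀ y₀ (s : ↥(fixedField U)) with hyd
  set y' := yy α c' t₀' y₀' (s' : ↥(fixedField U)) with hyd'
  have g1 : DD a b t (N.eval t / W.eval t) = c * (G.eval t * y / W.eval t ^ 2) ^ 2 := by
    field_simp
    linear_combination f1
  have g2 : DD a b t' (N.eval t' / W.eval t') = c' * (G.eval t' * y' / W.eval t' ^ 2) ^ 2 := by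
    field_simp
    linear_combination f2
  have n1 : G.eval t * y / W.eval t ^ 2 ≠ 0 := div_ne_zero (mul_ne_zero hG hy) (pow_ne_zero _ hW)
  have n2 : G.eval t' * y' / W.eval t' ^ 2 ≠ 0 :=
    div_ne_zero (mul_ne_zero hG' hy') (pow_ne_zero _ hW')
  have d1 : DD a b t (N.eval t / W.eval t) ≠ 0 := by
    rw [g1]
    exact mul_ne_zero hc (pow_ne_zero _ n1)
  have d2 : DD a b t' (N.eval t' / W.eval t') ≠ 0 := by
    rw [g2]
    exact mul_ne_zero hc' (pow_ne_zero _ n2)
  rcases disc_int h hU _ _ _ _ _ _ d1 d2 with ⟨x, hx⟩ | ⟨x, hx⟩ | ⟨w, hw⟩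
  · apply hno x
    linear_combination hx
  · apply hno' x
    linear_combination hx
  · apply hcc
    change w ^ 2 = DD a b t (N.eval t / W.eval t) * DD a b t' (N.eval t' / W.eval t') at hw
    rw [g1, g2] at hw
    refine ⟨w / ((G.eval t * y / W.eval t ^ 2) * (G.eval t' * y' / W.eval t' ^ 2)), ?_⟩
    have h3 := mul_ne_zero n1 n2
    rw [div_mul_div_comm, eq_div_iff (mul_ne_zero h3 h3)]
    linear_combination -hw

end

end Pool.Agent.N683.H2
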