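import Pool.Agent.N683.H2.Bot

/-! Infinite rank over fixed fields which contain `i` and a factor of the 3-torsion. -/

set_option autoImplicit false

namespace Pool.Agent.N683.H2

open IntermediateField WeierstrassCurve Polynomial
open Pool.Agent.N683.HR (crv cub HasPts bc_eq)
open Pool.Agent.R433.MD (IsHyper)

section
variable {K Ω : Type} [Field K] [NumberField K] [Field Ω] [Algebra K Ω] [Algebra.IsAlgebraic K Ω]
  [IsAlgClosed Ω] [DecidableEq Ω]

/-- a new point -/
theorem fam_pts (hpar : S_PARAM) (hind : S_IND) {A B : K} (hD : 4 * A ^ 3 + 27 * B ^ 2 ≠ 0)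
    {F : IntermediateField K Ω} {N W G : Polynomial ↥F} {α β c t₀ y₀ : ↥F} (hα : α ≠ 0)
    (hβ : β ≠ 0) (hc : c ≠ 0) (hy₀ : y₀ ≠ 0) (hG0 : G ≠ 0) (h1 : α * t₀ ^ 2 + β = c * y₀ ^ 2)
    {t₁ : Ω} (hW0 : aeval t₁ W = 0) (hW1 : aeval t₁ (derivative W) ≠ 0) (hN : aeval t₁ N ≠ 0)
    (hne : algebraMap F Ω α * t₁ ^ 2 + algebraMap F Ω β ≠ 0)
    (hf : Fam (algebraMap K F A) (algebraMap K F B) N W G α c t₀ y₀) {R : ℕ}
    (hP : HasPts A B F R) : HasPts A B F (R + 1) := by
  classical
  have _ : CharZero Ω := charZero_of_injective_algebraMap (algebraMap K Ω).injective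
  have hinj : Function.Injective (algebraMap F Ω) := (algebraMap F Ω).injective
  have hne0 : ∀ z : F, z ≠ 0 → algebraMap F Ω z ≠ 0 := fun z hz => (_root_.map_ne_zero _).mpr hz
  obtain ⟨P, hP, hr⟩ := hP
  obtain ⟨L, hL, hPL⟩ := pts_fin A B P
  have h1' : algebraMap F Ω α * (algebraMap F Ω t₀) ^ 2 + algebraMap F Ω β =
      algebraMap F Ω c * (algebraMap F Ω y₀) ^ 2 := by
    have := congrArg (algebraMap F Ω) h1
    simpa only [map_add, map_mul, map_pow] using this
  obtain ⟨s₀, hs1, hs2, hs3⟩ := hpar.2 Ω (algebraMap F Ω α) (algebraMap F Ω β) (algebraMap F Ω c)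
    (algebraMap F Ω t₀) (algebraMap F Ω y₀) t₁ (hne0 _ hα) (hne0 _ hβ) (hne0 _ hc) (hne0 _ hy₀) h1'
    hne
  set T₁ : Polynomial Ω := C (2 * algebraMap F Ω c * algebraMap F Ω y₀) * X -
    C (algebraMap F Ω α * algebraMap F Ω t₀) - C (algebraMap F Ω c * algebraMap F Ω t₀) * X ^ 2
    with hT1
  set T₂ : Polynomial Ω := C (algebraMap F Ω α) - C (algebraMap F Ω c) * X ^ 2 with hT2
  have eT1 : ∀ s : Ω, T₁.eval s = 2 * algebraMap F Ω c * algebraMap F Ω y₀ * s -
      algebraMap F Ω α * algebraMap F Ω t₀ - algebraMap F Ω c * algebraMap F Ω t₀ * s ^ 2 := by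
    intro s
    simp [hT1]
  have eT2 : ∀ s : Ω, T₂.eval s = algebraMap F Ω α - algebraMap F Ω c * s ^ 2 := by
    intro s
    simp [hT2]
  have eD1 : ∀ s : Ω, (derivative T₁).eval s = 2 * algebraMap F Ω c * algebraMap F Ω y₀ -
      2 * algebraMap F Ω c * algebraMap F Ω t₀ * s := by
    intro s
    simp [hT1]
    ring
  have eD2 : ∀ s : Ω, (derivative T₂).eval s = -2 * algebraMap F Ω c * s := by
    intro s
    simp [hT2]
    ring
  have hder : (derivative T₁).eval s₀ * T₂.eval s₀ - T₁.eval s₀ * (derivative T₂).eval s₀ ≠ 0 := by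
    rw [eD1, eD2, eT1, eT2]
    exact hs3
  -- the bad parameters
  set Y : Polynomial Ω := C (algebraMap F Ω α * algebraMap F Ω y₀) -
    C (2 * algebraMap F Ω α * algebraMap F Ω t₀) * X +
    C (algebraMap F Ω c * algebraMap F Ω y₀) * X ^ 2 with hY
  have hY0 : Y ≠ 0 := by
    intro h0
    have h2 := congrArg (fun P : Polynomial Ω => P.eval 0) h0
    simp [hY] at h2
    rcases h2 with h2 | h2
    · exact hα h2
    · exact hy₀ h2
  have hr0 : ∀ r : Ω, T₁ - C r * T₂ ≠ 0 := by
    intro r h0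
    apply hder
    have h2 : T₁ = C r * T₂ := sub_eq_zero.mp h0
    have h3 : derivative T₁ = C r * derivative T₂ := by rw [h2, derivative_C_mul]
    rw [h3, h2]
    simp only [eval_mul, eval_C]
    ring
  have hGm : G.map (algebraMap F Ω) ≠ 0 := (Polynomial.map_ne_zero_iff hinj).mpr hG0
  set T : Set ℚ := {s | Y.eval (s : Ω) = 0} ∪ ⋃ r ∈ {z : Ω | (G.map (algebraMap F Ω)).IsRoot z},
    {s : ℚ | (T₁ - C r * T₂).eval (s : Ω) = 0} with hTd
  have hT : T.Finite := (rat_fin hY0).union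
    (Set.Finite.biUnion (finite_setOfPred_isRoot hGm) fun r _ => rat_fin (hr0 r))
  obtain ⟨s, hsT, hsT2, hsW, hs⟩ := hind K Ω A B hD L T₁ T₂ (N.map (algebraMap F Ω))
    (W.map (algebraMap F Ω)) s₀ t₁ (by rw [eT2]; exact hs1) (by rw [eT1, eT2]; exact hs2) hder
    (by rw [eval_map_algebraMap]; exact hW0)
    (by rw [derivative_map, eval_map_algebraMap]; exact hW1)
    (by rw [eval_map_algebraMap]; exact hN) T hT
  have hcast : algebraMap F Ω (s : F) = (s : Ω) := map_ratCast _ _
  have htt : T₁.eval (s : Ω) / T₂.eval (s : Ω) = algebraMap F Ω (tt α c t₀ y₀ (s : F)) := by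
    rw [eT1, eT2, tt]
    simp only [map_div₀, map_sub, map_mul, map_pow, map_ofNat, hcast]
  have hev : ∀ (P : Polynomial F) (t : F), (P.map (algebraMap F Ω)).eval (algebraMap F Ω t) =
      algebraMap F Ω (P.eval t) := fun P t => eval_map_apply _ _
  rw [htt] at hsW hs
  rw [hev] at hsW
  simp only [hev] at hs
  obtain ⟨x, hx⟩ := hf s (by
    intro h0
    apply hsT2
    rw [eT2, ← hcast, ← map_pow, ← map_mul, ← map_sub, h0, map_zero]) (by
    intro h0
    apply hsW
    rw [h0, map_zero]) (by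
    intro h0
    apply hsT
    refine Or.inr ?_
    simp only [Set.mem_iUnion]
    refine ⟨algebraMap F Ω (tt α c t₀ y₀ (s : F)), ?_, ?_⟩
    · change (G.map (algebraMap F Ω)).IsRoot _
      rw [IsRoot.def, hev, h0, map_zero]
    · change (T₁ - C _ * T₂).eval (s : Ω) = 0
      rw [← htt, eval_sub, eval_mul, eval_C, div_mul_cancel₀ _ hsT2, sub_self]) (by
    intro h0
    apply hsT
    refine Or.inl ?_
    change Y.eval (s : Ω) = 0
    have hd : α - c * (s : F) ^ 2 ≠ 0 := by
      intro h0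
      apply hsT2
      rw [eT2, ← hcast, ← map_pow, ← map_mul, ← map_sub, h0, map_zero]
    rw [yy, div_eq_zero_iff, or_iff_left hd] at h0
    have h2 := congrArg (algebraMap F Ω) h0
    simp only [map_add, map_sub, map_mul, map_pow, map_ofNat, hcast, map_zero] at h2
    rw [← h2]
    simp [hY])
  set t := tt α c t₀ y₀ (s : F) with ht
  set y : F := t * x + N.eval t / W.eval t with hy
  have heq : (algebraMap F Ω y) ^ 2 = (algebraMap F Ω x) ^ 3 +
      algebraMap K Ω A * algebraMap F Ω x + algebraMap K Ω B := by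
    have h2 := congrArg (algebraMap F Ω) hx
    rw [map_add, map_add, map_mul, map_pow, map_pow] at h2
    rw [← h2]
    rfl
  have hns := nons hD heq
  refine ⟨Fin.cons (Affine.Point.some _ _ hns) P, ind_cons
    (Affine.Point.map (W' := crv A B) L.val).range P _ hP hPL (fun m hm => ?_), ?_⟩
  · refine hs _ _ ?_ hns m hm
    rw [hy]
    simp only [map_add, map_mul, map_div₀]
  · intro i
    refine Fin.cases ?_ (fun j => ?_) i
    · rw [Fin.cons_zero]
      have hns' : ((crv A B).baseChange F).toAffine.Nonsingular x y := by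
        exact (Affine.baseChange_nonsingular (crv A B) (f := F.val) F.val.injective ..).mp hns
      exact ⟨Affine.Point.some _ _ hns', rfl⟩
    · rw [Fin.cons_succ]
      exact hr j

/-- **Infinite rank over the fixed field.** -/
theorem bot (hdisc : S_DISC) (hsec : S_SEC) (hcon : S_CONIC) (hpar : S_PARAM) (hind : S_IND)
    (hqc : S_QC) {A B : K} (hA : A ≠ 0) (hB : B ≠ 0) (hD : 4 * A ^ 3 + 27 * B ^ 2 ≠ 0)
    {U : Subgroup Gal(Ω/K)} (hU : T2 U) (i : ↥(fixedField U)) (hi : i ^ 2 = -1)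
    (hX : (∃ X : ↥(fixedField U), Three (algebraMap K _ A) (algebraMap K _ B) X) ∨
      ∃ p q q' : ↥(fixedField U), p ≠ 0 ∧ Pair (algebraMap K _ A) (algebraMap K _ B) p q q')
    (R : ℕ) : HasPts A B (fixedField U) R := by
  classical
  have _ : CharZero Ω := charZero_of_injective_algebraMap (algebraMap K Ω).injective
  have _ : CharZero ↥(fixedField U) :=
    charZero_of_injective_algebraMap (algebraMap K ↥(fixedField U)).injective
  by_cases hq : ∀ z ∈ fixedField U, ∃ w ∈ fixedField U, w ^ 2 = z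
  · exact hqc K Ω A B hD _ hq R
  push Not at hq
  obtain ⟨z, hz, hzw⟩ := hq
  have hzs : ¬ IsSquare (⟨z, hz⟩ : ↥(fixedField U)) := by
    rintro ⟨w, hw⟩
    refine hzw w w.2 ?_
    have h1 := congrArg (fun v : ↥(fixedField U) => (v : Ω)) hw
    simp only [MulMemClass.coe_mul] at h1
    rw [h1, sq]
  have hA' : algebraMap K ↥(fixedField U) A ≠ 0 := (_root_.map_ne_zero _).mpr hA
  have hB' : algebraMap K ↥(fixedField U) B ≠ 0 := (_root_.map_ne_zero _).mpr hB
  have hD' : 4 * (algebraMap K ↥(fixedField U) A) ^ 3 +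
      27 * (algebraMap K ↥(fixedField U) B) ^ 2 ≠ 0 := by
    have h1 := (_root_.map_ne_zero (algebraMap K ↥(fixedField U))).mpr hD
    simpa only [map_add, map_mul, map_pow, map_ofNat] using h1
  obtain ⟨N, W, G, α, β, hα, hβ, hG, hid, t₁, hW0, hW1, hN, hne⟩ :=
    hsec ↥(fixedField U) Ω _ _ hA' hB' hD' hX
  obtain ⟨c, c', t, y, t', y', hc, hc', hcc, hy, hy', h1, h2⟩ := hcon _ i α β _ hi hα hβ hzs
  have hzero : HasPts A B (fixedField U) 0 :=
    ⟨Fin.elim0, linearIndependent_empty_type, fun i => i.elim0⟩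
  rcases dich hdisc hpar hU hc hc' hcc hid h1 h2 with hf | hf
  · induction R with
    | zero => exact hzero
    | succ R ih => exact fam_pts hpar hind hD hα hβ hc hy hG h1 hW0 hW1 hN hne hf ih
  · induction R with
    | zero => exact hzero
    | succ R ih => exact fam_pts hpar hind hD hα hβ hc' hy' hG h2 hW0 hW1 hN hne hf ih

end

end Pool.Agent.N683.H2
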