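import Pool.Agent.N683.H2.Stm

/-!
# Project H2 (helper683), second part: statements

The curve itself (no twist) has infinite rank over the fixed fields of groups all of whose finite images
are 2-hyperelementary.
-/

set_option autoImplicit false

namespace Pool.Agent.N683.H2

open IntermediateField WeierstrassCurve Polynomial
open Pool.Agent.N683.HR (crv cub HasPts)

/-- **Task PYTH.** Pythagorean fields. -/
def S_PYTH : Prop :=
  ∀ (K Ω : Type) [Field K] [NumberField K] [Field Ω] [Algebra K Ω] [Algebra.IsAlgebraic K Ω]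
    [IsAlgClosed Ω] [DecidableEq Ω] (A B : K), 4 * A ^ 3 + 27 * B ^ 2 ≠ 0 →
    ∀ F : IntermediateField K Ω, (∀ t ∈ F, ∃ w ∈ F, w ^ 2 = 1 + t ^ 2) →
      ∀ R : ℕ, HasPts A B F R

/-- **Task CONIC2.** The values of `α t² + β` lie in two different classes modulo squares, or the field
is pythagorean. -/
def S_CONIC2 : Prop :=
  ∀ (F : Type) [Field F] [CharZero F] (α β : F), α ≠ 0 → β ≠ 0 →
    (∃ c c' t y t' y' : F, c ≠ 0 ∧ c' ≠ 0 ∧ ¬ IsSquare (c * c') ∧ y ≠ 0 ∧ y' ≠ 0 ∧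
      α * t ^ 2 + β = c * y ^ 2 ∧ α * t' ^ 2 + β = c' * y' ^ 2) ∨
    ∀ t : F, ∃ w : F, w ^ 2 = 1 + t ^ 2

/-- **Task DIL** (Diller, Dress). If a quadratic extension is pythagorean then so is the field. -/
def S_DIL : Prop :=
  ∀ (K Ω : Type) [Field K] [Field Ω] [CharZero Ω] [Algebra K Ω] (F F' : IntermediateField K Ω)
    (p : Ω), F ≤ F' → p ∈ F' → p ∉ F → p ^ 2 ∈ F →
    (∀ z ∈ F', ∃ a ∈ F, ∃ b ∈ F, z = a + b * p) →
    (∀ t ∈ F', ∃ w ∈ F', w ^ 2 = 1 + t ^ 2) → ∀ t ∈ F, ∃ w ∈ F, w ^ 2 = 1 + t ^ 2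

/-- **Task IND2.** As `S_IND`, for the sum of a point on the line `y = t(s) x + n(s)`, `n(s)` with a
simple pole at `s₀`, and a point on the line `y = t'(s) x + n'(s)`, which is regular at `s₀` and not
tangent to the curve at `s = s₀`. -/
def S_IND2 : Prop :=
  ∀ (K Ω : Type) [Field K] [NumberField K] [Field Ω] [Algebra K Ω] [Algebra.IsAlgebraic K Ω]
    [IsAlgClosed Ω] [DecidableEq Ω] (A B : K), 4 * A ^ 3 + 27 * B ^ 2 ≠ 0 →
    ∀ (L : IntermediateField K Ω) [FiniteDimensional K L]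
      (T₁ T₂ N W T₁' T₂' N' W' : Polynomial Ω) (s₀ t₀ t₀' : Ω),
      T₂.eval s₀ ≠ 0 → T₁.eval s₀ = t₀ * T₂.eval s₀ →
      (derivative T₁).eval s₀ * T₂.eval s₀ - T₁.eval s₀ * (derivative T₂).eval s₀ ≠ 0 →
      W.eval t₀ = 0 → (derivative W).eval t₀ ≠ 0 → N.eval t₀ ≠ 0 →
      T₂'.eval s₀ ≠ 0 → T₁'.eval s₀ = t₀' * T₂'.eval s₀ → W'.eval t₀' ≠ 0 →
      DD (algebraMap K Ω A) (algebraMap K Ω B) t₀' (N'.eval t₀' / W'.eval t₀') ≠ 0 →
      ∀ T : Set ℚ, T.Finite → ∃ s : ℚ, s ∉ T ∧ T₂.eval (s : Ω) ≠ 0 ∧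
        W.eval (T₁.eval (s : Ω) / T₂.eval (s : Ω)) ≠ 0 ∧
        ∀ (x y x' y' : Ω), y = T₁.eval (s : Ω) / T₂.eval (s : Ω) * x +
            N.eval (T₁.eval (s : Ω) / T₂.eval (s : Ω)) / W.eval (T₁.eval (s : Ω) / T₂.eval (s : Ω)) →
          y' = T₁'.eval (s : Ω) / T₂'.eval (s : Ω) * x' +
            N'.eval (T₁'.eval (s : Ω) / T₂'.eval (s : Ω)) /
              W'.eval (T₁'.eval (s : Ω) / T₂'.eval (s : Ω)) →
          ∀ (h : ((crv A B).baseChange Ω).toAffine.Nonsingular x y)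
            (h' : ((crv A B).baseChange Ω).toAffine.Nonsingular x' y') (m : ℕ), 0 < m →
            m • (Affine.Point.some x y h + Affine.Point.some x' y' h') ∉
              (Affine.Point.map (W' := crv A B) L.val).range

end Pool.Agent.N683.H2
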