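import Pool.Agent.N683.H2.Bot2
import Pool.Agent.N683.H2.Stm3

/-! Infinite rank without the square root of -1. -/

set_option autoImplicit false

namespace Pool.Agent.N683.H2

open IntermediateField WeierstrassCurve Polynomial
open Pool.Agent.N683.HR (crv cub HasPts bc_eq)
open Pool.Agent.R433.MD (IsHyper)

section fam
variable {F : Type} [Field F]

/-- points in one family, for all parameters -/
def FamF (a b : F) (N W G : Polynomial F) (α c t₀ y₀ : F) : Prop :=
  ∀ s : F, α - c * s ^ 2 ≠ 0 → W.eval (tt α c t₀ y₀ s) ≠ 0 → G.eval (tt α c t₀ y₀ s) ≠ 0 →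
    yy α c t₀ y₀ s ≠ 0 →
    ∃ x : F, x ^ 3 + a * x + b =
      (tt α c t₀ y₀ s * x + N.eval (tt α c t₀ y₀ s) / W.eval (tt α c t₀ y₀ s)) ^ 2

theorem FamF.fam {a b : F} {N W G : Polynomial F} {α c t₀ y₀ : F}
    (h : FamF a b N W G α c t₀ y₀) : Fam a b N W G α c t₀ y₀ := fun s => h s

/-- `W ^ 4` times the discriminant of `x³ + a x + b - (t x + N / W)²` -/
def DH {R : Type} [CommRing R] (a b t N W : R) : R :=
  t ^ 4 * (a * W - 2 * t * N) ^ 2 * W ^ 2 - 4 * (a * W - 2 * t * N) ^ 3 * W +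
    4 * t ^ 6 * (b * W ^ 2 - N ^ 2) * W ^ 2 - 27 * (b * W ^ 2 - N ^ 2) ^ 2 -
    18 * t ^ 2 * (a * W - 2 * t * N) * (b * W ^ 2 - N ^ 2) * W

theorem DH_eq {a b t N W : F} (hW : W ≠ 0) : W ^ 4 * DD a b t (N / W) = DH a b t N W := by
  unfold DD dsc DH
  field_simp
  ring

/-- the identity of polynomials -/
theorem poly_id [CharZero F] {a b α β : F} {N W G : Polynomial F} (hW0 : W ≠ 0)
    (hid : ∀ t : F, W.eval t ≠ 0 →
        W.eval t ^ 4 * DD a b t (N.eval t / W.eval t) = G.eval t ^ 2 * (α * t ^ 2 + β)) :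
    DH (C a) (C b) X N W = G ^ 2 * (C α * X ^ 2 + C β) := by
  have h1 : W * (DH (C a) (C b) X N W - G ^ 2 * (C α * X ^ 2 + C β)) = 0 := by
    refine Polynomial.funext fun t => ?_
    rw [eval_mul, eval_zero]
    by_cases ht : W.eval t = 0
    · rw [ht, zero_mul]
    · have h2 := hid t ht
      rw [DH_eq ht] at h2
      refine mul_eq_zero_of_right _ ?_
      simp only [DH, eval_sub, eval_add, eval_mul, eval_pow, eval_C, eval_X, eval_ofNat] at h2 ⊢
      linear_combination h2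
  exact sub_eq_zero.mp ((mul_eq_zero.mp h1).resolve_left hW0)

end fam

section
variable {K Ω : Type} [Field K] [NumberField K] [Field Ω] [Algebra K Ω] [Algebra.IsAlgebraic K Ω]
  [IsAlgClosed Ω]

/-- one of the two families has points, for all parameters -/
theorem dichF (h : S_DISC) (hpar : S_PARAM) {U : Subgroup Gal(Ω/K)} (hU : T2 U)
    {a b α β c t₀ y₀ c' t₀' y₀' : ↥(fixedField U)} {N W G : Polynomial ↥(fixedField U)}
    (hc : c ≠ 0) (hc' : c' ≠ 0) (hcc : ¬ IsSquare (c * c'))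
    (hid : ∀ t : ↥(fixedField U), W.eval t ≠ 0 →
        W.eval t ^ 4 * DD a b t (N.eval t / W.eval t) = G.eval t ^ 2 * (α * t ^ 2 + β))
    (h1 : α * t₀ ^ 2 + β = c * y₀ ^ 2) (h2 : α * t₀' ^ 2 + β = c' * y₀' ^ 2) :
    FamF a b N W G α c t₀ y₀ ∨ FamF a b N W G α c' t₀' y₀' := by
  by_contra hcon
  rw [not_or] at hcon
  obtain ⟨hc1, hc2⟩ := hcon
  rw [FamF] at hc1 hc2
  push Not at hc1 hc2
  obtain ⟨s, hs, hW, hG, hy, hno⟩ := hc1
  obtain ⟨s', hs', hW', hG', hy', hno'⟩ := hc2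
  have e1 := hpar.1 _ α β c t₀ y₀ s h1 hs
  have e2 := hpar.1 _ α β c' t₀' y₀' s' h2 hs'
  have f1 := hid _ hW
  have f2 := hid _ hW'
  change α * (tt α c t₀ y₀ s) ^ 2 + β = c * (yy α c t₀ y₀ s) ^ 2 at e1
  change α * (tt α c' t₀' y₀' s') ^ 2 + β = c' * (yy α c' t₀' y₀' s') ^ 2 at e2
  rw [e1] at f1
  rw [e2] at f2
  set t := tt α c t₀ y₀ s with ht
  set t' := tt α c' t₀' y₀' s' with ht'
  set y := yy α c t₀ y₀ s with hyd
  set y' := yy α c' t₀' y₀' s' with hyd'
  have g1 : DD a b t (N.eval t / W.eval t) = c * (G.eval t * y / W.eval t ^ 2) ^ 2 := by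
    field_simp
    linear_combination f1
  have g2 : DD a b t' (N.eval t' / W.eval t') = c' * (G.eval t' * y' / W.eval t' ^ 2) ^ 2 := by
    field_simp
    linear_combination f2
  have n1 : G.eval t * y / W.eval t ^ 2 ≠ 0 := div_ne_zero (mul_ne_zero hG hy) (pow_ne_zero _ hW)
  have n2 : G.eval t' * y' / W.eval t' ^ 2 ≠ 0 :=
    div_ne_zero (mul_ne_zero hG' hy') (pow_ne_zero _ hW')
  have d1 : DD a b t (N.eval t / W.eval t) ≠ 0 := by
    rw [g1]
    exact mul_ne_zero hc (pow_ne_zero _ n1)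
  have d2 : DD a b t' (N.eval t' / W.eval t') ≠ 0 := by
    rw [g2]
    exact mul_ne_zero hc' (pow_ne_zero _ n2)
  rcases disc_int h hU _ _ _ _ _ _ d1 d2 with ⟨x, hx⟩ | ⟨x, hx⟩ | ⟨w, hw⟩
  · apply hno x
    linear_combination hx
  · apply hno' x
    linear_combination hx
  · apply hcc
    change w ^ 2 = DD a b t (N.eval t / W.eval t) * DD a b t' (N.eval t' / W.eval t') at hw
    rw [g1, g2] at hw
    refine ⟨w / ((G.eval t * y / W.eval t ^ 2) * (G.eval t' * y' / W.eval t' ^ 2)), ?_⟩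
    have h3 := mul_ne_zero n1 n2
    rw [div_mul_div_comm, eq_div_iff (mul_ne_zero h3 h3)]
    linear_combination -hw

variable [DecidableEq Ω]

/-- the pythagorean property for the field as a type -/
theorem pyth_mem {F : IntermediateField K Ω} (h : ∀ t : F, ∃ w : F, w ^ 2 = 1 + t ^ 2) :
    ∀ t ∈ F, ∃ w ∈ F, w ^ 2 = 1 + t ^ 2 := by
  intro t ht
  obtain ⟨w, hw⟩ := h ⟨t, ht⟩
  exact ⟨w, w.2, congrArg Subtype.val hw⟩

/-- **Infinite rank over the fixed field**, if it contains a factor of the 3-torsion. -/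
theorem bot' (hdisc : S_DISC) (hsec : S_SEC) (hcon : S_CONIC2) (hpar : S_PARAM) (hind : S_IND)
    (hpy : S_PYTH) {A B : K} (hA : A ≠ 0) (hB : B ≠ 0) (hD : 4 * A ^ 3 + 27 * B ^ 2 ≠ 0)
    {U : Subgroup Gal(Ω/K)} (hU : T2 U)
    (hX : (∃ X : ↥(fixedField U), Three (algebraMap K _ A) (algebraMap K _ B) X) ∨
      ∃ p q q' : ↥(fixedField U), p ≠ 0 ∧ Pair (algebraMap K _ A) (algebraMap K _ B) p q q')
    (R : ℕ) : HasPts A B (fixedField U) R := by
  classical
  have _ : CharZero Ω := charZero_of_injective_algebraMap (algebraMap K Ω).injective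
  have _ : CharZero ↥(fixedField U) :=
    charZero_of_injective_algebraMap (algebraMap K ↥(fixedField U)).injective
  have hA' : algebraMap K ↥(fixedField U) A ≠ 0 := (_root_.map_ne_zero _).mpr hA
  have hB' : algebraMap K ↥(fixedField U) B ≠ 0 := (_root_.map_ne_zero _).mpr hB
  have hD' : 4 * (algebraMap K ↥(fixedField U) A) ^ 3 +
      27 * (algebraMap K ↥(fixedField U) B) ^ 2 ≠ 0 := by
    have h1 := (_root_.map_ne_zero (algebraMap K ↥(fixedField U))).mpr hD
    simpa only [map_add, map_mul, map_pow, map_ofNat] using h1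
  obtain ⟨N, W, G, α, β, hα, hβ, hG, hid, t₁, hW0, hW1, hN, hne⟩ :=
    hsec ↥(fixedField U) Ω _ _ hA' hB' hD' hX
  rcases hcon ↥(fixedField U) α β hα hβ with
    ⟨c, c', t, y, t', y', hc, hc', hcc, hy, hy', h1, h2⟩ | hp
  · have hzero : HasPts A B (fixedField U) 0 :=
      ⟨Fin.elim0, linearIndependent_empty_type, fun i => i.elim0⟩
    rcases dichF hdisc hpar hU hc hc' hcc hid h1 h2 with hf | hf
    · induction R with
      | zero => exact hzero
      | succ R ih => exact fam_pts hpar hind hD hα hβ hc hy hG h1 hW0 hW1 hN hne hf.fam ih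
    · induction R with
      | zero => exact hzero
      | succ R ih => exact fam_pts hpar hind hD hα hβ hc' hy' hG h2 hW0 hW1 hN hne hf.fam ih
  · exact hpy K Ω A B hD _ (pyth_mem hp) R

/-- a point that is fixed by `U` is defined over the fixed field -/
theorem fix_range {A B : K} {U : Subgroup Gal(Ω/K)} {Q : (((crv A B).baseChange Ω).toAffine).Point}
    (h : ∀ u ∈ U, Affine.Point.map (W' := crv A B) (u : Ω →ₐ[K] Ω) Q = Q) :
    Q ∈ (Affine.Point.map (W' := crv A B) (fixedField U).val).range := by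
  rcases Q with _ | ⟨x, y, hxy⟩
  · exact ⟨0, rfl⟩
  · have h1 : ∀ u ∈ U, u x = x ∧ u y = y := by
      intro u hu
      have h2 := h u hu
      rw [Affine.Point.map_some, Affine.Point.some.injEq] at h2
      exact h2
    have hx : x ∈ fixedField U := (mem_fixedField_iff U x).mpr fun u hu => (h1 u hu).1
    have hy : y ∈ fixedField U := (mem_fixedField_iff U y).mpr fun u hu => (h1 u hu).2
    have hns' : ((crv A B).baseChange ↥(fixedField U)).toAffine.Nonsingular ⟨x, hx⟩ ⟨y, hy⟩ := by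
      exact (Affine.baseChange_nonsingular (crv A B) (f := (fixedField U).val)
        (fixedField U).val.injective ..).mp hxy
    exact ⟨Affine.Point.some _ _ hns', rfl⟩

end

end Pool.Agent.N683.H2
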