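import Pool.Agent.N683.HR.Asm
import Pool.Agent.N683.H2.Stm
import Pool.Agent.H341R2.NF.TwistEC

/-!
# Project H2 (helper683): statements about number fields
-/

set_option autoImplicit false

namespace Pool.Agent.N683.H2

open NumberField IsDedekindDomain IntermediateField WeierstrassCurve
open Pool.Agent.N683.HR (crv cub Rk)
open Pool.Agent.R433.MD (LL)
open Pool.Agent.H341R2.EC (IsMinAt twist)
open scoped Classical

/-- **Task D1.** Points over the fixed field from points with an action by signs. -/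
def S_D1 : Prop :=
  ∀ (K L : Type) [Field K] [NumberField K] [Field L] [NumberField L] [Algebra K L] [IsGalois K L]
    (A B : K) (H : Subgroup Gal(L/K)) (R : ℕ) (e : L), e ≠ 0 →
    (∃ P : Fin R → (((crv A B).baseChange L).toAffine).Point, LinearIndependent ℤ P ∧
      ∀ h ∈ H, (h e = e ∧ ∀ i, Affine.Point.map (W' := crv A B) (h : L →ₐ[K] L) (P i) = P i) ∨
        (h e = -e ∧ ∀ i, Affine.Point.map (W' := crv A B) (h : L →ₐ[K] L) (P i) = -P i)) →
    Rk R ((crv A B).map (algebraMap K ↥(fixedField H))) ∨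
      ∃ d : ↥(fixedField H), d ≠ 0 ∧ ¬ IsSquare d ∧
        Rk R (crv (algebraMap K ↥(fixedField H) A * d ^ 2) (algebraMap K ↥(fixedField H) B * d ^ 3))

/-- **Task TWL.** The L-series of `E` over a quadratic extension `F = K(√d)`. -/
def S_TWL : Prop :=
  ∀ (K F : Type) [Field K] [NumberField K] [Field F] [NumberField F] [Algebra K F]
    (E : WeierstrassCurve K), E.IsElliptic → ∀ d : K, d ≠ 0 → ¬ IsSquare d →
    Module.finrank K F = 2 → IsSquare (algebraMap K F d) →
    ∀ (V₀ V₂ : HeightOneSpectrum (𝓞 K) → WeierstrassCurve (𝓞 K))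
      (V₁ : HeightOneSpectrum (𝓞 F) → WeierstrassCurve (𝓞 F)),
      (∀ v, IsMinAt E v (V₀ v)) → (∀ w, IsMinAt (E.map (algebraMap K F)) w (V₁ w)) →
      (∀ v, IsMinAt (twist E d) v (V₂ v)) →
      ∃ ρ : ℂ → ℂ, MeromorphicOn ρ Set.univ ∧ meromorphicOrderAt ρ 1 = 0 ∧
        ∀ s : ℂ, 3 / 2 < s.re → ρ s ≠ 0 ∧ LL V₁ s = ρ s * (LL V₀ s * LL V₂ s)

/-- **Task RKTW.** The rank of `E` over a quadratic extension `F = K(√d)`. -/
def S_RKTW : Prop :=
  ∀ (K F : Type) [Field K] [NumberField K] [Field F] [NumberField F] [Algebra K F]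
    (E : WeierstrassCurve K), E.IsElliptic → ∀ d : K, d ≠ 0 → ¬ IsSquare d →
    Module.finrank K F = 2 → IsSquare (algebraMap K F d) →
    Module.rank ℤ (E.map (algebraMap K F)).toAffine.Point =
      Module.rank ℤ E.toAffine.Point + Module.rank ℤ (twist E d).toAffine.Point

end Pool.Agent.N683.H2
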