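import Pool.Agent.N683.H2.Top
import Pool.Agent.N683.H2.Stm2
import Pool.Agent.N683.HR.Two

/-! The finite level, and relations between permutation characters. -/

set_option autoImplicit false

namespace Pool.Agent.N683.H2

open NumberField IsDedekindDomain IntermediateField WeierstrassCurve
open Pool.Agent.N683.HR (crv cub Rk HasPts bc_eq rels iso S_ISO)
open Pool.Agent.R433.MD (Ext LL IsHyper map_restrict)
open Pool.Agent.H341R2.EC (IsMinAt twist)
open Pool.Agent.N19.BR (Cyc Cl LocDvd artin core good_real cyc_restrict loc_restrict loc_one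
  above above_finite good_loc good_cyc IsRel hyperOver_of)
open Pool.Agent.N19.BR.Def
open scoped Classical

/-- all statements that are used for the points -/
structure Hyps : Prop where
  disc : S_DISC
  psi : S_PSI
  sec : S_SEC
  conic : S_CONIC
  param : S_PARAM
  ind : S_IND
  qc : S_QC
  tw : S_TW
  cpt : S_CPT
  d1 : S_D1

/-- from the subfield of the algebraic closure to the abstract field -/
theorem lev_abs {K Ω : Type} [Field K] [NumberField K] [Field Ω] [Algebra K Ω] [DecidableEq Ω]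
    [Algebra.IsAlgebraic K Ω] [IsAlgClosed Ω] {A B : K} (L : IntermediateField K Ω) [Normal K L]
    [Normal K Ω] {U : Subgroup Gal(Ω/K)} {R : ℕ} {e : Ω} (heL : e ∈ L) (he0 : e ≠ 0)
    (h : TwPts A B L U R e) :
    ∀ [DecidableEq ↥L], ∃ e' : ↥L, e' ≠ 0 ∧
      ∃ P : Fin R → (((crv A B).baseChange ↥L).toAffine).Point, LinearIndependent ℤ P ∧
      ∀ h ∈ U.map (AlgEquiv.restrictNormalHom L),
        (h e' = e' ∧ ∀ i, Affine.Point.map (W' := crv A B) (h : L →ₐ[K] L) (P i) = P i) ∨
        (h e' = -e' ∧ ∀ i, Affine.Point.map (W' := crv A B) (h : L →ₐ[K] L) (P i) = -P i) := by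
  intro inst
  obtain ⟨P, hP, hPL, hPu⟩ := h
  choose P' hP0 using hPL
  have hP' : ∀ i, Affine.Point.map (W' := crv A B) L.val (P' i) = P i := fun i => hP0 i
  have hinj : Function.Injective (Affine.Point.map (W' := crv A B) L.val) :=
    Affine.Point.map_injective _
  refine ⟨⟨e, heL⟩, fun h0 => he0 (congrArg Subtype.val h0), P', ?_, ?_⟩
  · refine LinearIndependent.of_comp ((Affine.Point.map (W' := crv A B) L.val).toIntLinearMap) ?_
    have h2 : (⇑((Affine.Point.map (W' := crv A B) L.val).toIntLinearMap) ∘ P') = P :=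
      funext hP'
    rw [h2]
    exact hP
  · rintro g ⟨u, huU, rfl⟩
    have hcomp : (u : Ω →ₐ[K] Ω).comp L.val =
        L.val.comp ((AlgEquiv.restrictNormalHom L u : L ≃ₐ[K] L) : L →ₐ[K] L) := by
      ext z
      exact (AlgEquiv.restrictNormalHom_apply L u z).symm
    have hval : ∀ z : L, (((AlgEquiv.restrictNormalHom L u) z : L) : Ω) = u z :=
      fun z => AlgEquiv.restrictNormalHom_apply L u z
    have hpt : ∀ i, Affine.Point.map (W' := crv A B) L.val
        (Affine.Point.map (W' := crv A B)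
          ((AlgEquiv.restrictNormalHom L u : L ≃ₐ[K] L) : L →ₐ[K] L) (P' i)) =
        Affine.Point.map (W' := crv A B) (u : Ω →ₐ[K] Ω) (P i) := by
      intro i
      rw [← hP', Affine.Point.map_map, Affine.Point.map_map, hcomp]
    rcases hPu u huU with ⟨h1, h2⟩ | ⟨h1, h2⟩
    · refine Or.inl ⟨Subtype.ext ?_, fun i => hinj ?_⟩
      · rw [hval]
        exact h1
      · rw [hpt, h2, hP']
    · refine Or.inr ⟨Subtype.ext ?_, fun i => hinj ?_⟩
      · rw [hval]
        exact h1
      · rw [hpt, h2, map_neg, hP']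

/-- **Points on a quadratic twist over the fixed fields of 2-hyperelementary groups.** -/
theorem two_hyp (h : Hyps) (K : Type) [Field K] [NumberField K] {A B : K} (hA : A ≠ 0)
    (hB : B ≠ 0) (hD : 4 * A ^ 3 + 27 * B ^ 2 ≠ 0) (R : ℕ) :
    ∃ (L : Type) (_ : Field L) (_ : NumberField L) (_ : Algebra K L) (_ : IsGalois K L),
      ∀ H : Subgroup Gal(L/K), IsHyper 2 H →
        Rk R ((crv A B).map (algebraMap K ↥(fixedField H))) ∨
        ∃ d : ↥(fixedField H), d ≠ 0 ∧ ¬ IsSquare d ∧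
          Rk R (crv (algebraMap K ↥(fixedField H) A * d ^ 2)
            (algebraMap K ↥(fixedField H) B * d ^ 3)) := by
  have _ : IsAlgClosure K (AlgebraicClosure K) := inferInstance
  obtain ⟨L, hN, hfd, hL⟩ := fin_lev (K := K) (Ω := AlgebraicClosure K) h.cpt (A := A) (B := B) R
    (fun U hU => top h.disc h.psi h.sec h.conic h.param h.ind h.qc h.tw hA hB hD hU R)
  have _ : NumberField L := NumberField.of_module_finite K L
  have _ : IsGalois K L := ⟨⟩
  have key : ∀ H : Subgroup Gal(L/K), IsHyper 2 H → ∀ [DecidableEq ↥L], ∃ e' : ↥L, e' ≠ 0 ∧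
      ∃ P : Fin R → (((crv A B).baseChange ↥L).toAffine).Point, LinearIndependent ℤ P ∧
      ∀ h ∈ H,
        (h e' = e' ∧ ∀ i, Affine.Point.map (W' := crv A B) (h : L →ₐ[K] L) (P i) = P i) ∨
        (h e' = -e' ∧ ∀ i, Affine.Point.map (W' := crv A B) (h : L →ₐ[K] L) (P i) = -P i) := by
    intro H hH inst
    have hmap : (H.comap (AlgEquiv.restrictNormalHom (K₁ := AlgebraicClosure K) L)).map
        (AlgEquiv.restrictNormalHom L) = H :=
      Subgroup.map_comap_eq_self_of_surjective (AlgEquiv.restrictNormalHom_surjective _) H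
    obtain ⟨e, heL, he0, hTw⟩ := hL (H.comap (AlgEquiv.restrictNormalHom L))
      (by rw [hmap]; exact hH)
    have h1 := lev_abs L heL he0 hTw
    rw [hmap] at h1
    exact h1
  exact ⟨L, inferInstance, inferInstance, inferInstance, inferInstance, fun H hH => by
    obtain ⟨e', he', hP⟩ := @key H hH (fun a b => Classical.propDecidable (a = b))
    exact h.d1 K L A B H R e' he' hP⟩

/-- the rank of `E` or of a proper quadratic twist over `Z.F` is at least `R` -/
def P2 {K : Type} [Field K] [NumberField K] (R : ℕ) (E : WeierstrassCurve K) (Z : Ext K) : Prop :=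
  Rk R (E.map (algebraMap K Z.F)) ∨
    ∃ d : Z.F, d ≠ 0 ∧ ¬ IsSquare d ∧ Rk R (twist (E.map (algebraMap K Z.F)) d)

theorem invs {K : Type} [Field K] [NumberField K] (E : WeierstrassCurve K) (hE : E.IsElliptic)
    (h0 : E.j ≠ 0) (h1 : E.j ≠ 1728) : E.Δ ≠ 0 ∧ -27 * E.c₄ ≠ 0 ∧ -54 * E.c₆ ≠ 0 ∧
      4 * (-27 * E.c₄) ^ 3 + 27 * (-54 * E.c₆) ^ 2 ≠ 0 := by
  have hΔ : E.Δ ≠ 0 := by
    rw [← E.coe_Δ']
    exact E.Δ'.ne_zero
  have hj : E.j * E.Δ = E.c₄ ^ 3 := by
    rw [WeierstrassCurve.j, ← E.coe_Δ', mul_comm, ← mul_assoc, Units.mul_inv, one_mul]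
  have hrel := E.c_relation
  have hc4 : E.c₄ ≠ 0 := by
    intro h
    rw [h] at hj
    apply h0
    have h2 : E.j * E.Δ = 0 := by rw [hj]; ring
    exact (mul_eq_zero.mp h2).resolve_right hΔ
  have hc6 : E.c₆ ≠ 0 := by
    intro h
    apply h1
    have h2 : (E.j - 1728) * E.Δ = 0 := by
      rw [h] at hrel
      linear_combination hj - hrel
    exact sub_eq_zero.mp ((mul_eq_zero.mp h2).resolve_right hΔ)
  refine ⟨hΔ, mul_ne_zero (by norm_num) hc4, mul_ne_zero (by norm_num) hc6, ?_⟩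
  have h2 : 4 * (-27 * E.c₄) ^ 3 + 27 * (-54 * E.c₆) ^ 2 = -136048896 * E.Δ := by
    linear_combination -78732 * (-hrel)
  rw [h2]
  exact mul_ne_zero (by norm_num) hΔ

/-- relations with fields over which `E` or a quadratic twist has large rank -/
theorem good_two (h : Hyps) (K : Type) [Field K] [NumberField K] (E : WeierstrassCurve K)
    (hE : E.IsElliptic) (h0 : E.j ≠ 0) (h1 : E.j ≠ 1728) (R : ℕ) :
    Pool.Agent.N19.BR.Good 2 K (P2 R E) := by
  obtain ⟨hΔ, hA, hB, hD⟩ := invs E hE h0 h1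
  obtain ⟨L, _, _, _, _, hL⟩ := two_hyp h K hA hB hD R
  have key : ∀ F : IntermediateField K L, Cl 2 F.fixingSubgroup →
      Rk R ((crv (-27 * E.c₄) (-54 * E.c₆)).map (algebraMap K F)) ∨
      ∃ d : F, d ≠ 0 ∧ ¬ IsSquare d ∧
        Rk R (crv (algebraMap K F (-27 * E.c₄) * d ^ 2) (algebraMap K F (-54 * E.c₆) * d ^ 3)) := by
    intro F hF
    have hF2 : IsHyper 2 F.fixingSubgroup := by
      rcases hF with ⟨h2, -⟩ | ⟨-, h2⟩
      · exact absurd h2 (by norm_num)
      · exact h2
    have h2 := hL F.fixingSubgroup hF2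
    rw [IsGalois.fixedField_fixingSubgroup] at h2
    exact h2
  have good : Pool.Agent.N19.BR.Good 2 K (fun Z =>
      Rk R ((crv (-27 * E.c₄) (-54 * E.c₆)).map (algebraMap K Z.F)) ∨
      ∃ d : Z.F, d ≠ 0 ∧ ¬ IsSquare d ∧ Rk R (crv (algebraMap K Z.F (-27 * E.c₄) * d ^ 2)
        (algebraMap K Z.F (-54 * E.c₆) * d ^ 3))) := by
    refine (artin (Or.inr Nat.prime_two) K L).mono ?_
    rintro Z ⟨F, hF, rfl⟩
    exact key F hF
  refine good.mono ?_
  intro Z hZ
  have hΔ' : (E.map (algebraMap K Z.F)).Δ ≠ 0 := by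
    rw [WeierstrassCurve.map_Δ]
    exact (map_ne_zero _).mpr hΔ
  have e27 : algebraMap K Z.F 27 = 27 := map_ofNat _ _
  have e54 : algebraMap K Z.F 54 = 54 := map_ofNat _ _
  rcases hZ with h3 | ⟨d, hd0, hds, h3⟩
  · refine Or.inl ?_
    obtain ⟨φ, hφ⟩ := iso Z.F (E.map (algebraMap K Z.F)) hΔ'
    have e : (crv (-27 * E.c₄) (-54 * E.c₆)).map (algebraMap K Z.F) =
        crv (-27 * (E.map (algebraMap K Z.F)).c₄) (-54 * (E.map (algebraMap K Z.F)).c₆) := by
      rw [WeierstrassCurve.map_c₄, WeierstrassCurve.map_c₆]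
      simp [crv, WeierstrassCurve.map, e27, e54]
    rw [e] at h3
    exact h3.of_inj φ hφ
  · refine Or.inr ⟨d, hd0, hds, ?_⟩
    have e : crv (algebraMap K Z.F (-27 * E.c₄) * d ^ 2) (algebraMap K Z.F (-54 * E.c₆) * d ^ 3) =
        twist (E.map (algebraMap K Z.F)) d := by
      unfold twist crv
      rw [WeierstrassCurve.map_c₄, WeierstrassCurve.map_c₆]
      simp only [map_mul, map_neg, e27, e54, WeierstrassCurve.mk.injEq, true_and]
      constructor <;> ring
    rw [e] at h3
    exact h3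

end Pool.Agent.N683.H2
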