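import Pool.Agent.N683.H2.Fin2

/-! Relations with coefficient 1. -/

set_option autoImplicit false

namespace Pool.Agent.N683.H2

open NumberField IsDedekindDomain IntermediateField WeierstrassCurve
open Pool.Agent.N683.HR (crv cub Rk HasPts bc_eq rels iso S_ISO)
open Pool.Agent.R433.MD (Ext LL IsHyper map_restrict)
open Pool.Agent.H341R2.EC (IsMinAt twist)
open Pool.Agent.N19.BR (Cyc Cl LocDvd artin core good_real cyc_restrict loc_restrict loc_one
  above above_finite good_loc good_cyc IsRel hyperOver_of)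
open Pool.Agent.N19.BR.Def
open scoped Classical

/-- the scaling isomorphism -/
def S_SC : Prop :=
  ∀ (F : Type) [Field F] [CharZero F] [DecidableEq F] (A B r : F), r ≠ 0 →
    ∃ φ : (crv (A * r ^ 4) (B * r ^ 6)).toAffine.Point →+ (crv A B).toAffine.Point,
      Function.Injective φ

/-- quadratic extensions -/
theorem exists_quad (K : Type) [Field K] [NumberField K] {d : K} (hd : ¬ IsSquare d) :
    ∃ Y : Ext K, Module.finrank K Y.F = 2 ∧ IsSquare (algebraMap K Y.F d) := by
  obtain ⟨r, hr⟩ := IsAlgClosed.exists_pow_nat_eq (algebraMap K (AlgebraicClosure K) d) (n := 2)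
    (by norm_num)
  have hint : IsIntegral K r := Algebra.IsIntegral.isIntegral r
  have hirr : Irreducible (Polynomial.X ^ 2 - Polynomial.C d : Polynomial K) := by
    refine X_pow_sub_C_irreducible_of_prime Nat.prime_two fun b hb => hd ⟨b, ?_⟩
    rw [← hb, sq]
  have hmin : minpoly K r = Polynomial.X ^ 2 - Polynomial.C d := by
    refine (minpoly.eq_of_irreducible_of_monic hirr ?_ (Polynomial.monic_X_pow_sub_C d
      (by norm_num))).symm
    simp [hr]
  have hfd : FiniteDimensional K (adjoin K {r}) := adjoin.finiteDimensional hint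
  have hnf : NumberField (adjoin K {r}) := NumberField.of_module_finite K _
  refine ⟨⟨adjoin K {r}⟩, ?_, ?_⟩
  · change Module.finrank K (adjoin K {r}) = 2
    rw [adjoin.finrank hint, hmin, Polynomial.natDegree_X_pow_sub_C]
  · refine ⟨(⟨r, mem_adjoin_simple_self K r⟩ : adjoin K {r}), ?_⟩
    apply Subtype.ext
    change algebraMap K (AlgebraicClosure K) d = r * r
    rw [← hr, sq]

/-- combination of the relations for all prime numbers -/
theorem one_rel {K : Type} [Field K] [NumberField K] {P : Ext K → Prop}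
    (h : ∀ p : ℕ, p.Prime → Pool.Agent.N19.BR.Good p K P) :
    ∃ (ι : Type) (_ : Fintype ι) (Z : ι → Ext K) (e : ι → ℤ),
      IsRel K Z e 1 ∧ ∀ i, P (Z i) := by
  classical
  let A : Set ℕ := {m | 0 < m ∧ ∃ (ι : Type) (_ : Fintype ι) (Z : ι → Ext K) (e : ι → ℤ),
    IsRel K Z e m ∧ ∀ i, P (Z i)}
  have hA : A.Nonempty := by
    obtain ⟨ι, hι, Z, e, m, hm, hr, hP⟩ := h 3 Nat.prime_three
    exact ⟨m, Nat.pos_of_ne_zero fun h0 => hm (h0 ▸ dvd_zero 3), ι, hι, Z, e, hr, hP⟩
  obtain ⟨hpos, ι, hι, Z, e, hr, hP⟩ := Nat.sInf_mem hA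
  have hmin : ∀ m ∈ A, sInf A ≤ m := fun m hm => Nat.sInf_le hm
  have h1 : sInf A = 1 := by
    by_contra hne
    obtain ⟨q, hq, hqd⟩ := Nat.exists_prime_and_dvd hne
    obtain ⟨κ, hκ, Y, d, k, hk, hY, hPY⟩ := h q hq
    have hg : IsRel K (Sum.elim Z Y) (Sum.elim (fun i => (sInf A).gcdA k * e i)
        (fun j => (sInf A).gcdB k * d j)) ((sInf A).gcd k) := by
      refine hr.add hY ?_
      rw [Nat.gcd_eq_gcd_ab (sInf A) k]
      ring
    have hgA : (sInf A).gcd k ∈ A := by
      refine ⟨Nat.gcd_pos_of_pos_left _ hpos, _, _, _, _, hg, ?_⟩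
      rintro (i | j)
      · exact hP i
      · exact hPY j
    have h2 := hmin _ hgA
    have h3 : (sInf A).gcd k = sInf A :=
      le_antisymm (Nat.le_of_dvd hpos (Nat.gcd_dvd_left _ _)) h2
    exact hk (hqd.trans (h3 ▸ Nat.gcd_dvd_right _ _))
  rw [h1] at hr
  exact ⟨ι, hι, Z, e, hr, hP⟩

section
variable {K : Type} [Field K] [NumberField K]

/-- `E` has large rank over `Z`, or a twist has large rank and the prime is 2 -/
def AB (L : Type) [Field L] [Algebra K L] (S : Set (HeightOneSpectrum (𝓞 K))) (n : ℕ) (R : ℕ)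
    (E : WeierstrassCurve K) (Z : Ext K) : Prop :=
  (HyperelementaryClass L S n Z ∧ Rk R (E.map (algebraMap K Z.F))) ∨
    (Cyc 2 L Z ∧ (∀ k : ℕ, k ∣ n → k.Coprime 2 → LocDvd K S k Z.F) ∧
      ∃ d : Z.F, d ≠ 0 ∧ ¬ IsSquare d ∧ Rk R (twist (E.map (algebraMap K Z.F)) d))

theorem loc_all {S : Set (HeightOneSpectrum (𝓞 K))} {n p : ℕ} (hp : p.Prime) {Z : Ext K}
    (h : LocDvd K S (n / p ^ n.factorization p) Z.F) (k : ℕ) (hk : k ∣ n) (hkp : k.Coprime p) :
    LocDvd K S k Z.F := by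
  intro v hv w hw hwv
  refine dvd_trans ?_ (h v hv w hw hwv)
  have h6 : k ∣ p ^ n.factorization p * (n / p ^ n.factorization p) := by
    rw [Nat.ordProj_mul_ordCompl_eq_self]
    exact hk
  exact (Nat.Coprime.pow_right _ hkp).dvd_of_dvd_mul_left h6

theorem rel_ab (h : Hyps) (E : WeierstrassCurve K) (hE : E.IsElliptic) (h0 : E.j ≠ 0)
    (h1 : E.j ≠ 1728) (L : Type) [Field L] [NumberField L] [Algebra K L] [IsGalois K L]
    (S : Set (HeightOneSpectrum (𝓞 K))) (hS : S.Finite) (n : ℕ) (hn : n ≠ 0) (R : ℕ) :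
    ∃ (ι : Type) (_ : Fintype ι) (Z : ι → Ext K) (e : ι → ℤ), IsRel K Z e 1 ∧
      ∀ i, AB L S n R E (Z i) := by
  refine one_rel fun p hp => ?_
  have hc0 : n / p ^ n.factorization p ≠ 0 :=
    (Nat.div_pos (Nat.le_of_dvd (Nat.pos_of_ne_zero hn) (Nat.ordProj_dvd n p))
      (pow_pos hp.pos _)).ne'
  by_cases hp2 : p = 2
  · subst hp2
    refine (core (Or.inr hp) K L hS hc0 (fun _ => (Nat.coprime_ordCompl hp hn).symm)).comp
      (Or.inr hp) (fun Z Y => P2 R (E.map (algebraMap K Z.F)) Y) ?_ ?_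
    · intro Z _
      refine good_two h Z.F (E.map (algebraMap K Z.F)) inferInstance ?_ ?_ R
      · rw [WeierstrassCurve.map_j]
        exact (map_ne_zero _).mpr h0
      · rw [WeierstrassCurve.map_j]
        intro h
        apply h1
        apply (algebraMap K Z.F).injective
        rw [h, map_ofNat]
    · rintro Z Y ⟨h3, h4, -⟩ h5
      have h6 := loc_restrict Z Y h4 (loc_one _ Y.F)
      rw [mul_one] at h6
      have h7 := cyc_restrict Z Y h3
      have h8 := fun k hk hkp => loc_all (Z := Z.restrict Y) hp h6 k hk hkp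
      rcases h5 with h5 | ⟨d, hd0, hds, h5⟩
      · refine Or.inl ⟨⟨2, hp, hyperOver_of hp h7, h8, fun h9 => absurd rfl h9⟩, ?_⟩
        rw [map_restrict]
        exact h5
      · refine Or.inr ⟨h7, h8, d, hd0, hds, ?_⟩
        rw [map_restrict]
        exact h5
  · refine (rels iso (Or.inr hp) hp2 K L hS hc0 (fun _ => (Nat.coprime_ordCompl hp hn).symm) E hE
      h0 h1 R).mono ?_
    rintro Z ⟨h2, h3, h4, h5⟩
    exact Or.inl ⟨⟨p, hp, hyperOver_of hp h2, fun k hk hkp => loc_all hp h3 k hk hkp,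
      fun _ => h4⟩, h5⟩

theorem rk_quad (hsc : S_SC) {E : WeierstrassCurve K} (hE : E.IsElliptic) {d : K} (hd0 : d ≠ 0)
    {R : ℕ} (h : Rk R (twist E d)) {F : Type} [Field F] [NumberField F] [Algebra K F]
    (hsq : IsSquare (algebraMap K F d)) : Rk R (E.map (algebraMap K F)) := by
  obtain ⟨r, hr⟩ := hsq
  have hr0 : r ≠ 0 := by
    rintro rfl
    rw [mul_zero, map_eq_zero] at hr
    exact hd0 hr
  have hΔ' : (E.map (algebraMap K F)).Δ ≠ 0 := by
    rw [WeierstrassCurve.map_Δ]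
    refine (map_ne_zero _).mpr ?_
    rw [← E.coe_Δ']
    exact E.Δ'.ne_zero
  obtain ⟨φ, hφ⟩ := iso F (E.map (algebraMap K F)) hΔ'
  obtain ⟨ψ, hψ⟩ := hsc F (-27 * (E.map (algebraMap K F)).c₄) (-54 * (E.map (algebraMap K F)).c₆)
    r hr0
  have e27 : algebraMap K F 27 = 27 := map_ofNat _ _
  have e54 : algebraMap K F 54 = 54 := map_ofNat _ _
  have e : (twist E d).map (algebraMap K F) =
      crv (-27 * (E.map (algebraMap K F)).c₄ * r ^ 4) (-54 * (E.map (algebraMap K F)).c₆ * r ^ 6) := by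
    unfold twist crv
    rw [WeierstrassCurve.map_c₄, WeierstrassCurve.map_c₆]
    simp only [WeierstrassCurve.map, map_mul, map_neg, map_pow, map_zero, e27, e54, hr,
      WeierstrassCurve.mk.injEq, true_and]
    constructor <;> ring
  have h1 := Rk.up (F' := F) h
  rw [e] at h1
  exact (h1.of_inj ψ hψ).of_inj φ hφ

end

end Pool.Agent.N683.H2
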