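import Pool.Agent.N683.H2.Top2
import Pool.Agent.N683.H2.Fin3

/-! The finite level, without twists. -/

set_option autoImplicit false

namespace Pool.Agent.N683.H2

open NumberField IsDedekindDomain IntermediateField WeierstrassCurve
open Pool.Agent.N683.HR (crv cub Rk HasPts bc_eq rels iso S_ISO)
open Pool.Agent.R433.MD (Ext LL IsHyper map_restrict)
open Pool.Agent.N19.BR (Cyc Cl LocDvd artin core good_real cyc_restrict loc_restrict loc_one
  above above_finite good_loc good_cyc IsRel hyperOver_of)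
open Pool.Agent.N19.BR.Def

section
variable {K Ω : Type} [Field K] [NumberField K] [Field Ω] [Algebra K Ω] [Algebra.IsAlgebraic K Ω]
  [IsAlgClosed Ω] [DecidableEq Ω]

omit [NumberField K] [Algebra.IsAlgebraic K Ω] [IsAlgClosed Ω] in
theorem coord_mem {A B : K} {F : IntermediateField K Ω} {x y : Ω}
    {h : ((crv A B).baseChange Ω).toAffine.Nonsingular x y}
    (hP : Affine.Point.some x y h ∈ (Affine.Point.map (W' := crv A B) F.val).range) :
    x ∈ F ∧ y ∈ F := by
  obtain ⟨P', hP'⟩ := hP
  rcases P' with _ | ⟨x', y', h'⟩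
  · exact absurd (hP'.symm.trans (map_zero _)) (Affine.Point.some_ne_zero h)
  · rw [Affine.Point.map_some, Affine.Point.some.injEq] at hP'
    exact ⟨hP'.1 ▸ x'.2, hP'.2 ▸ y'.2⟩

omit [NumberField K] [Algebra.IsAlgebraic K Ω] [IsAlgClosed Ω] in
theorem inf_range {A B : K} {F F' : IntermediateField K Ω}
    {P : (((crv A B).baseChange Ω).toAffine).Point}
    (h : P ∈ (Affine.Point.map (W' := crv A B) F.val).range)
    (h' : P ∈ (Affine.Point.map (W' := crv A B) F'.val).range) :
    P ∈ (Affine.Point.map (W' := crv A B) (F ⊓ F').val).range := by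
  rcases P with _ | ⟨x, y, hxy⟩
  · exact ⟨0, rfl⟩
  · obtain ⟨h1, h2⟩ := coord_mem h
    obtain ⟨h3, h4⟩ := coord_mem h'
    have hns' : ((crv A B).baseChange ↥(F ⊓ F')).toAffine.Nonsingular ⟨x, h1, h3⟩ ⟨y, h2, h4⟩ := by
      exact (Affine.baseChange_nonsingular (crv A B) (f := (F ⊓ F').val)
        (F ⊓ F').val.injective ..).mp hxy
    exact ⟨Affine.Point.some _ _ hns', rfl⟩

/-- the finite level -/
theorem fin_lev2 (hcpt : S_CPT) {A B : K} (R : ℕ)
    (h : ∀ U : Subgroup Gal(Ω/K), T2 U → HasPts A B (fixedField U) R) :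
    ∃ (L : IntermediateField K Ω) (_ : Normal K L), FiniteDimensional K L ∧
      ∀ U : Subgroup Gal(Ω/K), IsHyper 2 (U.map (AlgEquiv.restrictNormalHom L)) →
        HasPts A B (L ⊓ fixedField U) R := by
  classical
  have _ : CharZero Ω := charZero_of_injective_algebraMap (algebraMap K Ω).injective
  have _ : IsAlgClosure K Ω := ⟨inferInstance, inferInstance⟩
  have _ : Normal K Ω := IsAlgClosure.normal K Ω
  refine hcpt K Ω (fun L U => HasPts A B (L ⊓ fixedField U) R) ?_ ?_
  · intro L L' _ _ _ _ U U' hLL' hUU' hQ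
    refine hQ.mono (le_inf (inf_le_left.trans hLL') ?_)
    rintro z ⟨hz, hzU⟩
    change z ∈ fixedField U at hzU
    rw [mem_fixedField_iff] at hzU ⊢
    intro u hu
    obtain ⟨v, hv, hvu⟩ := hUU' ⟨u, hu, rfl⟩
    rw [← res_eq L hvu hz]
    exact hzU v hv
  · intro U hU
    obtain ⟨P, hP, hPu⟩ := h U hU
    obtain ⟨L, hL, hPL⟩ := pts_fin A B P
    have hle : L ≤ normalClosure K ↥L Ω := le_normalClosure _
    refine ⟨normalClosure K ↥L Ω, inferInstance, inferInstance, P, hP, fun i => ?_⟩
    refine inf_range ?_ (hPu i)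
    obtain ⟨P', hP'⟩ := hPL i
    refine ⟨Affine.Point.map (W' := crv A B) (IntermediateField.inclusion hle) P', ?_⟩
    rw [← hP', Affine.Point.map_map]
    rfl

end

/-- all statements that are used for the points, without twists -/
structure Hyps2 : Prop where
  disc : S_DISC
  psi : S_PSI
  sec : S_SEC
  conic : S_CONIC2
  param : S_PARAM
  ind : S_IND
  ind2 : S_IND2
  dil : S_DIL
  pyth : S_PYTH
  cpt : S_CPT

/-- **Points over the fixed fields of 2-hyperelementary groups.** -/
theorem hyp_rank (h : Hyps2) (K : Type) [Field K] [NumberField K] {A B : K} (hA : A ≠ 0)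
    (hB : B ≠ 0) (hD : 4 * A ^ 3 + 27 * B ^ 2 ≠ 0) (R : ℕ) :
    ∃ (L : Type) (_ : Field L) (_ : NumberField L) (_ : Algebra K L) (_ : IsGalois K L),
      ∀ H : Subgroup Gal(L/K), IsHyper 2 H → ∀ [DecidableEq ↥(fixedField H)],
          ∃ P : Fin R → (((crv A B).baseChange ↥(fixedField H)).toAffine).Point,
            LinearIndependent ℤ P := by
  classical
  have _ : IsAlgClosure K (AlgebraicClosure K) := inferInstance
  obtain ⟨L, hN, hfd, hL⟩ := fin_lev2 (K := K) (Ω := AlgebraicClosure K) h.cpt (A := A) (B := B) R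
    (fun U hU => top2 h.disc h.psi h.sec h.conic h.param h.ind h.ind2 h.dil h.pyth hA hB hD hU R)
  have _ : NumberField L := NumberField.of_module_finite K L
  have _ : IsGalois K L := ⟨⟩
  refine ⟨L, inferInstance, inferInstance, inferInstance, inferInstance, ?_⟩
  intro H hH
  set U : Subgroup Gal(AlgebraicClosure K/K) := H.comap (AlgEquiv.restrictNormalHom L) with hU
  have hmap : U.map (AlgEquiv.restrictNormalHom L) = H :=
    Subgroup.map_comap_eq_self_of_surjective (AlgEquiv.restrictNormalHom_surjective _) H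
  have hF : L ⊓ fixedField U = lift (fixedField H) := by
    rw [inf_comm, InfiniteGalois.restrict_fixedField, hmap]
  obtain ⟨P, hP, hPr⟩ := hL U (by rw [hmap]; exact hH)
  rw [hF] at hPr
  let e : ↥(fixedField H) ≃ₐ[K] lift (fixedField H) := liftAlgEquiv (fixedField H)
  intro _
  choose P' hP' using hPr
  refine ⟨fun i => Affine.Point.map (W' := crv A B) (e.symm : lift (fixedField H) →ₐ[K] _)
    (P' i), ?_⟩
  refine LinearIndependent.of_comp ((Affine.Point.map (W' := crv A B)
    (L.val.comp (fixedField H).val)).toIntLinearMap) ?_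
  have hcomp : (L.val.comp (fixedField H).val).comp
      (e.symm : lift (fixedField H) →ₐ[K] ↥(fixedField H)) = (lift (fixedField H)).val := by
    ext z
    have h1 := congrArg (fun w : lift (fixedField H) => (w : AlgebraicClosure K))
      (e.apply_symm_apply z)
    exact h1
  have h2 : (⇑((Affine.Point.map (W' := crv A B)
      (L.val.comp (fixedField H).val)).toIntLinearMap) ∘ fun i =>
      Affine.Point.map (W' := crv A B) (e.symm : lift (fixedField H) →ₐ[K] _) (P' i)) = P := by
    funext i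
    change Affine.Point.map (W' := crv A B) (L.val.comp (fixedField H).val)
      (Affine.Point.map (W' := crv A B) (e.symm : lift (fixedField H) →ₐ[K] _) (P' i)) = P i
    rw [Affine.Point.map_map, hcomp, hP']
  rw [h2]
  exact hP

open scoped Classical

/-- relations with fields with large rank: short Weierstrass form -/
theorem good_hyp (h : Hyps2) (K : Type) [Field K] [NumberField K] {A B : K} (hA : A ≠ 0)
    (hB : B ≠ 0) (hD : 4 * A ^ 3 + 27 * B ^ 2 ≠ 0) (R : ℕ) :
    Pool.Agent.N19.BR.Good 2 K (fun Z => Rk R ((crv A B).map (algebraMap K Z.F))) := by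
  obtain ⟨L, _, _, _, _, hL⟩ := hyp_rank h K hA hB hD R
  have key : ∀ F : IntermediateField K L, Cl 2 F.fixingSubgroup →
      Rk R ((crv A B).map (algebraMap K F)) := by
    intro F hF
    have hF2 : IsHyper 2 F.fixingSubgroup := by
      rcases hF with ⟨h2, -⟩ | ⟨-, h2⟩
      · exact absurd h2 (by norm_num)
      · exact h2
    have h1 := @hL F.fixingSubgroup hF2
    rw [IsGalois.fixedField_fixingSubgroup] at h1
    exact @h1 (fun a b => Classical.propDecidable (a = b))
  refine (artin (Or.inr Nat.prime_two) K L).mono ?_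
  rintro Z ⟨F, hF, rfl⟩
  exact key F hF

/-- relations with fields with large rank -/
theorem good_hypE (h : Hyps2) (K : Type) [Field K] [NumberField K] (E : WeierstrassCurve K)
    (hE : E.IsElliptic) (h0 : E.j ≠ 0) (h1 : E.j ≠ 1728) (R : ℕ) :
    Pool.Agent.N19.BR.Good 2 K (fun Z => Rk R (E.map (algebraMap K Z.F))) := by
  obtain ⟨hΔ, hA, hB, hD⟩ := invs E hE h0 h1
  refine (good_hyp h K hA hB hD R).mono ?_
  intro Z h2
  have hΔ' : (E.map (algebraMap K Z.F)).Δ ≠ 0 := by
    rw [WeierstrassCurve.map_Δ]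
    exact (map_ne_zero _).mpr hΔ
  obtain ⟨φ, hφ⟩ := iso Z.F (E.map (algebraMap K Z.F)) hΔ'
  have e : (crv (-27 * E.c₄) (-54 * E.c₆)).map (algebraMap K Z.F) =
      crv (-27 * (E.map (algebraMap K Z.F)).c₄) (-54 * (E.map (algebraMap K Z.F)).c₆) := by
    rw [WeierstrassCurve.map_c₄, WeierstrassCurve.map_c₆]
    have e27 : algebraMap K Z.F 27 = 27 := map_ofNat _ _
    have e54 : algebraMap K Z.F 54 = 54 := map_ofNat _ _
    simp [crv, WeierstrassCurve.map, e27, e54]
  rw [e] at h2
  exact h2.of_inj φ hφ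

/-- the relation with coefficient 1 -/
theorem rel_one (h : Hyps2) {K : Type} [Field K] [NumberField K] (E : WeierstrassCurve K)
    (hE : E.IsElliptic) (h0 : E.j ≠ 0)
    (h1 : E.j ≠ 1728) (L : Type) [Field L] [NumberField L] [Algebra K L] [IsGalois K L]
    (S : Set (HeightOneSpectrum (𝓞 K))) (hS : S.Finite) (n : ℕ) (hn : n ≠ 0) (R : ℕ) :
    ∃ (ι : Type) (_ : Fintype ι) (Z : ι → Ext K) (e : ι → ℤ), IsRel K Z e 1 ∧
      ∀ i, HyperelementaryClass L S n (Z i) ∧
        Rk R (E.map (algebraMap K (Z i).F)) := by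
  refine one_rel (P := fun Z => HyperelementaryClass L S n Z ∧
    Rk R (E.map (algebraMap K Z.F))) fun p hp => ?_
  have hc0 : n / p ^ n.factorization p ≠ 0 :=
    (Nat.div_pos (Nat.le_of_dvd (Nat.pos_of_ne_zero hn) (Nat.ordProj_dvd n p))
      (pow_pos hp.pos _)).ne'
  by_cases hp2 : p = 2
  · subst hp2
    refine (core (Or.inr hp) K L hS hc0 (fun _ => (Nat.coprime_ordCompl hp hn).symm)).comp
      (Or.inr hp) (fun Z Y => Rk R ((E.map (algebraMap K Z.F)).map (algebraMap Z.F Y.F))) ?_ ?_
    · intro Z _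
      refine good_hypE h Z.F (E.map (algebraMap K Z.F)) inferInstance ?_ ?_ R
      · rw [WeierstrassCurve.map_j]
        exact (map_ne_zero _).mpr h0
      · rw [WeierstrassCurve.map_j]
        intro h
        apply h1
        apply (algebraMap K Z.F).injective
        rw [h, map_ofNat]
    · rintro Z Y ⟨h3, h4, -⟩ h5
      have h6 := loc_restrict Z Y h4 (loc_one _ Y.F)
      rw [mul_one] at h6
      have h7 := cyc_restrict Z Y h3
      have h8 := fun k hk hkp => loc_all (Z := Z.restrict Y) hp h6 k hk hkp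
      refine ⟨⟨2, hp, hyperOver_of hp h7, h8, fun h9 => absurd rfl h9⟩, ?_⟩
      rw [map_restrict]
      exact h5
  · refine (rels iso (Or.inr hp) hp2 K L hS hc0 (fun _ => (Nat.coprime_ordCompl hp hn).symm) E hE
      h0 h1 R).mono ?_
    rintro Z ⟨h2, h3, h4, h5⟩
    exact ⟨⟨p, hp, hyperOver_of hp h2, fun k hk hkp => loc_all hp h3 k hk hkp,
      fun _ => h4⟩, h5⟩

end Pool.Agent.N683.H2
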