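import Pool.Agent.N683.H2.All2
import Pool.Agent.N683.HR.Fin

/-! The relations of the `L`-functions and of the ranks, with coefficient 1. -/

set_option autoImplicit false

namespace Pool.Agent.N683.H2

open NumberField IsDedekindDomain
open Pool.Agent.R433.MD (Ext LL)
open Pool.Agent.R333.BR (L_rel)
open Pool.Agent.N683.HR (Rk)
open Pool.Agent.N19.BR.Def
open Pool.Agent.N19.BR (IsRel minimalModels_iff prod_eq exists_common fx_of_isRel)
open scoped Classical

/-- The list of fields. -/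
theorem list_one (K : Type) [Field K] [NumberField K] (E : WeierstrassCurve K)
    (hE : E.IsElliptic) (h0 : E.j ≠ 0) (h1 : E.j ≠ 1728) (L : Type) [Field L] [NumberField L]
    [Algebra K L] [IsGalois K L] (S : Set (HeightOneSpectrum (𝓞 K))) (hS : S.Finite) (n : ℕ)
    (hn : n ≠ 0) (R : ℕ) :
    ∃ (k : ℕ) (Z : Fin k → Ext K) (e : Fin k → ℤ), IsRel K Z e 1 ∧ ∀ i,
        (R : Cardinal) ≤ Module.rank ℤ (E.map (algebraMap K (Z i).F)).toAffine.Point ∧
        HyperelementaryClass L S n (Z i) := by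
  obtain ⟨ι, hι, Z, e, hr, hP⟩ := rel_one hyps2 E hE h0 h1 L S hS n hn R
  let f : Fin (Fintype.card ι) ≃ ι := (Fintype.equivFin ι).symm
  exact ⟨Fintype.card ι, fun j => Z (f j), fun j => e (f j), hr.reindex f,
    fun j => ⟨(hP (f j)).2.le, (hP (f j)).1⟩⟩

/-- relations of extensions give relations of L-functions -/
theorem L_of_rel1 {K : Type} [Field K] [NumberField K] {ι : Type} [Fintype ι] {Z : ι → Ext K}
    {e : ι → ℤ} (h : IsRel K Z e 1) {E : WeierstrassCurve K} (hE : E.IsElliptic)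
    (V0 : HeightOneSpectrum (𝓞 K) → WeierstrassCurve (𝓞 K)) (hV0 : MinimalModels E V0)
    (V : ∀ i, HeightOneSpectrum (𝓞 (Z i).F) → WeierstrassCurve (𝓞 (Z i).F))
    (hV : ∀ i, MinimalModels (E.map (algebraMap K (Z i).F)) (V i)) :
    ∃ ρ : ℂ → ℂ, MeromorphicOn ρ Set.univ ∧ meromorphicOrderAt ρ 1 = 0 ∧ ∀ s : ℂ, 3 / 2 < s.re →
      ρ s ≠ 0 ∧ (∏' v, factor V0 s v) = ρ s * ∏ i, (∏' v, factor (V i) s v) ^ e i := by
  obtain ⟨L, _, _, _, _, hL⟩ := exists_common Z
  have f : ∀ i, (Z i).F →ₐ[K] L := fun i => (hL i).some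
  obtain ⟨ρ, h1, h1', h2⟩ := L_rel Z f e 1 (fx_of_isRel h f) E hE V0
    ((minimalModels_iff E V0).1 hV0) V fun i => (minimalModels_iff _ (V i)).1 (hV i)
  refine ⟨ρ, h1, h1', fun s hs => ?_⟩
  obtain ⟨h3, h4⟩ := h2 s hs
  refine ⟨h3, ?_⟩
  rw [pow_one] at h4
  rw [prod_eq, h4]
  congr 1
  exact Finset.prod_congr rfl fun i _ => by rw [prod_eq]

end Pool.Agent.N683.H2
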