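import Pool.Agent.N683.H2.Bot2

/-! Points on a quadratic twist over all fixed fields. -/

set_option autoImplicit false

namespace Pool.Agent.N683.H2

open IntermediateField WeierstrassCurve Polynomial
open Pool.Agent.N683.HR (crv cub HasPts bc_eq)
open Pool.Agent.R433.MD (IsHyper)

section
variable {K Ω : Type} [Field K] [Field Ω] [Algebra K Ω]

theorem T2.mono {U U' : Subgroup Gal(Ω/K)} (hU : T2 U) (h : U' ≤ U) : T2 U' := by
  intro L _ _
  exact (hU L).le (Subgroup.map_mono h)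

/-- the elements that fix `e` -/
def stab (U : Subgroup Gal(Ω/K)) (e : Ω) : Subgroup Gal(Ω/K) where
  carrier := {u | u ∈ U ∧ u e = e}
  mul_mem' := by
    rintro a b ⟨ha, ha'⟩ ⟨hb, hb'⟩
    refine ⟨U.mul_mem ha hb, ?_⟩
    rw [AlgEquiv.mul_apply, hb', ha']
  one_mem' := ⟨U.one_mem, rfl⟩
  inv_mem' := by
    rintro a ⟨ha, ha'⟩
    refine ⟨U.inv_mem ha, ?_⟩
    calc a⁻¹ e = a⁻¹ (a e) := by rw [ha']
      _ = e := a.symm_apply_apply e

theorem mem_stab {U : Subgroup Gal(Ω/K)} {e : Ω} {u : Gal(Ω/K)} :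
    u ∈ stab U e ↔ u ∈ U ∧ u e = e := Iff.rfl

theorem stab_le (U : Subgroup Gal(Ω/K)) (e : Ω) : stab U e ≤ U := fun _ h => h.1

end

section
variable {K Ω : Type} [Field K] [NumberField K] [Field Ω] [Algebra K Ω] [Algebra.IsAlgebraic K Ω]
  [IsAlgClosed Ω] [DecidableEq Ω]

theorem tw_of_has {A B : K} {U : Subgroup Gal(Ω/K)} {R : ℕ} (h : HasPts A B (fixedField U) R) :
    TwPts A B ⊤ U R 1 := by
  obtain ⟨P, hP, hr⟩ := h
  refine ⟨P, hP, fun i => ?_, fun u hu => Or.inl ⟨map_one u, fun i => ?_⟩⟩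
  · obtain ⟨P', hP'⟩ := hr i
    refine ⟨Affine.Point.map (W' := crv A B) (IntermediateField.inclusion le_top) P', ?_⟩
    rw [← hP', Affine.Point.map_map]
    rfl
  · obtain ⟨P', hP'⟩ := hr i
    have hcomp : (u : Ω →ₐ[K] Ω).comp (fixedField U).val = (fixedField U).val := by
      ext z
      exact (mem_fixedField_iff U (z : Ω)).mp z.2 u hu
    rw [← hP', Affine.Point.map_map, hcomp]

theorem tw_sub {A B : K} {U : Subgroup Gal(Ω/K)} {R R' : ℕ} (hR : R' ≤ R) {e : Ω}
    (h : TwPts A B ⊤ U R e) : TwPts A B ⊤ U R' e := by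
  obtain ⟨P, hP, h1, h2⟩ := h
  refine ⟨fun i => P (Fin.castLE hR i), hP.comp _ (Fin.castLE_injective hR), fun i => h1 _,
    fun u hu => ?_⟩
  rcases h2 u hu with h3 | h3
  · exact Or.inl ⟨h3.1, fun i => h3.2 _⟩
  · exact Or.inr ⟨h3.1, fun i => h3.2 _⟩

/-- **Points on a quadratic twist.** -/
theorem top (hdisc : S_DISC) (hpsi : S_PSI) (hsec : S_SEC) (hcon : S_CONIC) (hpar : S_PARAM)
    (hind : S_IND) (hqc : S_QC) (htw : S_TW) {A B : K} (hA : A ≠ 0) (hB : B ≠ 0)
    (hD : 4 * A ^ 3 + 27 * B ^ 2 ≠ 0) {U : Subgroup Gal(Ω/K)} (hU : T2 U) (R : ℕ) :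
    ∃ e : Ω, e ≠ 0 ∧ TwPts A B ⊤ U R e := by
  classical
  have _ : CharZero Ω := charZero_of_injective_algebraMap (algebraMap K Ω).injective
  obtain ⟨i, hi⟩ := IsAlgClosed.exists_pow_nat_eq (-1 : Ω) (n := 2) (by norm_num)
  have hi0 : i ≠ 0 := by
    rintro rfl
    norm_num at hi
  have hiu : ∀ u : Gal(Ω/K), u i = i ∨ u i = -i := by
    intro u
    apply sq_eq_sq_iff_eq_or_eq_neg.mp
    rw [← map_pow, hi, map_neg, map_one]
  -- points over the fixed field of the stabiliser of `i`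
  have step : ∀ (U : Subgroup Gal(Ω/K)), T2 U →
      ((∃ X ∈ fixedField U, Three (algebraMap K Ω A) (algebraMap K Ω B) X) ∨
        ∃ p ∈ fixedField U, ∃ q ∈ fixedField U, ∃ q' ∈ fixedField U, p ≠ 0 ∧
          Pair (algebraMap K Ω A) (algebraMap K Ω B) p q q') → ∀ R : ℕ,
      ∃ e : Ω, (e = 1 ∨ e = i) ∧ TwPts A B ⊤ U R e := by
    intro U hU hX R
    have hmem : ∀ z ∈ fixedField U, z ∈ fixedField (stab U i) := by
      intro z hz
      rw [mem_fixedField_iff] at hz ⊢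
      exact fun u hu => hz u hu.1
    have hif : i ∈ fixedField (stab U i) := by
      rw [mem_fixedField_iff]
      exact fun u hu => hu.2
    have h1 := bot hdisc hsec hcon hpar hind hqc hA hB hD (hU.mono (stab_le U i)) ⟨i, hif⟩
      (Subtype.ext hi) (by
      rcases hX with ⟨X, hX, h⟩ | ⟨p, hp, q, hq, q', hq', hp0, h⟩
      · exact Or.inl ⟨⟨X, hmem X hX⟩, Subtype.ext h⟩
      · refine Or.inr ⟨⟨p, hmem p hp⟩, ⟨q, hmem q hq⟩, ⟨q', hmem q' hq'⟩, ?_, ?_, ?_, ?_⟩
        · exact fun h0 => hp0 (congrArg Subtype.val h0)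
        · exact Subtype.ext h.1
        · exact Subtype.ext h.2.1
        · exact Subtype.ext h.2.2) (2 * R)
    obtain ⟨e', he', h2⟩ := htw K Ω A B U (stab U i) i 1 R hi0 (fun u _ => hiu u) one_ne_zero
      (fun u _ => Or.inl (map_one u)) (fun u => mem_stab) (tw_of_has h1)
    refine ⟨e', ?_, h2⟩
    rcases he' with rfl | rfl
    · exact Or.inl rfl
    · exact Or.inr (one_mul i)
  rcases hpsi K Ω U hU A B hA hB hD with hX | ⟨p, q, q', hp0, hp, hq, hPair⟩
  · obtain ⟨e, he, h⟩ := step U hU (Or.inl hX) R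
    refine ⟨e, ?_, h⟩
    rcases he with rfl | rfl
    · exact one_ne_zero
    · exact hi0
  · have m1 : p ∈ fixedField (stab U p) := by
      rw [mem_fixedField_iff]
      exact fun u hu => hu.2
    have m2 : q ∈ fixedField (stab U p) := by
      rw [mem_fixedField_iff]
      exact fun u hu => (hq u hu.1 hu.2).1
    have m3 : q' ∈ fixedField (stab U p) := by
      rw [mem_fixedField_iff]
      exact fun u hu => (hq u hu.1 hu.2).2
    obtain ⟨e, he, h⟩ := step (stab U p) (hU.mono (stab_le U p)) (Or.inr ⟨p, m1, q, m2, q', m3,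
      hp0, hPair⟩) (2 * R)
    have he0 : e ≠ 0 := by
      rcases he with rfl | rfl
      · exact one_ne_zero
      · exact hi0
    have heu : ∀ u : Gal(Ω/K), u e = e ∨ u e = -e := by
      intro u
      rcases he with rfl | rfl
      · exact Or.inl (map_one u)
      · exact hiu u
    obtain ⟨e', he', h2⟩ := htw K Ω A B U (stab U p) p e R hp0 hp he0 (fun u _ => heu u)
      (fun u => mem_stab) h
    refine ⟨e', ?_, h2⟩
    rcases he' with rfl | rfl
    · exact he0
    · exact mul_ne_zero he0 hp0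

/-- restriction to a normal subfield -/
theorem res_eq (L : IntermediateField K Ω) [Normal K L] {u v : Gal(Ω/K)}
    (h : AlgEquiv.restrictNormalHom L u = AlgEquiv.restrictNormalHom L v) {z : Ω} (hz : z ∈ L) :
    u z = v z := by
  have h1 := congrArg (fun f : Gal(L/K) => ((f ⟨z, hz⟩ : L) : Ω)) h
  simp only [AlgEquiv.restrictNormalHom_apply] at h1
  exact h1

theorem map_pt_eq {A B : K} (L : IntermediateField K Ω) {u v : Gal(Ω/K)}
    (h : ∀ z ∈ L, u z = v z) {P : (((crv A B).baseChange Ω).toAffine).Point}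
    (hP : P ∈ (Affine.Point.map (W' := crv A B) L.val).range) :
    Affine.Point.map (W' := crv A B) (u : Ω →ₐ[K] Ω) P =
      Affine.Point.map (W' := crv A B) (v : Ω →ₐ[K] Ω) P := by
  obtain ⟨P', rfl⟩ := hP
  have hcomp : (u : Ω →ₐ[K] Ω).comp L.val = (v : Ω →ₐ[K] Ω).comp L.val := by
    ext z
    exact h z z.2
  rw [Affine.Point.map_map, Affine.Point.map_map, hcomp]

/-- the finite level -/
theorem fin_lev (hcpt : S_CPT) {A B : K} (R : ℕ)
    (h : ∀ U : Subgroup Gal(Ω/K), T2 U → ∃ e : Ω, e ≠ 0 ∧ TwPts A B ⊤ U R e) :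
    ∃ (L : IntermediateField K Ω) (_ : Normal K L), FiniteDimensional K L ∧
      ∀ U : Subgroup Gal(Ω/K), IsHyper 2 (U.map (AlgEquiv.restrictNormalHom L)) →
        ∃ e ∈ L, e ≠ 0 ∧ TwPts A B L U R e := by
  classical
  have _ : CharZero Ω := charZero_of_injective_algebraMap (algebraMap K Ω).injective
  haveI : IsAlgClosure K Ω := ⟨inferInstance, inferInstance⟩
  haveI : Normal K Ω := IsAlgClosure.normal K Ω
  refine hcpt K Ω (fun L U => ∃ e ∈ L, e ≠ 0 ∧ TwPts A B L U R e) ?_ ?_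
  · rintro L L' _ _ _ _ U U' hLL' hUU' ⟨e, heL, he0, P, hP, hPL, hPu⟩
    refine ⟨e, hLL' heL, he0, P, hP, fun i => ?_, fun u hu => ?_⟩
    · obtain ⟨P', hP'⟩ := hPL i
      refine ⟨Affine.Point.map (W' := crv A B) (IntermediateField.inclusion hLL') P', ?_⟩
      rw [← hP', Affine.Point.map_map]
      rfl
    · obtain ⟨v, hv, hvu⟩ := hUU' ⟨u, hu, rfl⟩
      have hz : ∀ z ∈ L, v z = u z := fun z hz => res_eq L hvu hz
      rcases hPu v hv with ⟨h1, h2⟩ | ⟨h1, h2⟩
      · refine Or.inl ⟨by rw [← hz e heL, h1], fun i => ?_⟩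
        rw [← map_pt_eq L hz (hPL i), h2]
      · refine Or.inr ⟨by rw [← hz e heL, h1], fun i => ?_⟩
        rw [← map_pt_eq L hz (hPL i), h2]
  · intro U hU
    obtain ⟨e, he0, P, hP, -, hPu⟩ := h U hU
    obtain ⟨L, hL, hPL⟩ := pts_fin A B P
    haveI : FiniteDimensional K (adjoin K {e}) :=
      adjoin.finiteDimensional (Algebra.IsIntegral.isIntegral e)
    have hle : L ⊔ adjoin K {e} ≤ normalClosure K ↥(L ⊔ adjoin K {e}) Ω := le_normalClosure _
    refine ⟨normalClosure K ↥(L ⊔ adjoin K {e}) Ω, inferInstance, inferInstance, e,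
      hle ((le_sup_right : adjoin K {e} ≤ _) (mem_adjoin_simple_self K e)), he0, P, hP,
      fun i => ?_, hPu⟩
    obtain ⟨P', hP'⟩ := hPL i
    refine ⟨Affine.Point.map (W' := crv A B) (IntermediateField.inclusion
      (le_sup_left.trans hle)) P', ?_⟩
    rw [← hP', Affine.Point.map_map]
    rfl

end

end Pool.Agent.N683.H2
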