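import Pool.Agent.N683.H2.Tr

/-! Infinite rank over all fixed fields, and the finite level. -/

set_option autoImplicit false

namespace Pool.Agent.N683.H2

open IntermediateField WeierstrassCurve Polynomial
open Pool.Agent.N683.HR (crv cub HasPts bc_eq)
open Pool.Agent.R433.MD (IsHyper)

section
variable {K Ω : Type} [Field K] [NumberField K] [Field Ω] [Algebra K Ω] [Algebra.IsAlgebraic K Ω]
  [IsAlgClosed Ω] [DecidableEq Ω]

theorem pair_fix (hsec : S_SEC) (hcon : S_CONIC2) (hpar : S_PARAM) (hdisc : S_DISC)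
    (hind : S_IND2) (hdil : S_DIL) (hpy : S_PYTH) {A B : K} (hA : A ≠ 0) (hB : B ≠ 0)
    (hD : 4 * A ^ 3 + 27 * B ^ 2 ≠ 0) {U : Subgroup Gal(Ω/K)} (hU : T2 U) {p q q' : Ω}
    (hp0 : p ≠ 0) (hp : ∀ u ∈ U, u p = p ∨ u p = -p)
    (hq : ∀ u ∈ U, u p = p → u q = q ∧ u q' = q')
    (hPair : Pair (algebraMap K Ω A) (algebraMap K Ω B) p q q') {τ : Gal(Ω/K)} (hτU : τ ∈ U)
    (hτp : τ p = -p) (R : ℕ) : HasPts A B (fixedField U) R := by
  classical
  have _ : CharZero Ω := charZero_of_injective_algebraMap (algebraMap K Ω).injective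
  obtain ⟨F', hF'⟩ : ∃ F' : IntermediateField K Ω, F' = fixedField (stab U p) := ⟨_, rfl⟩
  have _ : CharZero ↥F' := charZero_of_injective_algebraMap (algebraMap K ↥F').injective
  have m1 : p ∈ F' := by
    rw [hF', mem_fixedField_iff]
    exact fun u hu => hu.2
  have m2 : q ∈ F' := by
    rw [hF', mem_fixedField_iff]
    exact fun u hu => (hq u hu.1 hu.2).1
  have m3 : q' ∈ F' := by
    rw [hF', mem_fixedField_iff]
    exact fun u hu => (hq u hu.1 hu.2).2
  have hA' : algebraMap K ↥F' A ≠ 0 := (_root_.map_ne_zero _).mpr hA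
  have hB' : algebraMap K ↥F' B ≠ 0 := (_root_.map_ne_zero _).mpr hB
  have hD' : 4 * (algebraMap K ↥F' A) ^ 3 + 27 * (algebraMap K ↥F' B) ^ 2 ≠ 0 := by
    have h1 := (_root_.map_ne_zero (algebraMap K ↥F')).mpr hD
    simpa only [map_add, map_mul, map_pow, map_ofNat] using h1
  obtain ⟨N, W, G, α, β, hα, hβ, hG, hid, t₁, hW0, hW1, hN, hne⟩ :=
    hsec ↥F' Ω _ _ hA' hB' hD' (Or.inr ⟨⟨p, m1⟩, ⟨q, m2⟩, ⟨q', m3⟩,
      fun h0 => hp0 (congrArg Subtype.val h0), Subtype.ext hPair.1, Subtype.ext hPair.2.1,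
      Subtype.ext hPair.2.2⟩)
  rcases hcon ↥F' α β hα hβ with
    ⟨c, c', t, y, t', y', hc, hc', hcc, hy, hy', h1, h2⟩ | hpp
  · have hzero : HasPts A B (fixedField U) 0 :=
      ⟨Fin.elim0, linearIndependent_empty_type, fun i => i.elim0⟩
    have hor : FamF (algebraMap K ↥F' A) (algebraMap K ↥F' B) N W G α c t y ∨
        FamF (algebraMap K ↥F' A) (algebraMap K ↥F' B) N W G α c' t' y' := by
      subst hF'
      exact dichF hdisc hpar (hU.mono (stab_le U p)) hc hc' hcc hid h1 h2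
    rcases hor with hf | hf
    · induction R with
      | zero => exact hzero
      | succ R ih =>
        exact tr_pts hpar hind hD hp0 hτU hτp hp hF' hα hβ hc hy hG hid h1 hW0 hW1 hN hne hf ih
    · induction R with
      | zero => exact hzero
      | succ R ih =>
        exact tr_pts hpar hind hD hp0 hτU hτp hp hF' hα hβ hc' hy' hG hid h2 hW0 hW1 hN hne hf ih
  · have hle : fixedField U ≤ F' := by
      intro z hz
      rw [hF']
      rw [mem_fixedField_iff] at hz ⊢
      exact fun u hu => hz u hu.1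
    have hpF : p ∉ fixedField U := by
      intro h0
      rw [mem_fixedField_iff] at h0
      have h3 := h0 τ hτU
      rw [hτp] at h3
      exact hp0 (self_eq_neg.mp h3.symm)
    have hp2 : p ^ 2 ∈ fixedField U := by
      rw [mem_fixedField_iff]
      intro u hu
      rw [map_pow]
      rcases hp u hu with h | h <;> rw [h]
      ring
    refine hpy K Ω A B hD _ (hdil K Ω (fixedField U) F' p hle m1 hpF hp2 ?_ (pyth_mem hpp)) R
    intro z hz
    rw [hF'] at hz
    refine ⟨(z + τ z) / 2, ?_, (z - τ z) / (2 * p), ?_, ?_⟩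
    · rw [mem_fixedField_iff]
      intro u hu
      have h4 := act_stab hτU hτp hu hz
      rw [map_div₀, map_add, map_ofNat]
      rcases hp u hu with h | h
      · rw [(h4.1 h).1, (h4.1 h).2]
      · rw [(h4.2 h).1, (h4.2 h).2, add_comm]
    · rw [mem_fixedField_iff]
      intro u hu
      have h4 := act_stab hτU hτp hu hz
      rw [map_div₀, map_sub, map_mul, map_ofNat]
      rcases hp u hu with h | h
      · rw [(h4.1 h).1, (h4.1 h).2, h]
      · rw [(h4.2 h).1, (h4.2 h).2, h]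
        field_simp
        ring
    · field_simp
      ring

/-- **Infinite rank over the fixed field** of a group with 2-hyperelementary images. -/
theorem top2 (hdisc : S_DISC) (hpsi : S_PSI) (hsec : S_SEC) (hcon : S_CONIC2) (hpar : S_PARAM)
    (hind : S_IND) (hind2 : S_IND2) (hdil : S_DIL) (hpy : S_PYTH) {A B : K} (hA : A ≠ 0)
    (hB : B ≠ 0) (hD : 4 * A ^ 3 + 27 * B ^ 2 ≠ 0) {U : Subgroup Gal(Ω/K)} (hU : T2 U) (R : ℕ) :
    HasPts A B (fixedField U) R := by
  classical
  rcases hpsi K Ω U hU A B hA hB hD with ⟨X, hXm, hX⟩ | ⟨p, q, q', hp0, hp, hq, hPair⟩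
  · exact bot' hdisc hsec hcon hpar hind hpy hA hB hD hU (Or.inl ⟨⟨X, hXm⟩, Subtype.ext hX⟩) R
  · by_cases hpF : ∀ u ∈ U, u p = p
    · have m1 : p ∈ fixedField U := (mem_fixedField_iff U p).mpr hpF
      have m2 : q ∈ fixedField U := (mem_fixedField_iff U q).mpr fun u hu => (hq u hu (hpF u hu)).1
      have m3 : q' ∈ fixedField U :=
        (mem_fixedField_iff U q').mpr fun u hu => (hq u hu (hpF u hu)).2
      exact bot' hdisc hsec hcon hpar hind hpy hA hB hD hU (Or.inr ⟨⟨p, m1⟩, ⟨q, m2⟩, ⟨q', m3⟩,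
        fun h0 => hp0 (congrArg Subtype.val h0), Subtype.ext hPair.1, Subtype.ext hPair.2.1,
        Subtype.ext hPair.2.2⟩) R
    · push Not at hpF
      obtain ⟨τ, hτU, hτ⟩ := hpF
      exact pair_fix hsec hcon hpar hdisc hind2 hdil hpy hA hB hD hU hp0 hp hq hPair hτU
        ((hp τ hτU).resolve_left hτ) R

end

end Pool.Agent.N683.H2
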