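import Pool.Agent.N683.H2.Bot3
import Pool.Agent.N683.H2.Top

/-! Traces of points: from a quadratic extension to the field. -/

set_option autoImplicit false

namespace Pool.Agent.N683.H2

open IntermediateField WeierstrassCurve Polynomial
open Pool.Agent.N683.HR (crv cub HasPts bc_eq)
open Pool.Agent.R433.MD (IsHyper)

section
variable {F : Type} [Field F]

/-- numerator of `t` -/
noncomputable def P1 (α c t₀ y₀ : F) : Polynomial F :=
  C (2 * c * y₀) * X - C (α * t₀) - C (c * t₀) * X ^ 2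

/-- denominator -/
noncomputable def P2' (α c : F) : Polynomial F := C α - C c * X ^ 2

/-- numerator of `y` -/
noncomputable def P3 (α c t₀ y₀ : F) : Polynomial F :=
  C (α * y₀) - C (2 * α * t₀) * X + C (c * y₀) * X ^ 2

variable {E : Type} [Field E] (f : F →+* E)

theorem P1_eval (α c t₀ y₀ : F) (z : E) : ((P1 α c t₀ y₀).map f).eval z =
    2 * f c * f y₀ * z - f α * f t₀ - f c * f t₀ * z ^ 2 := by
  have e2 : f 2 = 2 := map_ofNat f 2
  simp [P1, e2]

theorem P2_eval (α c : F) (z : E) : ((P2' α c).map f).eval z = f α - f c * z ^ 2 := by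
  simp [P2']

theorem P3_eval (α c t₀ y₀ : F) (z : E) : ((P3 α c t₀ y₀).map f).eval z =
    f α * f y₀ - 2 * f α * f t₀ * z + f c * f y₀ * z ^ 2 := by
  have e2 : f 2 = 2 := map_ofNat f 2
  simp [P3, e2]

theorem P1_der (α c t₀ y₀ : F) (z : E) : (derivative ((P1 α c t₀ y₀).map f)).eval z =
    2 * f c * f y₀ - 2 * f c * f t₀ * z := by
  have e2 : f 2 = 2 := map_ofNat f 2
  simp [P1, e2]
  ring

theorem P2_der (α c : F) (z : E) : (derivative ((P2' α c).map f)).eval z = -2 * f c * z := by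
  simp [P2']
  ring

theorem P3_ne {α c t₀ y₀ : F} (hα : α ≠ 0) (hy₀ : y₀ ≠ 0) : (P3 α c t₀ y₀).map f ≠ 0 := by
  intro h0
  have h2 := congrArg (fun P : Polynomial E => P.eval 0) h0
  simp only [P3_eval, eval_zero] at h2
  have h3 : f α * f y₀ = 0 := by linear_combination h2
  rw [← map_mul, map_eq_zero] at h3
  exact mul_ne_zero hα hy₀ h3

theorem P2_ne {α c : F} (hα : α ≠ 0) : (P2' α c).map f ≠ 0 := by
  intro h0
  have h2 := congrArg (fun P : Polynomial E => P.eval 0) h0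
  simp only [P2_eval, eval_zero] at h2
  have h3 : f α = 0 := by linear_combination h2
  rw [map_eq_zero] at h3
  exact hα h3

theorem P1_ne [CharZero E] {α c t₀ y₀ : F} (hc : c ≠ 0) (hy₀ : y₀ ≠ 0) (ρ : E) :
    (P1 α c t₀ y₀).map f - C ρ * (P2' α c).map f ≠ 0 := by
  intro h0
  have h2 := congrArg (fun P : Polynomial E => P.eval 1) h0
  have h3 := congrArg (fun P : Polynomial E => P.eval (-1)) h0
  simp only [eval_sub, eval_mul, eval_C, P1_eval, P2_eval, eval_zero] at h2 h3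
  have h4 : (4 : E) * (f c * f y₀) = 0 := by linear_combination h2 - h3
  have h5 := (mul_eq_zero.mp h4).resolve_left (by norm_num)
  rw [← map_mul, map_eq_zero] at h5
  exact mul_ne_zero hc hy₀ h5

theorem comp_eval (lam : F) (P : Polynomial F) (z : E) :
    ((P.comp (X + C lam)).map f).eval z = (P.map f).eval (z + f lam) := by
  rw [Polynomial.map_comp, eval_comp]
  simp

theorem comp_der (lam : F) (P : Polynomial F) (z : E) :
    (derivative ((P.comp (X + C lam)).map f)).eval z = (derivative (P.map f)).eval (z + f lam) := by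
  rw [Polynomial.map_comp, derivative_comp]
  simp

end

section
variable {K Ω : Type} [Field K] [NumberField K] [Field Ω] [Algebra K Ω] [Algebra.IsAlgebraic K Ω]
  [IsAlgClosed Ω] [DecidableEq Ω]

/-- the action of `U` on the elements fixed by the stabiliser of `p` -/
theorem act_stab {U : Subgroup Gal(Ω/K)} {p : Ω} {τ : Gal(Ω/K)} (hτU : τ ∈ U) (hτp : τ p = -p)
    {u : Gal(Ω/K)} (hu : u ∈ U) {z : Ω} (hz : z ∈ fixedField (stab U p)) :
    (u p = p → u z = z ∧ u (τ z) = τ z) ∧ (u p = -p → u z = τ z ∧ u (τ z) = z) := by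
  rw [mem_fixedField_iff] at hz
  have hτi : ∀ w, τ⁻¹ (τ w) = w := fun w => τ.symm_apply_apply w
  have hτi' : ∀ w, τ (τ⁻¹ w) = w := fun w => τ.apply_symm_apply w
  have hτp' : τ⁻¹ p = -p := by
    have h1 : τ⁻¹ (τ (-p)) = -p := hτi _
    rwa [map_neg, hτp, neg_neg] at h1
  refine ⟨fun hup => ⟨hz u ⟨hu, hup⟩, ?_⟩, fun hup => ⟨?_, ?_⟩⟩
  · have h1 : τ⁻¹ * u * τ ∈ stab U p := by
      refine ⟨U.mul_mem (U.mul_mem (U.inv_mem hτU) hu) hτU, ?_⟩
      rw [AlgEquiv.mul_apply, AlgEquiv.mul_apply, hτp, map_neg, hup, map_neg, hτp', neg_neg]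
    have h2 := hz _ h1
    rw [AlgEquiv.mul_apply, AlgEquiv.mul_apply] at h2
    rw [← hτi' (u (τ z)), h2]
  · have h1 : τ⁻¹ * u ∈ stab U p := by
      refine ⟨U.mul_mem (U.inv_mem hτU) hu, ?_⟩
      rw [AlgEquiv.mul_apply, hup, map_neg, hτp', neg_neg]
    have h2 := hz _ h1
    rw [AlgEquiv.mul_apply] at h2
    rw [← hτi' (u z), h2]
  · have h1 : u * τ ∈ stab U p := by
      refine ⟨U.mul_mem hu hτU, ?_⟩
      rw [AlgEquiv.mul_apply, hτp, map_neg, hup, neg_neg]
    exact hz _ h1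

/-- a new point, as a trace -/
theorem tr_pts (hpar : S_PARAM) (hind : S_IND2) {A B : K} (hD : 4 * A ^ 3 + 27 * B ^ 2 ≠ 0)
    {U : Subgroup Gal(Ω/K)} {p : Ω} (hp0 : p ≠ 0) {τ : Gal(Ω/K)} (hτU : τ ∈ U) (hτp : τ p = -p)
    (hpU : ∀ u ∈ U, u p = p ∨ u p = -p)
    {F' : IntermediateField K Ω} (hF' : F' = fixedField (stab U p))
    {N W G : Polynomial ↥F'} {α β c t₀ y₀ : ↥F'}
    (hα : α ≠ 0) (hβ : β ≠ 0) (hc : c ≠ 0) (hy₀ : y₀ ≠ 0) (hG0 : G ≠ 0)
    (hid : ∀ t : ↥F', W.eval t ≠ 0 →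
        W.eval t ^ 4 * DD (algebraMap K ↥F' A)
          (algebraMap K ↥F' B) t (N.eval t / W.eval t) =
          G.eval t ^ 2 * (α * t ^ 2 + β))
    (h1 : α * t₀ ^ 2 + β = c * y₀ ^ 2)
    {t₁ : Ω} (hW0 : aeval t₁ W = 0) (hW1 : aeval t₁ (derivative W) ≠ 0) (hN : aeval t₁ N ≠ 0)
    (hne : algebraMap ↥F' Ω α * t₁ ^ 2 + algebraMap ↥F' Ω β ≠ 0)
    (hf : FamF (algebraMap K ↥F' A) (algebraMap K ↥F' B) N W G α c t₀ y₀) {R : ℕ}
    (hP : HasPts A B (fixedField U) R) : HasPts A B (fixedField U) (R + 1) := by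
  classical
  have _ : CharZero Ω := charZero_of_injective_algebraMap (algebraMap K Ω).injective
  have _ : CharZero ↥F' := charZero_of_injective_algebraMap (algebraMap K ↥F').injective
  have hpF : p ∈ F' := by
    rw [hF', mem_fixedField_iff]
    exact fun u hu => hu.2
  obtain ⟨v, hv⟩ : ∃ v : ↥F' →+* Ω, v = algebraMap F' Ω := ⟨_, rfl⟩
  obtain ⟨w, hw⟩ : ∃ w : ↥F' →+* Ω, w = (τ : Ω →+* Ω).comp v := ⟨_, rfl⟩
  have hvv : ∀ z : F', v z = (z : Ω) := by
    intro z
    rw [hv]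
    rfl
  have hww : ∀ z : F', w z = τ (z : Ω) := by
    intro z
    rw [hw, ← hvv]
    rfl
  rw [← hv] at hne
  have hWne : W ≠ 0 := by
    rintro rfl
    simp at hW1
  have hne0 : ∀ (g : ↥F' →+* Ω) (z : F'), z ≠ 0 → g z ≠ 0 := fun g z hz =>
    (_root_.map_ne_zero _).mpr hz
  obtain ⟨P, hP, hr⟩ := hP
  obtain ⟨L, hL, hPL⟩ := pts_fin A B P
  have hmap1 : ∀ g : ↥F' →+* Ω, g α * g t₀ ^ 2 + g β = g c * g y₀ ^ 2 := by
    intro g
    have := congrArg g h1
    simpa only [map_add, map_mul, map_pow] using this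
  obtain ⟨s₁, hs1, hs2, hs3⟩ := hpar.2 Ω (v α) (v β) (v c) (v t₀) (v y₀) t₁ (hne0 v _ hα)
    (hne0 v _ hβ) (hne0 v _ hc) (hne0 v _ hy₀) (hmap1 v) hne
  -- the choice of the translation
  obtain ⟨r, hr1, hr2, hr3⟩ : ∃ r : ℚ, ((P2' α c).map w).eval (s₁ - 2 * r * p) ≠ 0 ∧
      ((P3 α c t₀ y₀).map w).eval (s₁ - 2 * r * p) ≠ 0 ∧
      ∀ ρ : Ω, ((W * G).map w).IsRoot ρ →
        ((P1 α c t₀ y₀).map w - C ρ * (P2' α c).map w).eval (s₁ - 2 * r * p) ≠ 0 := by
    have hinj : Function.Injective fun r : ℚ => s₁ - 2 * (r : Ω) * p := by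
      intro r r' hrr
      have h2 : (2 : Ω) * p * ((r : Ω) - r') = 0 := by
        have h3 : s₁ - 2 * (r : Ω) * p = s₁ - 2 * (r' : Ω) * p := hrr
        linear_combination -h3
      have h3 := (mul_eq_zero.mp h2).resolve_left (mul_ne_zero two_ne_zero hp0)
      exact_mod_cast sub_eq_zero.mp h3
    have hWG : (W * G).map w ≠ 0 :=
      (Polynomial.map_ne_zero_iff w.injective).mpr (mul_ne_zero hWne hG0)
    have hfin : ∀ Q : Polynomial Ω, Q ≠ 0 → {r : ℚ | Q.eval (s₁ - 2 * (r : Ω) * p) = 0}.Finite := by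
      intro Q hQ
      exact (finite_setOfPred_isRoot hQ).preimage hinj.injOn
    set T : Set ℚ := ({r : ℚ | ((P2' α c).map w).eval (s₁ - 2 * (r : Ω) * p) = 0} ∪
      {r : ℚ | ((P3 α c t₀ y₀).map w).eval (s₁ - 2 * (r : Ω) * p) = 0}) ∪
      ⋃ ρ ∈ {z : Ω | ((W * G).map w).IsRoot z},
        {r : ℚ | ((P1 α c t₀ y₀).map w - C ρ * (P2' α c).map w).eval (s₁ - 2 * (r : Ω) * p) = 0}
      with hTd
    have hT : T.Finite := ((hfin _ (P2_ne w hα)).union (hfin _ (P3_ne w hα hy₀))).union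
      (Set.Finite.biUnion (finite_setOfPred_isRoot hWG) fun ρ _ => hfin _ (P1_ne w hc hy₀ ρ))
    obtain ⟨r, hrT⟩ := hT.infinite_compl.nonempty
    refine ⟨r, fun h => hrT (Or.inl (Or.inl h)), fun h => hrT (Or.inl (Or.inr h)),
      fun ρ hρ h => hrT (Or.inr ?_)⟩
    exact Set.mem_biUnion (Set.mem_ofPred_eq ▸ hρ) h
  set lam : ↥F' := (r : ↥F') * ⟨p, hpF⟩ with hlam
  have hvl : v lam = r * p := by
    rw [hlam, map_mul, map_ratCast, hvv]
  have hwl : w lam = -(r * p) := by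
    rw [hlam, map_mul, map_ratCast]
    rw [hww, hτp]
    ring
  set s₀ : Ω := s₁ - r * p with hs₀
  have hz1 : s₀ + v lam = s₁ := by rw [hvl, hs₀]; ring
  have hz2 : s₀ + w lam = s₁ - 2 * r * p := by rw [hwl, hs₀]; ring
  set T1 := (P1 α c t₀ y₀).comp (X + C lam) with hT1
  set T2 := (P2' α c).comp (X + C lam) with hT2
  set Y := (P3 α c t₀ y₀).comp (X + C lam) with hY
  set z₀ := s₁ - 2 * r * p with hz₀
  set t₀' : Ω := ((P1 α c t₀ y₀).map w).eval z₀ / ((P2' α c).map w).eval z₀ with ht₀'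
  have ht1 : ((P1 α c t₀ y₀).map w).eval z₀ = t₀' * ((P2' α c).map w).eval z₀ := by
    rw [ht₀', div_mul_cancel₀ _ hr1]
  have hWG' : ((W * G).map w).eval t₀' ≠ 0 := by
    intro h0
    refine hr3 t₀' h0 ?_
    rw [eval_sub, eval_mul, eval_C, ht1, sub_self]
  rw [Polynomial.map_mul, eval_mul] at hWG'
  have hW' := left_ne_zero_of_mul hWG'
  have hG' := right_ne_zero_of_mul hWG'
  have hK : ∀ (g : ↥F' →+* Ω), (∀ x : K, g (algebraMap K F' x) = algebraMap K Ω x) →
      DH (algebraMap K Ω A) (algebraMap K Ω B) t₀' ((N.map g).eval t₀') ((W.map g).eval t₀') =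
        (G.map g).eval t₀' ^ 2 * (g α * t₀' ^ 2 + g β) := by
    intro g hg
    have h2 := congrArg (fun Q : Polynomial ↥F' => (Q.map g).eval t₀') (poly_id hWne hid)
    simp only [DH, Polynomial.map_sub, Polynomial.map_add, Polynomial.map_mul, Polynomial.map_pow,
      map_C, map_X, Polynomial.map_ofNat, eval_sub, eval_add, eval_mul, eval_pow, eval_C, eval_X,
      eval_ofNat, hg] at h2
    unfold DH
    exact h2
  have hwK : ∀ x : K, w (algebraMap K F' x) = algebraMap K Ω x := by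
    intro x
    rw [hww]
    exact τ.commutes x
  have hDD : DD (algebraMap K Ω A) (algebraMap K Ω B) t₀'
      ((N.map w).eval t₀' / (W.map w).eval t₀') ≠ 0 := by
    intro h0
    have h2 := hK w hwK
    rw [← DH_eq hW', h0, mul_zero] at h2
    have h3 := hpar.1 Ω (w α) (w β) (w c) (w t₀) (w y₀) z₀ (hmap1 w)
      (by rw [← P2_eval]; exact hr1)
    rw [P1_eval, P2_eval] at ht₀'
    rw [← ht₀'] at h3
    rw [h3] at h2
    have h4 : (w α * w y₀ - 2 * w α * w t₀ * z₀ + w c * w y₀ * z₀ ^ 2) /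
        (w α - w c * z₀ ^ 2) ≠ 0 := by
      refine div_ne_zero ?_ ?_
      · rw [← P3_eval]; exact hr2
      · rw [← P2_eval]; exact hr1
    exact mul_ne_zero (pow_ne_zero 2 hG') (mul_ne_zero (hne0 w _ hc) (pow_ne_zero 2 h4)) h2.symm
  -- the bad parameters
  have hYm : Y.map v ≠ 0 := by
    intro h0
    have h2 := P3_ne v (α := α) (c := c) (t₀ := t₀) (y₀ := y₀) hα hy₀
    apply h2
    refine Polynomial.funext fun z => ?_
    have h3 := comp_eval v lam (P3 α c t₀ y₀) (z - v lam)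
    rw [sub_add_cancel] at h3
    rw [← h3]
    change (Y.map v).eval _ = _
    rw [h0]
    simp
  have hr0 : ∀ ρ : Ω, T1.map v - C ρ * T2.map v ≠ 0 := by
    intro ρ h0
    apply P1_ne v (α := α) (c := c) (t₀ := t₀) (y₀ := y₀) hc hy₀ ρ
    refine Polynomial.funext fun z => ?_
    have h3 := comp_eval v lam (P1 α c t₀ y₀) (z - v lam)
    have h4 := comp_eval v lam (P2' α c) (z - v lam)
    rw [sub_add_cancel] at h3 h4
    rw [eval_sub, eval_mul, eval_C, ← h3, ← h4]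
    have h5 := congrArg (fun Q : Polynomial Ω => Q.eval (z - v lam)) h0
    simp only [eval_sub, eval_mul, eval_C, eval_zero] at h5
    rw [eval_zero]
    exact h5
  have hGm : G.map v ≠ 0 := (Polynomial.map_ne_zero_iff v.injective).mpr hG0
  set T : Set ℚ := {s | (Y.map v).eval (s : Ω) = 0} ∪ ⋃ ρ ∈ {z : Ω | (G.map v).IsRoot z},
    {s : ℚ | (T1.map v - C ρ * T2.map v).eval (s : Ω) = 0} with hTd
  have hT : T.Finite := (rat_fin hYm).union
    (Set.Finite.biUnion (finite_setOfPred_isRoot hGm) fun ρ _ => rat_fin (hr0 ρ))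
  obtain ⟨s, hsT, hsT2, hsW, hs⟩ := hind K Ω A B hD L (T1.map v) (T2.map v) (N.map v)
    (W.map v) (T1.map w) (T2.map w) (N.map w) (W.map w) s₀ t₁ t₀'
    (by rw [hT2, comp_eval, hz1, P2_eval]; exact hs1)
    (by rw [hT1, hT2, comp_eval, comp_eval, hz1, P1_eval, P2_eval]; exact hs2)
    (by
      rw [hT1, hT2, comp_eval, comp_eval, comp_der, comp_der, hz1, P1_eval, P2_eval, P1_der,
        P2_der]
      exact hs3)
    (by rw [hv, eval_map_algebraMap]; exact hW0)
    (by rw [hv, derivative_map, eval_map_algebraMap]; exact hW1)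
    (by rw [hv, eval_map_algebraMap]; exact hN)
    (by rw [hT2, comp_eval, hz2]; exact hr1)
    (by rw [hT1, hT2, comp_eval, comp_eval, hz2]; exact ht1) hW' hDD T hT
  have hcast : ∀ g : ↥F' →+* Ω, g (s : F') = (s : Ω) := fun g => map_ratCast _ _
  have hev : ∀ (g : ↥F' →+* Ω) (P : Polynomial F') (t : F'), (P.map g).eval (g t) =
      g (P.eval t) := fun g P t => eval_map_apply _ _
  have hevs : ∀ (g : ↥F' →+* Ω) (P : Polynomial F'), (P.map g).eval (s : Ω) =
      g (P.eval (s : F')) := fun g P => by rw [← hcast g, hev]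
  obtain ⟨σ, hσ⟩ : ∃ σ : ↥F', σ = (s : F') + lam := ⟨_, rfl⟩
  obtain ⟨t, ht⟩ : ∃ t : ↥F', t = tt α c t₀ y₀ σ := ⟨_, rfl⟩
  have heT1 : T1.eval (s : F') = 2 * c * y₀ * σ - α * t₀ - c * t₀ * σ ^ 2 := by
    rw [hT1, P1, hσ]
    simp
  have heT2 : T2.eval (s : F') = α - c * σ ^ 2 := by
    rw [hT2, P2', hσ]
    simp
  have heY : Y.eval (s : F') = α * y₀ - 2 * α * t₀ * σ + c * y₀ * σ ^ 2 := by
    rw [hY, P3, hσ]
    simp
  have htt : ∀ g : ↥F' →+* Ω, (T1.map g).eval (s : Ω) / (T2.map g).eval (s : Ω) = g t := by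
    intro g
    rw [hevs, hevs, ← map_div₀, ht, tt, heT1, heT2]
  rw [htt v] at hsW hs
  rw [htt w] at hs
  rw [hev] at hsW
  simp only [hev] at hs
  have hd : α - c * σ ^ 2 ≠ 0 := by
    intro h0
    apply hsT2
    rw [hevs, heT2, h0, map_zero]
  obtain ⟨x, hx⟩ := hf σ hd (by
    intro h0
    apply hsW
    rw [ht, h0, map_zero]) (by
    intro h0
    apply hsT
    refine Or.inr ?_
    simp only [Set.mem_iUnion]
    refine ⟨v t, ?_, ?_⟩
    · change (G.map v).IsRoot _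
      rw [IsRoot.def, hev, ht, h0, map_zero]
    · change (T1.map v - C _ * T2.map v).eval (s : Ω) = 0
      rw [← htt v, eval_sub, eval_mul, eval_C, div_mul_cancel₀ _ hsT2, sub_self]) (by
    intro h0
    apply hsT
    refine Or.inl ?_
    change (Y.map v).eval (s : Ω) = 0
    rw [yy, div_eq_zero_iff, or_iff_left hd] at h0
    rw [hevs, heY, h0, map_zero])
  rw [← ht] at hx
  obtain ⟨y, hy⟩ : ∃ y : ↥F', y = t * x + N.eval t / W.eval t := ⟨_, rfl⟩
  rw [← hy] at hx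
  have heq : ∀ g : ↥F' →+* Ω, (∀ x : K, g (algebraMap K F' x) = algebraMap K Ω x) →
      (g y) ^ 2 = (g x) ^ 3 + algebraMap K Ω A * g x + algebraMap K Ω B := by
    intro g hg
    have h2 := congrArg g hx
    rw [map_add, map_add, map_mul, map_pow, map_pow, hg, hg] at h2
    exact h2.symm
  have hvK : ∀ x : K, v (algebraMap K F' x) = algebraMap K Ω x := by
    intro x
    rw [hvv]
    rfl
  have hns := nons hD (heq v hvK)
  have hns' := nons hD (heq w hwK)
  have hlin : ∀ g : ↥F' →+* Ω, g y = g t * g x + g (N.eval t) / g (W.eval t) := by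
    intro g
    rw [hy, map_add, map_mul, map_div₀]
  have hkey := hs (v x) (v y) (w x) (w y) (hlin v) (hlin w) hns hns'
  refine ⟨Fin.cons (Affine.Point.some _ _ hns + Affine.Point.some _ _ hns') P, ind_cons
    (Affine.Point.map (W' := crv A B) L.val).range P _ hP hPL hkey, ?_⟩
  intro i
  refine Fin.cases ?_ (fun j => ?_) i
  · rw [Fin.cons_zero]
    refine fix_range fun u hu => ?_
    have hx' : (x : Ω) ∈ fixedField (stab U p) := hF' ▸ x.2
    have hy' : (y : Ω) ∈ fixedField (stab U p) := hF' ▸ y.2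
    have ax := act_stab hτU hτp hu hx'
    have ay := act_stab hτU hτp hu hy'
    rw [map_add, Affine.Point.map_some, Affine.Point.map_some]
    rcases hpU u hu with hup | hup
    · have e1 : (u : Ω →ₐ[K] Ω) (v x) = v x := by rw [hvv]; exact (ax.1 hup).1
      have e2 : (u : Ω →ₐ[K] Ω) (v y) = v y := by rw [hvv]; exact (ay.1 hup).1
      have e3 : (u : Ω →ₐ[K] Ω) (w x) = w x := by rw [hww]; exact (ax.1 hup).2
      have e4 : (u : Ω →ₐ[K] Ω) (w y) = w y := by rw [hww]; exact (ay.1 hup).2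
      simp only [e1, e2, e3, e4]
    · have e1 : (u : Ω →ₐ[K] Ω) (v x) = w x := by rw [hvv, hww]; exact (ax.2 hup).1
      have e2 : (u : Ω →ₐ[K] Ω) (v y) = w y := by rw [hvv, hww]; exact (ay.2 hup).1
      have e3 : (u : Ω →ₐ[K] Ω) (w x) = v x := by rw [hvv, hww]; exact (ax.2 hup).2
      have e4 : (u : Ω →ₐ[K] Ω) (w y) = v y := by rw [hvv, hww]; exact (ay.2 hup).2
      simp only [e1, e2, e3, e4]
      exact add_comm _ _
  · rw [Fin.cons_succ]
    exact hr j

end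

end Pool.Agent.N683.H2
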